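import Pool.Agent.H505R3.SquarePlusOne
import Pool.Agent.H505R2.Core

/-!
Three values of `t ^ 2 + 8 m` whose product is a square: the successive vectors
`(1, 0), (W, 1), (X1, 2 V), (X2, W)` with `V = u + 1`, `W = 4 m V + 1`, `X1 = 2 V W - 1`,
`X2 = W ^ 2 - 2 m`, and the values `1, A0, A1, NN ^ 2` of the form `x ^ 2 + 8 m y ^ 2`.
-/

set_option autoImplicit false

namespace Pool.Agent.H496R3.Eight

section defs
variable {R : Type} [CommSemiring R] (m u : R)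

def W : R := 4 * m * (u + 1) + 1
def X1 : R := 2 * u * W m u + 8 * m * (u + 1) + 1
def X2 : R := 16 * m ^ 2 * (u + 1) ^ 2 + 8 * m * u + 6 * m + 1
def A0 : R := W m u ^ 2 + 8 * m
def A1 : R := X1 m u ^ 2 + 32 * m * (u + 1) ^ 2
def NN : R := W m u ^ 2 + 2 * m
def B1 : R := W m u * X1 m u + 16 * m * (u + 1)
def B2 : R := X1 m u * X2 m u + 16 * m * ((u + 1) * W m u)
/-- the product to be sifted -/
def FF : R := A0 m u * A1 m u * NN m u

lemma id0 : W m u ^ 2 + 8 * m = A0 m u := rfl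

lemma id1 : B1 m u ^ 2 + 8 * m = A0 m u * A1 m u := by
  unfold B1 A0 A1 X1 W
  ring

lemma id2 : B2 m u ^ 2 + 8 * m = A1 m u * NN m u ^ 2 := by
  unfold B2 A1 NN X2 X1 W
  ring

end defs

lemma FF_map {R S : Type} [CommSemiring R] [CommSemiring S] (f : R →+* S) (m u : R) :
    f (FF m u) = FF (f m) (f u) := by
  simp only [FF, A0, A1, NN, X1, W, map_mul, map_add, map_pow, map_one, map_ofNat]

lemma FF_cast {R : Type} [CommSemiring R] (m u : ℕ) : ((FF m u : ℕ) : R) = FF (m : R) (u : R) :=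
  FF_map (Nat.castRingHom R) m u

/-- the value modulo `p` only depends on the arguments modulo `p` -/
lemma FF_dvd {p m u m' u' : ℕ} (hm : m ≡ m' [MOD p]) (hu : u ≡ u' [MOD p]) (h : p ∣ FF m u) :
    p ∣ FF m' u' := by
  rw [← ZMod.natCast_eq_zero_iff] at h ⊢
  rw [FF_cast] at h ⊢
  rw [← (ZMod.natCast_eq_natCast_iff m m' p).2 hm, ← (ZMod.natCast_eq_natCast_iff u u' p).2 hu]
  exact h

/-- monotonicity -/
lemma mono_all {m u v : ℕ} (hm : 0 < m) (h : u < v) :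
    W m u < W m v ∧ B1 m u < B1 m v ∧ B2 m u < B2 m v := by
  have h0 : W m u < W m v := by
    unfold W
    have := Nat.mul_lt_mul_of_pos_left (show u + 1 < v + 1 by omega) (show 0 < 4 * m by omega)
    omega
  have e1 : 8 * m * (u + 1) < 8 * m * (v + 1) :=
    Nat.mul_lt_mul_of_pos_left (by omega) (by omega)
  have h1 : X1 m u < X1 m v := by
    unfold X1
    have : 2 * u * W m u ≤ 2 * v * W m v := Nat.mul_le_mul (by omega) h0.le
    omega
  have h2 : X2 m u ≤ X2 m v := by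
    unfold X2
    have e2 : 16 * m ^ 2 * (u + 1) ^ 2 ≤ 16 * m ^ 2 * (v + 1) ^ 2 :=
      Nat.mul_le_mul_left _ (Nat.pow_le_pow_left (by omega) 2)
    have e3 : 8 * m * u ≤ 8 * m * v := Nat.mul_le_mul_left _ h.le
    omega
  have hX2 : 0 < X2 m v := by unfold X2; omega
  refine ⟨h0, ?_, ?_⟩
  · unfold B1
    have a1 : W m u * X1 m u ≤ W m v * X1 m v := Nat.mul_le_mul h0.le h1.le
    have a2 : 16 * m * (u + 1) < 16 * m * (v + 1) :=
      Nat.mul_lt_mul_of_pos_left (by omega) (by omega)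
    omega
  · unfold B2
    have a1 : X1 m u * X2 m u ≤ X1 m v * X2 m v := Nat.mul_le_mul h1.le h2
    have a2 : (u + 1) * W m u < (v + 1) * W m v := Nat.mul_lt_mul'' (by omega) h0
    have a3 : 16 * m * ((u + 1) * W m u) < 16 * m * ((v + 1) * W m v) :=
      Nat.mul_lt_mul_of_pos_left a2 (by omega)
    omega

/-- sizes -/
lemma size_all {m u : ℕ} (hm : 0 < m) : W m u ≤ 1000 * m ^ 3 * (u + 1) ^ 4 ∧
    B1 m u ≤ 1000 * m ^ 3 * (u + 1) ^ 4 ∧ B2 m u ≤ 1000 * m ^ 3 * (u + 1) ^ 4 := by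
  obtain ⟨v, hv⟩ : ∃ v, v = u + 1 := ⟨_, rfl⟩
  have hv1 : 1 ≤ v := by omega
  have hmm : ∀ a b : ℕ, a ≤ 3 → b ≤ 4 → m ^ a * v ^ b ≤ m ^ 3 * v ^ 4 := fun a b ha hb =>
    Nat.mul_le_mul (Nat.pow_le_pow_right hm ha) (Nat.pow_le_pow_right hv1 hb)
  have hmv : 1 ≤ m * v := Nat.mul_pos hm hv1
  have h0 : W m u ≤ 5 * (m * v) := by
    have e : W m u = 4 * (m * v) + 1 := by unfold W; rw [hv]; ring
    omega
  have hmv2 : m * v ≤ m * v ^ 2 := Nat.mul_le_mul_left _ (Nat.le_self_pow two_ne_zero v)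
  have h1 : X1 m u ≤ 19 * (m * v ^ 2) := by
    have e : X1 m u = 2 * u * W m u + 8 * (m * v) + 1 := by unfold X1; rw [hv]; ring
    have e2 : 2 * u * W m u ≤ 2 * v * (5 * (m * v)) := Nat.mul_le_mul (by omega) h0
    have e3 : 2 * v * (5 * (m * v)) = 10 * (m * v ^ 2) := by ring
    omega
  have hm2 : m * v ^ 2 ≤ m ^ 2 * v ^ 2 :=
    Nat.mul_le_mul_right _ (Nat.le_self_pow two_ne_zero m)
  have h2 : X2 m u ≤ 31 * (m ^ 2 * v ^ 2) := by
    have e : X2 m u = 16 * (m ^ 2 * v ^ 2) + 8 * (m * u) + 6 * m + 1 := by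
      unfold X2; rw [hv]; ring
    have e2 : m * u ≤ m * v := Nat.mul_le_mul_left _ (by omega)
    have e3 : m * 1 ≤ m * v := Nat.mul_le_mul_left _ hv1
    omega
  rw [← hv]
  have t : 1000 * m ^ 3 * v ^ 4 = 1000 * (m ^ 3 * v ^ 4) := by ring
  rw [t]
  have m11 := hmm 1 1 (by norm_num) (by norm_num)
  have m23 := hmm 2 3 (by norm_num) (by norm_num)
  have m22 := hmm 2 2 (by norm_num) (by norm_num)
  rw [pow_one, pow_one] at m11
  refine ⟨by omega, ?_, ?_⟩
  · have e : B1 m u = W m u * X1 m u + 16 * (m * v) := by unfold B1; rw [hv]; ring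
    have := Nat.mul_le_mul h0 h1
    have e2 : 5 * (m * v) * (19 * (m * v ^ 2)) = 95 * (m ^ 2 * v ^ 3) := by ring
    omega
  · have e : B2 m u = X1 m u * X2 m u + 16 * (m * v) * W m u := by unfold B2; rw [hv]; ring
    have := Nat.mul_le_mul h1 h2
    have e2 : 19 * (m * v ^ 2) * (31 * (m ^ 2 * v ^ 2)) = 589 * (m ^ 3 * v ^ 4) := by ring
    have := Nat.mul_le_mul_left (16 * (m * v)) h0
    have e3 : 16 * (m * v) * (5 * (m * v)) = 80 * (m ^ 2 * v ^ 2) := by ring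
    omega

end Pool.Agent.H496R3.Eight
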