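import Pool.Agent.H496R3.ThreeBase

/-!
Three values of `t ^ 2 - 8 m`, `m = j + 1`, whose product is a square; all the polynomials have
nonnegative coefficients in `j`, `u`.
-/

set_option autoImplicit false

namespace Pool.Agent.H496R3.EightNeg

open Finset Polynomial Pool.Agent.H496R3.Three

section defs
variable {R : Type} [CommSemiring R] (j u : R)

def W : R := 4 * j * u + 4 * j + 4 * u + 3
def X1 : R := 2 * (u + 1) * W j u + 1
def X2 : R := W j u ^ 2 + 2 * (j + 1)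
def A0 : R := 16 * j ^ 2 * u ^ 2 + 32 * j ^ 2 * u + 16 * j ^ 2 + 32 * j * u ^ 2 + 56 * j * u +
  16 * j + 16 * u ^ 2 + 24 * u + 1
def A1 : R := 64 * j ^ 2 * u ^ 4 + 256 * j ^ 2 * u ^ 3 + 384 * j ^ 2 * u ^ 2 + 256 * j ^ 2 * u +
  64 * j ^ 2 + 128 * j * u ^ 4 + 480 * j * u ^ 3 + 656 * j * u ^ 2 + 384 * j * u + 80 * j +
  64 * u ^ 4 + 224 * u ^ 3 + 276 * u ^ 2 + 132 * u + 17
def NN : R := 16 * j ^ 2 * u ^ 2 + 32 * j ^ 2 * u + 16 * j ^ 2 + 32 * j * u ^ 2 + 56 * j * u +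
  22 * j + 16 * u ^ 2 + 24 * u + 7
/-- without the linear term -/
def G1 : R := 32 * j ^ 2 * u ^ 3 + 96 * j ^ 2 * u ^ 2 + 96 * j ^ 2 * u + 32 * j ^ 2 +
  64 * j * u ^ 3 + 176 * j * u ^ 2 + 148 * j * u + 36 * j + 32 * u ^ 3 + 80 * u ^ 2 + 5
def B1 : R := G1 j u + 54 * u
/-- without the linear term -/
def G2 : R := 128 * j ^ 3 * u ^ 4 + 512 * j ^ 3 * u ^ 3 + 768 * j ^ 3 * u ^ 2 + 512 * j ^ 3 * u +
  128 * j ^ 3 + 384 * j ^ 2 * u ^ 4 + 1440 * j ^ 2 * u ^ 3 + 1984 * j ^ 2 * u ^ 2 +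
  1184 * j ^ 2 * u + 256 * j ^ 2 + 384 * j * u ^ 4 + 1344 * j * u ^ 3 + 1688 * j * u ^ 2 +
  884 * j * u + 158 * j + 128 * u ^ 4 + 416 * u ^ 3 + 472 * u ^ 2 + 29
def B2 : R := G2 j u + 210 * u
/-- the product to be sifted -/
def FF : R := A0 j u * A1 j u * NN j u

lemma id0 : W j u ^ 2 = A0 j u + 8 * (j + 1) := by
  unfold A0 W
  ring

lemma id1 : B1 j u ^ 2 = A0 j u * A1 j u + 8 * (j + 1) := by
  unfold B1 G1 A0 A1
  ring

lemma id2 : B2 j u ^ 2 = A1 j u * NN j u ^ 2 + 8 * (j + 1) := by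
  unfold B2 G2 A1 NN
  ring

lemma eqB1 : B1 j u + 16 * ((j + 1) * (u + 1)) = W j u * X1 j u := by
  unfold B1 G1 X1 W
  ring

lemma eqB2 : B2 j u + 16 * ((j + 1) * (u + 1)) * W j u = X1 j u * X2 j u := by
  unfold B2 G2 X2 X1 W
  ring

end defs

lemma FF_map {R S : Type} [CommSemiring R] [CommSemiring S] (f : R →+* S) (j u : R) :
    f (FF j u) = FF (f j) (f u) := by
  simp only [FF, A0, A1, NN, map_mul, map_add, map_pow, map_one, map_ofNat]

lemma FF_cast {R : Type} [CommSemiring R] (j u : ℕ) : ((FF j u : ℕ) : R) = FF (j : R) (u : R) :=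
  FF_map (Nat.castRingHom R) j u

/-- the value modulo `p` only depends on the arguments modulo `p` -/
lemma FF_dvd {p j u j' u' : ℕ} (hj : j ≡ j' [MOD p]) (hu : u ≡ u' [MOD p]) (h : p ∣ FF j u) :
    p ∣ FF j' u' := by
  rw [← ZMod.natCast_eq_zero_iff] at h ⊢
  rw [FF_cast] at h ⊢
  rw [← (ZMod.natCast_eq_natCast_iff j j' p).2 hj, ← (ZMod.natCast_eq_natCast_iff u u' p).2 hu]
  exact h

lemma mono0 (j : ℕ) : StrictMono (W j) := by
  intro u w h
  unfold W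
  have : 4 * j * u ≤ 4 * j * w := Nat.mul_le_mul_left _ h.le
  omega

lemma mono1 (j : ℕ) : StrictMono (B1 j) := by
  intro u w h
  have h1 : G1 j u ≤ G1 j w := by
    unfold G1
    gcongr
  unfold B1
  omega

lemma mono2 (j : ℕ) : StrictMono (B2 j) := by
  intro u w h
  have h1 : G2 j u ≤ G2 j w := by
    unfold G2
    gcongr
  unfold B2
  omega

/-- sizes -/
lemma size_all (j u : ℕ) : W j u ≤ 200 * (j + 1) ^ 3 * (u + 1) ^ 4 ∧
    B1 j u ≤ 200 * (j + 1) ^ 3 * (u + 1) ^ 4 ∧ B2 j u ≤ 200 * (j + 1) ^ 3 * (u + 1) ^ 4 := by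
  have q1 := eqB1 j u
  have q2 := eqB2 j u
  obtain ⟨v, hv⟩ : ∃ v, v = u + 1 := ⟨_, rfl⟩
  obtain ⟨m, hm'⟩ : ∃ m, m = j + 1 := ⟨_, rfl⟩
  have hv1 : 1 ≤ v := by omega
  have hm : 1 ≤ m := by omega
  have hmm : ∀ a b : ℕ, a ≤ 3 → b ≤ 4 → m ^ a * v ^ b ≤ m ^ 3 * v ^ 4 := fun a b ha hb =>
    Nat.mul_le_mul (Nat.pow_le_pow_right hm ha) (Nat.pow_le_pow_right hv1 hb)
  have h0 : W j u ≤ 4 * (m * v) := by
    have e : W j u + 1 = 4 * (m * v) := by unfold W; rw [hv, hm']; ring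
    omega
  have hmv2 : 1 ≤ m * v ^ 2 := Nat.mul_pos hm (by positivity)
  have h1 : X1 j u ≤ 9 * (m * v ^ 2) := by
    have e : X1 j u = 2 * v * W j u + 1 := by unfold X1; rw [hv]
    have e2 : 2 * v * W j u ≤ 2 * v * (4 * (m * v)) := Nat.mul_le_mul_left _ h0
    have e3 : 2 * v * (4 * (m * v)) = 8 * (m * v ^ 2) := by ring
    omega
  have h2 : X2 j u ≤ 18 * (m ^ 2 * v ^ 2) := by
    have e : X2 j u = W j u ^ 2 + 2 * m := by unfold X2; rw [hm']
    have e2 : W j u ^ 2 ≤ (4 * (m * v)) ^ 2 := Nat.pow_le_pow_left h0 2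
    have e3 : (4 * (m * v)) ^ 2 = 16 * (m ^ 2 * v ^ 2) := by ring
    have e4 : m ^ 1 * v ^ 0 ≤ m ^ 2 * v ^ 2 := Nat.mul_le_mul
      (Nat.pow_le_pow_right hm (by norm_num)) (Nat.pow_le_pow_right hv1 (by norm_num))
    rw [pow_one, pow_zero, mul_one] at e4
    omega
  rw [← hv, ← hm'] at *
  have t : 200 * m ^ 3 * v ^ 4 = 200 * (m ^ 3 * v ^ 4) := by ring
  rw [t]
  have m11 := hmm 1 1 (by norm_num) (by norm_num)
  have m23 := hmm 2 3 (by norm_num) (by norm_num)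
  rw [pow_one, pow_one] at m11
  refine ⟨by omega, ?_, ?_⟩
  · have := Nat.mul_le_mul h0 h1
    have e2 : 4 * (m * v) * (9 * (m * v ^ 2)) = 36 * (m ^ 2 * v ^ 3) := by ring
    omega
  · have := Nat.mul_le_mul h1 h2
    have e2 : 9 * (m * v ^ 2) * (18 * (m ^ 2 * v ^ 2)) = 162 * (m ^ 3 * v ^ 4) := by ring
    omega

set_option maxRecDepth 100000 in
lemma small2 : ∀ j < 2, ¬ 2 ∣ FF j 0 := by decide +kernel

set_option maxRecDepth 100000 in
lemma small3 : ∀ j < 3, j ≠ 1 → ∃ v < 3, ¬ 3 ∣ FF j v := by decide +kernel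

set_option maxRecDepth 100000 in
lemma small5 : ∀ j < 5, j ≠ 1 → ∃ v < 5, ¬ 5 ∣ FF j v := by decide +kernel

set_option maxRecDepth 100000 in
lemma small7 : ∀ j < 7, ∃ v < 7, ¬ 7 ∣ FF j v := by decide +kernel

lemma small_all {j : ℕ} (h3 : j % 3 ≠ 1) (h5 : j % 5 ≠ 1) :
    ∃ v : ℕ, ∀ w : ℕ, w ≡ v [MOD 210] →
      ∀ p : ℕ, p.Prime → p < 11 → ¬ p ∣ FF j w := by
  obtain ⟨c3, -, a3⟩ := small3 (j % 3) (Nat.mod_lt _ (by norm_num)) h3
  obtain ⟨c5, -, a5⟩ := small5 (j % 5) (Nat.mod_lt _ (by norm_num)) h5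
  obtain ⟨c7, -, a7⟩ := small7 (j % 7) (Nat.mod_lt _ (by norm_num))
  have a2 := small2 (j % 2) (Nat.mod_lt _ (by norm_num))
  obtain ⟨v1, e1, f1⟩ := Nat.chineseRemainder (show Nat.Coprime 2 3 by norm_num) 0 c3
  obtain ⟨v2, e2, f2⟩ := Nat.chineseRemainder (show Nat.Coprime 6 5 by norm_num) v1 c5
  obtain ⟨v3, e3, f3⟩ := Nat.chineseRemainder (show Nat.Coprime 30 7 by norm_num) v2 c7
  refine ⟨v3, fun w hw p hp hp11 hd => ?_⟩
  have g : ∀ q : ℕ, q ∣ 210 → w ≡ v3 [MOD q] := fun q hq => hw.of_dvd hq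
  have g7 : w ≡ c7 [MOD 7] := (g 7 (by norm_num)).trans f3
  have g5 : w ≡ c5 [MOD 5] := ((g 5 (by norm_num)).trans (e3.of_dvd (by norm_num))).trans f2
  have g3 : w ≡ c3 [MOD 3] := (((g 3 (by norm_num)).trans (e3.of_dvd (by norm_num))).trans
    (e2.of_dvd (by norm_num))).trans f1
  have g2 : w ≡ 0 [MOD 2] := (((g 2 (by norm_num)).trans (e3.of_dvd (by norm_num))).trans
    (e2.of_dvd (by norm_num))).trans e1
  have hj : ∀ q : ℕ, j ≡ j % q [MOD q] := fun q => (Nat.mod_modEq _ _).symm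
  have hc : p = 2 ∨ p = 3 ∨ p = 5 ∨ p = 7 := by
    interval_cases p <;> first | omega | (exfalso; revert hp; norm_num)
  rcases hc with rfl | rfl | rfl | rfl
  · exact a2 (FF_dvd (hj 2) g2 hd)
  · exact a3 (FF_dvd (hj 3) g3 hd)
  · exact a5 (FF_dvd (hj 5) g5 hd)
  · exact a7 (FF_dvd (hj 7) g7 hd)

section
variable {p : ℕ} [hp : Fact p.Prime]

lemma num_ne {p : ℕ} (h11 : 11 ≤ p) [Fact p.Prime] (m : ℕ) (h0 : 0 < m) (hm : m < 11) :
    (m : ZMod p) ≠ 0 := by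
  intro h
  rw [ZMod.natCast_eq_zero_iff] at h
  have := Nat.le_of_dvd h0 h
  omega

lemma deg_FF (a : ZMod p) : (FF (C a) (X : (ZMod p)[X])).natDegree ≤ 8 := by
  have h0 : (A0 (C a) (X : (ZMod p)[X])).natDegree ≤ 2 := by
    unfold A0
    compute_degree
  have h1 : (A1 (C a) (X : (ZMod p)[X])).natDegree ≤ 4 := by
    unfold A1
    compute_degree
  have h2 : (NN (C a) (X : (ZMod p)[X])).natDegree ≤ 2 := by
    unfold NN
    compute_degree
  unfold FF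
  exact (natDegree_mul_le_of_le (natDegree_mul_le_of_le h0 h1) h2).trans (by norm_num)

lemma ne_FF (h11 : 11 ≤ p) (a : ZMod p) : FF (C a) (X : (ZMod p)[X]) ≠ 0 := by
  have n2 : (2 : ZMod p) ≠ 0 := by exact_mod_cast num_ne h11 2 (by norm_num) (by norm_num)
  have h1 : A1 (C a) (X : (ZMod p)[X]) ≠ 0 := by
    intro h
    have e1 := congrArg (eval (-1)) h
    simp only [A1, eval_add, eval_mul, eval_pow, eval_C, eval_X, eval_ofNat,
      eval_zero] at e1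
    apply one_ne_zero (α := ZMod p)
    linear_combination e1
  have h0 : A0 (C a) (X : (ZMod p)[X]) ≠ 0 := by
    intro h
    have e1 := congrArg (eval (-1)) h
    have e2 := congrArg (eval 0) h
    have e3 := congrArg (eval (-2)) h
    simp only [A0, eval_add, eval_mul, eval_pow, eval_C, eval_X, eval_one, eval_ofNat,
      eval_zero] at e1 e2 e3
    have e4 : (2 : ZMod p) ^ 4 * (a + 1) = 0 := by
      linear_combination e3 - e2
    rcases mul_eq_zero.1 e4 with e | e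
    · exact n2 (pow_eq_zero_iff (by norm_num) |>.1 e)
    · apply one_ne_zero (α := ZMod p)
      linear_combination e1 + 8 * e
  have h2 : NN (C a) (X : (ZMod p)[X]) ≠ 0 := by
    intro h
    have e1 := congrArg (eval (-1)) h
    have e2 := congrArg (eval 0) h
    have e3 := congrArg (eval (-2)) h
    simp only [NN, eval_add, eval_mul, eval_pow, eval_C, eval_X, eval_ofNat,
      eval_zero] at e1 e2 e3
    have e4 : (2 : ZMod p) ^ 4 * (a + 1) = 0 := by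
      linear_combination e3 - e2
    rcases mul_eq_zero.1 e4 with e | e
    · exact n2 (pow_eq_zero_iff (by norm_num) |>.1 e)
    · apply one_ne_zero (α := ZMod p)
      linear_combination e1 + 2 * e
  unfold FF
  exact mul_ne_zero (mul_ne_zero h0 h1) h2

end

lemma polyMod (j : ℕ) : PolyMod (fun u => A0 j u * A1 j u * NN j u) := by
  intro p hp h11
  have : Fact p.Prime := ⟨hp⟩
  refine ⟨FF (C (j : ZMod p)) X, ne_FF h11 _, deg_FF _, fun u => ?_⟩
  have h3 := FF_map (evalRingHom ((u : ZMod p))) (C (j : ZMod p)) X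
  rw [coe_evalRingHom, eval_C, eval_X] at h3
  rw [h3]
  exact (FF_cast j u).symm

/-- the base family for `a = - 8 (j + 1)` -/
noncomputable def baseNeg (j : ℕ) (h3 : j % 3 ≠ 1) (h5 : j % 5 ≠ 1) :
    Base (-(8 * ((j : ℤ) + 1))) where
  A := A0 j
  B := A1 j
  N := NN j
  Y0 := W j
  Y1 := B1 j
  Y2 := B2 j
  v := (small_all h3 h5).choose
  L := 200 * (j + 1) ^ 3
  hL := by
    have : 0 < 200 * (j + 1) ^ 3 := by positivity
    omega
  hP := polyMod j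
  hsm := fun w hw p hp h11 => (small_all h3 h5).choose_spec w hw p hp h11
  m0 := mono0 j
  m1 := mono1 j
  m2 := mono2 j
  b0 := fun u => (size_all j u).1
  b1 := fun u => (size_all j u).2.1
  b2 := fun u => (size_all j u).2.2
  i0 := fun u => by
    have h := id0 j u
    have h' : ((W j u : ℕ) : ℤ) ^ 2 = ((A0 j u : ℕ) : ℤ) + 8 * ((j : ℤ) + 1) := by
      exact_mod_cast h
    rw [h']
    ring
  i1 := fun u => by
    have h := id1 j u
    have h' : ((B1 j u : ℕ) : ℤ) ^ 2 = ((A0 j u * A1 j u : ℕ) : ℤ) + 8 * ((j : ℤ) + 1) := by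
      exact_mod_cast h
    rw [h']
    ring
  i2 := fun u => by
    have h := id2 j u
    have h' : ((B2 j u : ℕ) : ℤ) ^ 2 = ((A1 j u * NN j u ^ 2 : ℕ) : ℤ) + 8 * ((j : ℤ) + 1) := by
      exact_mod_cast h
    rw [h']
    ring
  pos := fun u => by
    refine ⟨?_, ?_, ?_⟩
    · unfold A0; omega
    · unfold A1; omega
    · unfold NN; omega

end Pool.Agent.H496R3.EightNeg
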