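import Pool.Agent.H496R3.ThreeCore

/-!
Families of three values of `t ^ 2 + a`, and their translates `t ^ 2 + b t + c`.
-/

set_option autoImplicit false

namespace Pool.Agent.H496R3.Three

open Finset Polynomial

/-- a family of three values of `t ^ 2 + a` -/
structure Base (a : ℤ) where
  A : ℕ → ℕ
  B : ℕ → ℕ
  N : ℕ → ℕ
  Y0 : ℕ → ℕ
  Y1 : ℕ → ℕ
  Y2 : ℕ → ℕ
  v : ℕ
  L : ℕ
  hL : 1 ≤ L
  hP : PolyMod (fun u => A u * B u * N u)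
  hsm : ∀ w, w ≡ v [MOD 210] → ∀ p, p.Prime → p < 11 → ¬ p ∣ A w * B w * N w
  m0 : StrictMono Y0
  m1 : StrictMono Y1
  m2 : StrictMono Y2
  b0 : ∀ u, Y0 u ≤ L * (u + 1) ^ 4
  b1 : ∀ u, Y1 u ≤ L * (u + 1) ^ 4
  b2 : ∀ u, Y2 u ≤ L * (u + 1) ^ 4
  i0 : ∀ u, (Y0 u : ℤ) ^ 2 + a = (A u : ℕ)
  i1 : ∀ u, (Y1 u : ℤ) ^ 2 + a = (A u * B u : ℕ)
  i2 : ∀ u, (Y2 u : ℤ) ^ 2 + a = (B u * N u ^ 2 : ℕ)
  pos : ∀ u, A u ≠ 0 ∧ B u ≠ 0 ∧ N u ≠ 0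

lemma shift_mono {Y : ℕ → ℕ} (hY : StrictMono Y) (k : ℤ) (v : ℕ) (hk : k.natAbs ≤ v) :
    ∀ u w : ℕ, v ≤ u → u < w → ((Y u : ℤ) - k).toNat < ((Y w : ℤ) - k).toNat := by
  intro u w hu huw
  have h1 : u ≤ Y u := hY.le_apply
  have h2 := hY huw
  omega

lemma shift_bd {Y : ℕ → ℕ} {L : ℕ} (hb : ∀ u, Y u ≤ L * (u + 1) ^ 4) (k : ℤ) :
    ∀ u : ℕ, ((Y u : ℤ) - k).toNat ≤ (L + k.natAbs) * (u + 1) ^ 4 := by
  intro u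
  have h1 := hb u
  have h2 : k.natAbs * 1 ≤ k.natAbs * (u + 1) ^ 4 :=
    Nat.mul_le_mul_left _ (Nat.one_le_pow _ _ (by omega))
  have h3 : (L + k.natAbs) * (u + 1) ^ 4 = L * (u + 1) ^ 4 + k.natAbs * (u + 1) ^ 4 := by ring
  omega

lemma shift_val {Y : ℕ → ℕ} (hY : StrictMono Y) {a : ℤ} (k : ℤ) (v : ℕ) (hk : k.natAbs ≤ v)
    {M : ℕ → ℕ} (hM : ∀ u, (Y u : ℤ) ^ 2 + a = (M u : ℕ)) : ∀ u : ℕ, v ≤ u →
    (((((Y u : ℤ) - k).toNat : ℕ) : ℤ) ^ 2 + 2 * k * ((((Y u : ℤ) - k).toNat : ℕ) : ℤ) +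
      (k ^ 2 + a)).toNat = M u := by
  intro u hu
  have h1 : u ≤ Y u := hY.le_apply
  have h2 : ((((Y u : ℤ) - k).toNat : ℕ) : ℤ) = Y u - k := Int.toNat_of_nonneg (by omega)
  rw [h2]
  have h3 : ((Y u : ℤ) - k) ^ 2 + 2 * k * ((Y u : ℤ) - k) + (k ^ 2 + a) = (M u : ℕ) := by
    rw [← hM]
    ring
  rw [h3, Int.toNat_natCast]

/-- the translated family -/
def Base.fam {a : ℤ} (β : Base a) (k : ℤ) :
    Fam (fun t => ((t : ℤ) ^ 2 + 2 * k * (t : ℤ) + (k ^ 2 + a)).toNat) where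
  A := β.A
  B := β.B
  N := β.N
  y0 := fun u => ((β.Y0 u : ℤ) - k).toNat
  y1 := fun u => ((β.Y1 u : ℤ) - k).toNat
  y2 := fun u => ((β.Y2 u : ℤ) - k).toNat
  v0 := β.v + 210 * k.natAbs
  L0 := β.L + k.natAbs
  hL0 := le_trans β.hL (by omega)
  hP := β.hP
  hsm := fun w hw p hp h11 => β.hsm w (hw.trans (by
    have : β.v + 210 * k.natAbs ≡ β.v + 0 [MOD 210] := by
      apply Nat.ModEq.add_left
      exact (Nat.modEq_zero_iff_dvd).2 (Dvd.intro _ rfl)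
    rwa [add_zero] at this)) p hp h11
  m0 := shift_mono β.m0 k _ (by omega)
  m1 := shift_mono β.m1 k _ (by omega)
  m2 := shift_mono β.m2 k _ (by omega)
  b0 := fun u _ => shift_bd β.b0 k u
  b1 := fun u _ => shift_bd β.b1 k u
  b2 := fun u _ => shift_bd β.b2 k u
  i0 := shift_val β.m0 k _ (by omega) β.i0
  i1 := shift_val β.m1 k _ (by omega) β.i1
  i2 := shift_val β.m2 k _ (by omega) β.i2
  pos := fun u _ => β.pos u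

/-- the conclusion for `t ^ 2 + b t + c` with `b = 2 k`, `c = k ^ 2 + a` -/
theorem Base.main {a : ℤ} (β : Base a) (k : ℤ) : ∃ Z₀ : ℕ,
    ∀ h : ℕ → ℤ, (∀ m n : ℕ, m ≠ 0 → n ≠ 0 → h (m * n) = h m * h n) →
      (∀ m : ℕ, m ≠ 0 → h m = 1 ∨ h m = -1) → ∀ X : ℕ, Z₀ ≤ X →
      (X : ℝ) ^ ((1 : ℝ) / 4) / Real.log X ^ 186 ≤
        (({t : ℕ | 1 ≤ t ∧ t ≤ X ∧ 0 < (t : ℤ) ^ 2 + 2 * k * t + (k ^ 2 + a) ∧
          (∀ p : ℕ, p.Prime → (p : ℤ) ∣ (t : ℤ) ^ 2 + 2 * k * t + (k ^ 2 + a) →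
            (X : ℝ) ^ ((1 : ℝ) / 14000) < p) ∧
          h ((t : ℤ) ^ 2 + 2 * k * t + (k ^ 2 + a)).toNat = 1} : Set ℕ).ncard : ℝ) := by
  obtain ⟨Z₀, hZ⟩ := mainS (β.fam k)
  refine ⟨Z₀, fun h hmul hval X hX => (hZ h hmul hval X hX).trans ?_⟩
  have hsub : {t : ℕ | 1 ≤ t ∧ t ≤ X ∧
        ((t : ℤ) ^ 2 + 2 * k * (t : ℤ) + (k ^ 2 + a)).toNat ≠ 0 ∧
        (∀ p : ℕ, p.Prime → p ∣ ((t : ℤ) ^ 2 + 2 * k * (t : ℤ) + (k ^ 2 + a)).toNat →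
          (X : ℝ) ^ ((1 : ℝ) / 14000) < p) ∧
        h (((t : ℤ) ^ 2 + 2 * k * (t : ℤ) + (k ^ 2 + a)).toNat) = 1} ⊆
      {t : ℕ | 1 ≤ t ∧ t ≤ X ∧ 0 < (t : ℤ) ^ 2 + 2 * k * t + (k ^ 2 + a) ∧
          (∀ p : ℕ, p.Prime → (p : ℤ) ∣ (t : ℤ) ^ 2 + 2 * k * t + (k ^ 2 + a) →
            (X : ℝ) ^ ((1 : ℝ) / 14000) < p) ∧
          h ((t : ℤ) ^ 2 + 2 * k * t + (k ^ 2 + a)).toNat = 1} := by
    rintro t ⟨h1, h2, h3, h4, h5⟩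
    have hpos : 0 < (t : ℤ) ^ 2 + 2 * k * t + (k ^ 2 + a) := by
      by_contra hcon
      exact h3 (Int.toNat_of_nonpos (by omega))
    refine ⟨h1, h2, hpos, fun p hp hd => h4 p hp ?_, h5⟩
    rw [← Int.toNat_of_nonneg hpos.le] at hd
    exact_mod_cast hd
  exact_mod_cast Set.ncard_le_ncard hsub ((Set.finite_Iic X).subset fun n hn => hn.2.1)

end Pool.Agent.H496R3.Three
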