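import Pool.Agent.H496R3.EightAlg
import Pool.Agent.H496R3.ThreeBase

set_option autoImplicit false

namespace Pool.Agent.H496R3.Eight

open Finset Polynomial Pool.Agent.H496R3.Three

set_option maxRecDepth 100000 in
lemma small2 : ∀ m < 2, ¬ 2 ∣ FF m 0 := by decide +kernel

set_option maxRecDepth 100000 in
lemma small3 : ∀ m < 3, m ≠ 1 → ∃ v < 3, ¬ 3 ∣ FF m v := by decide +kernel

set_option maxRecDepth 100000 in
lemma small5 : ∀ m < 5, m ≠ 3 → ∃ v < 5, ¬ 5 ∣ FF m v := by decide +kernel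

set_option maxRecDepth 100000 in
lemma small7 : ∀ m < 7, ∃ v < 7, ¬ 7 ∣ FF m v := by decide +kernel

lemma small_all {m : ℕ} (h3 : m % 3 ≠ 1) (h5 : m % 5 ≠ 3) :
    ∃ v : ℕ, ∀ w : ℕ, w ≡ v [MOD 210] →
      ∀ p : ℕ, p.Prime → p < 11 → ¬ p ∣ FF m w := by
  obtain ⟨c3, -, a3⟩ := small3 (m % 3) (Nat.mod_lt _ (by norm_num)) h3
  obtain ⟨c5, -, a5⟩ := small5 (m % 5) (Nat.mod_lt _ (by norm_num)) h5
  obtain ⟨c7, -, a7⟩ := small7 (m % 7) (Nat.mod_lt _ (by norm_num))
  have a2 := small2 (m % 2) (Nat.mod_lt _ (by norm_num))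
  obtain ⟨v1, e1, f1⟩ := Nat.chineseRemainder (show Nat.Coprime 2 3 by norm_num) 0 c3
  obtain ⟨v2, e2, f2⟩ := Nat.chineseRemainder (show Nat.Coprime 6 5 by norm_num) v1 c5
  obtain ⟨v3, e3, f3⟩ := Nat.chineseRemainder (show Nat.Coprime 30 7 by norm_num) v2 c7
  refine ⟨v3, fun w hw p hp hp11 hd => ?_⟩
  have g : ∀ q : ℕ, q ∣ 210 → w ≡ v3 [MOD q] := fun q hq => hw.of_dvd hq
  have g7 : w ≡ c7 [MOD 7] := (g 7 (by norm_num)).trans f3
  have g5 : w ≡ c5 [MOD 5] := ((g 5 (by norm_num)).trans (e3.of_dvd (by norm_num))).trans f2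
  have g3 : w ≡ c3 [MOD 3] := (((g 3 (by norm_num)).trans (e3.of_dvd (by norm_num))).trans
    (e2.of_dvd (by norm_num))).trans f1
  have g2 : w ≡ 0 [MOD 2] := (((g 2 (by norm_num)).trans (e3.of_dvd (by norm_num))).trans
    (e2.of_dvd (by norm_num))).trans e1
  have hj : ∀ q : ℕ, m ≡ m % q [MOD q] := fun q => (Nat.mod_modEq _ _).symm
  have hc : p = 2 ∨ p = 3 ∨ p = 5 ∨ p = 7 := by
    interval_cases p <;> first | omega | (exfalso; revert hp; norm_num)
  rcases hc with rfl | rfl | rfl | rfl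
  · exact a2 (FF_dvd (hj 2) g2 hd)
  · exact a3 (FF_dvd (hj 3) g3 hd)
  · exact a5 (FF_dvd (hj 5) g5 hd)
  · exact a7 (FF_dvd (hj 7) g7 hd)

section
variable {p : ℕ} [hp : Fact p.Prime]

lemma num_ne {p : ℕ} (h11 : 11 ≤ p) [Fact p.Prime] (m : ℕ) (h0 : 0 < m) (hm : m < 11) :
    (m : ZMod p) ≠ 0 := by
  intro h
  rw [ZMod.natCast_eq_zero_iff] at h
  have := Nat.le_of_dvd h0 h
  omega

lemma deg_FF (a : ZMod p) : (FF (C a) (X : (ZMod p)[X])).natDegree ≤ 8 := by
  have h0 : (A0 (C a) (X : (ZMod p)[X])).natDegree ≤ 2 := by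
    unfold A0 W
    compute_degree
  have h1 : (A1 (C a) (X : (ZMod p)[X])).natDegree ≤ 4 := by
    unfold A1 X1 W
    compute_degree
  have h2 : (NN (C a) (X : (ZMod p)[X])).natDegree ≤ 2 := by
    unfold NN W
    compute_degree
  unfold FF
  exact (natDegree_mul_le_of_le (natDegree_mul_le_of_le h0 h1) h2).trans (by norm_num)

/-- values at `-1`: `W = 1`, `X1 = -1` -/
lemma ne_FF (h11 : 11 ≤ p) (a : ZMod p) : FF (C a) (X : (ZMod p)[X]) ≠ 0 := by
  have n2 : (2 : ZMod p) ≠ 0 := by exact_mod_cast num_ne h11 2 (by norm_num) (by norm_num)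
  have n3 : (3 : ZMod p) ≠ 0 := by exact_mod_cast num_ne h11 3 (by norm_num) (by norm_num)
  have n8 : (8 : ZMod p) ≠ 0 := by exact_mod_cast num_ne h11 8 (by norm_num) (by norm_num)
  have h1 : A1 (C a) (X : (ZMod p)[X]) ≠ 0 := by
    intro h
    have e1 := congrArg (eval (-1)) h
    simp only [A1, X1, W, eval_add, eval_mul, eval_pow, eval_C, eval_X, eval_one, eval_ofNat,
      eval_zero] at e1
    apply one_ne_zero (α := ZMod p)
    linear_combination e1
  have h0 : A0 (C a) (X : (ZMod p)[X]) ≠ 0 := by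
    intro h
    have e1 := congrArg (eval (-1)) h
    have e2 := congrArg (eval 0) h
    simp only [A0, W, eval_add, eval_mul, eval_pow, eval_C, eval_X, eval_one, eval_ofNat,
      eval_zero] at e1 e2
    have e4 : (2 : ZMod p) * (2 * a) * (2 * a + 1) * 2 = 0 := by
      linear_combination e2 - e1
    have e5 : (8 : ZMod p) * a = -1 := by linear_combination e1
    have e6 : a ≠ 0 := by
      rintro rfl
      apply one_ne_zero (α := ZMod p)
      linear_combination e5
    have e7 : (2 : ZMod p) * a + 1 = 0 := by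
      rcases mul_eq_zero.1 e4 with e | e
      · rcases mul_eq_zero.1 e with e | e
        · exfalso
          rcases mul_eq_zero.1 e with e | e
          · exact n2 e
          · rcases mul_eq_zero.1 e with e | e
            · exact n2 e
            · exact e6 e
        · exact e
      · exact absurd e n2
    apply n3
    linear_combination 4 * e7 - e5
  have h2 : NN (C a) (X : (ZMod p)[X]) ≠ 0 := by
    intro h
    have e1 := congrArg (eval (-1)) h
    have e2 := congrArg (eval (-2)) h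
    have e3 := congrArg (eval 0) h
    simp only [NN, W, eval_add, eval_mul, eval_pow, eval_C, eval_X, eval_one, eval_ofNat,
      eval_zero] at e1 e2 e3
    have e4 : (8 : ZMod p) * (2 * a) = 0 := by
      linear_combination e3 - e2
    have e5 : (2 : ZMod p) * a = -1 := by linear_combination e1
    rcases mul_eq_zero.1 e4 with e | e
    · exact n8 e
    · apply one_ne_zero (α := ZMod p)
      linear_combination e5 - e
  unfold FF
  exact mul_ne_zero (mul_ne_zero h0 h1) h2

end

lemma polyMod (m : ℕ) : PolyMod (fun u => A0 m u * A1 m u * NN m u) := by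
  intro p hp h11
  have : Fact p.Prime := ⟨hp⟩
  refine ⟨FF (C (m : ZMod p)) X, ne_FF h11 _, deg_FF _, fun u => ?_⟩
  have h3 := FF_map (evalRingHom ((u : ZMod p))) (C (m : ZMod p)) X
  rw [coe_evalRingHom, eval_C, eval_X] at h3
  rw [h3]
  exact (FF_cast m u).symm

/-- the base family for `a = 8 m` -/
noncomputable def base8 (m : ℕ) (hm : 0 < m) (h3 : m % 3 ≠ 1) (h5 : m % 5 ≠ 3) :
    Base (8 * (m : ℤ)) where
  A := A0 m
  B := A1 m
  N := NN m
  Y0 := W m
  Y1 := B1 m
  Y2 := B2 m
  v := (small_all h3 h5).choose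
  L := 1000 * m ^ 3
  hL := by
    have : 0 < 1000 * m ^ 3 := by positivity
    omega
  hP := polyMod m
  hsm := fun w hw p hp h11 => (small_all h3 h5).choose_spec w hw p hp h11
  m0 := fun _ _ h => (mono_all hm h).1
  m1 := fun _ _ h => (mono_all hm h).2.1
  m2 := fun _ _ h => (mono_all hm h).2.2
  b0 := fun u => (size_all hm).1
  b1 := fun u => (size_all hm).2.1
  b2 := fun u => (size_all hm).2.2
  i0 := fun u => by
    have := id0 m u
    rw [← this]
    push_cast
    ring
  i1 := fun u => by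
    have := id1 m u
    rw [← this]
    push_cast
    ring
  i2 := fun u => by
    have := id2 m u
    rw [← this]
    push_cast
    ring
  pos := fun u => by
    have hW : 0 < W m u := by unfold W; omega
    have hX : 0 < X1 m u := by unfold X1; omega
    refine ⟨?_, ?_, ?_⟩
    · unfold A0; positivity
    · unfold A1; positivity
    · unfold NN; positivity

end Pool.Agent.H496R3.Eight
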