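import Pool.Agent.H496R3.PC

/-!
# Parametrised `C^k` families: relation with iterated derivatives, inverse families
-/

namespace Pool.Agent.H496R3

open Set Filter Topology

section

variable {S X Y Z : Type} [TopologicalSpace S]
  [NormedAddCommGroup X] [NormedSpace ℝ X]
  [NormedAddCommGroup Y] [NormedSpace ℝ Y]
  [NormedAddCommGroup Z] [NormedSpace ℝ Z]

lemma continuous_iter_zero_iff {F : S → X → Y} :
    Continuous (fun p : S × X => iteratedFDeriv ℝ 0 (F p.1) p.2) ↔
      Continuous (fun p : S × X => F p.1 p.2) := by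
  have h : (fun p : S × X => iteratedFDeriv ℝ 0 (F p.1) p.2) =
      (continuousMultilinearCurryFin0 ℝ X Y).symm ∘ (fun p : S × X => F p.1 p.2) := by
    ext p
    rfl
  rw [h]
  exact (continuousMultilinearCurryFin0 ℝ X Y).symm.toHomeomorph.comp_continuous_iff

lemma continuous_iter_succ_iff {j : ℕ} {F : S → X → Y} :
    Continuous (fun p : S × X => iteratedFDeriv ℝ (j + 1) (F p.1) p.2) ↔
      Continuous (fun p : S × X => iteratedFDeriv ℝ j (fderiv ℝ (F p.1)) p.2) := by
  have h : (fun p : S × X => iteratedFDeriv ℝ (j + 1) (F p.1) p.2) =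
      (continuousMultilinearCurryRightEquiv' ℝ j X Y).symm ∘
        (fun p : S × X => iteratedFDeriv ℝ j (fderiv ℝ (F p.1)) p.2) := by
    ext p
    rw [iteratedFDeriv_succ_eq_comp_right]
    rfl
  rw [h]
  exact (continuousMultilinearCurryRightEquiv' ℝ j X Y).symm.toHomeomorph.comp_continuous_iff

lemma pc_univ_iff {k : ℕ} {F : S → X → Y} :
    PC k F univ ↔ (∀ s, ContDiff ℝ k (F s)) ∧
      ∀ j ≤ k, Continuous (fun p : S × X => iteratedFDeriv ℝ j (F p.1) p.2) := by
  induction k generalizing Y with
  | zero =>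
    constructor
    · intro h
      have hc : Continuous (fun p : S × X => F p.1 p.2) := continuousOn_univ.1 h
      refine ⟨fun s => ?_, fun j hj => ?_⟩
      · have : Continuous (F s) := hc.comp (Continuous.prodMk_right s)
        exact_mod_cast contDiff_zero.2 this
      · obtain rfl : j = 0 := by omega
        exact continuous_iter_zero_iff.2 hc
    · rintro ⟨_, h⟩
      exact continuousOn_univ.2 (continuous_iter_zero_iff.1 (h 0 le_rfl))
  | succ k ih =>
    constructor
    · rintro ⟨hc, F', hF', hk⟩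
      have hc : Continuous (fun p : S × X => F p.1 p.2) := continuousOn_univ.1 hc
      have hF'' : F' = fun s => fderiv ℝ (F s) := by
        funext s x
        exact ((hF' (s, x) (mem_univ _)).fderiv).symm
      rw [hF''] at hk
      obtain ⟨h1, h2⟩ := (ih (F := fun s => fderiv ℝ (F s))).1 hk
      refine ⟨fun s => ?_, fun j hj => ?_⟩
      · have : ContDiff ℝ ((k : WithTop ℕ∞) + 1) (F s) := by
          rw [contDiff_succ_iff_fderiv]
          refine ⟨fun x => (hF' (s, x) (mem_univ _)).differentiableAt, by simp, h1 s⟩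
        exact_mod_cast this
      · rcases j with _ | j
        · exact continuous_iter_zero_iff.2 hc
        · exact continuous_iter_succ_iff.2 (h2 j (by omega))
    · rintro ⟨h1, h2⟩
      refine ⟨continuousOn_univ.2 (continuous_iter_zero_iff.1 (h2 0 (by omega))),
        fun s => fderiv ℝ (F s), ?_, ?_⟩
      · intro p _
        exact (((h1 p.1).differentiable (by simp)) p.2).hasFDerivAt
      · refine (ih (F := fun s => fderiv ℝ (F s))).2 ⟨fun s => ?_, fun j hj => ?_⟩
        · have h3 : ContDiff ℝ ((k : WithTop ℕ∞) + 1) (F s) := by exact_mod_cast h1 s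
          exact (contDiff_succ_iff_fderiv.1 h3).2.2
        · exact continuous_iter_succ_iff.1 (h2 (j + 1) (by omega))

lemma PC.hasFDerivAt {F : S → X → Y} {U : Set (S × X)} {k : ℕ} (h : PC (k + 1) F U) (p : S × X)
    (hp : p ∈ U) : HasFDerivAt (F p.1) (fderiv ℝ (F p.1) p.2) p.2 := by
  obtain ⟨_, F', hF', _⟩ := h
  exact (hF' p hp).differentiableAt.hasFDerivAt

lemma PC.fderiv {F : S → X → Y} {U : Set (S × X)} (hU : IsOpen U) {k : ℕ} (h : PC (k + 1) F U) :
    PC k (fun s => fderiv ℝ (F s)) U := by
  obtain ⟨_, F', hF', hk⟩ := h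
  exact hk.congr hU (fun p hp => ((hF' p hp).fderiv).symm)

/-- the derivative of a smooth family is jointly continuous -/
lemma PC.continuous_fderiv {F : S → X → Y} (h : PC 1 F univ) :
    Continuous (fun p : S × X => _root_.fderiv ℝ (F p.1) p.2) :=
  continuousOn_univ.1 (h.fderiv isOpen_univ)

end

section Inverse

variable {S X : Type} [TopologicalSpace S]
  [NormedAddCommGroup X] [NormedSpace ℝ X] [FiniteDimensional ℝ X]

/-- joint continuity of the family of inverses, when all maps are the identity off one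
compact set -/
lemma continuous_inv_family {F J : S → X → X} {K : Set X} (hK : IsCompact K)
    (hF : Continuous (fun p : S × X => F p.1 p.2))
    (hJ1 : ∀ s z, J s (F s z) = z) (hJ2 : ∀ s z, F s (J s z) = z)
    (hFK : ∀ s, ∀ z ∉ K, F s z = z) :
    Continuous (fun p : S × X => J p.1 p.2) := by
  have : ProperSpace X := FiniteDimensional.proper ℝ X
  rw [continuous_iff_continuousAt]
  rintro ⟨s0, w0⟩
  have hC : IsCompact (K ∪ Metric.closedBall w0 1) := hK.union (isCompact_closedBall _ _)
  refine hC.tendsto_nhds_of_unique_mapClusterPt ?_ ?_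
  · have : ∀ᶠ p : S × X in 𝓝 (s0, w0), p.2 ∈ Metric.closedBall w0 1 := by
      have h1 : Tendsto (fun p : S × X => p.2) (𝓝 (s0, w0)) (𝓝 w0) := continuous_snd.continuousAt
      exact h1.eventually (Metric.closedBall_mem_nhds w0 one_pos)
    filter_upwards [this] with p hp
    by_cases hJ : J p.1 p.2 ∈ K
    · exact Or.inl hJ
    · right
      have := hFK p.1 _ hJ
      rw [hJ2] at this
      rw [← this]
      exact hp
  · intro x _ hx
    obtain ⟨U, hU, hUx⟩ := mapClusterPt_iff_ultrafilter.1 hx
    have h1 : Tendsto (fun p : S × X => p.1) U (𝓝 s0) :=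
      (continuous_fst.tendsto (s0, w0)).mono_left hU
    have h2 : Tendsto (fun p : S × X => p.2) U (𝓝 w0) :=
      (continuous_snd.tendsto (s0, w0)).mono_left hU
    have h3 : Tendsto (fun p : S × X => ((p.1, J p.1 p.2) : S × X)) U (𝓝 (s0, x)) :=
      h1.prodMk_nhds hUx
    have h4 : Tendsto (fun p : S × X => F p.1 (J p.1 p.2)) U (𝓝 (F s0 x)) :=
      (hF.tendsto (s0, x)).comp h3
    have h5 : (fun p : S × X => F p.1 (J p.1 p.2)) = fun p : S × X => p.2 := by
      funext p
      exact hJ2 _ _
    rw [h5] at h4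
    have h6 : F s0 x = w0 := tendsto_nhds_unique h4 h2
    change x = J s0 w0
    rw [← h6, hJ1]

omit [FiniteDimensional ℝ X] in
lemma pc_ringInverse {k : ℕ} [CompleteSpace X] :
    PC k (fun _ : S => (Ring.inverse : (X →L[ℝ] X) → (X →L[ℝ] X))) {p | IsUnit p.2} := by
  refine PC.of_contDiffOn (V := {A : X →L[ℝ] X | IsUnit A}) Units.isOpen ?_
  rintro A ⟨u, rfl⟩
  exact (contDiffAt_ringInverse ℝ u).contDiffWithinAt

lemma pc_inv_family {F J : S → X → X} {K : Set X} (hK : IsCompact K)
    (hF : ∀ k, PC k F univ)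
    (hJ1 : ∀ s z, J s (F s z) = z) (hJ2 : ∀ s z, F s (J s z) = z)
    (hFK : ∀ s, ∀ z ∉ K, F s z = z) (hU : ∀ s z, IsUnit (_root_.fderiv ℝ (F s) z)) (k : ℕ) :
    PC k J univ := by
  have : CompleteSpace X := FiniteDimensional.complete ℝ X
  have hJc : Continuous (fun p : S × X => J p.1 p.2) :=
    continuous_inv_family hK (continuousOn_univ.1 (hF 0)) hJ1 hJ2 hFK
  induction k with
  | zero => exact continuousOn_univ.2 hJc
  | succ k ih =>
    refine ⟨continuousOn_univ.2 hJc,
      fun s w => Ring.inverse (_root_.fderiv ℝ (F s) (J s w)), ?_, ?_⟩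
    · rintro ⟨s, w⟩ _
      obtain ⟨u, hu⟩ := hU s (J s w)
      have h1 : HasFDerivAt (F s) (ContinuousLinearEquiv.ofUnit u : X →L[ℝ] X) (J s w) := by
        have h2 := PC.hasFDerivAt (hF 1) (s, J s w) (mem_univ _)
        have h3 : ((ContinuousLinearEquiv.ofUnit u : X ≃L[ℝ] X) : X →L[ℝ] X) =
            _root_.fderiv ℝ (F s) (J s w) := by
          rw [← hu]
          rfl
        rw [h3]
        exact h2
      have h4 := HasFDerivAt.of_local_left_inverse (g := J s) (a := w)
        ((hJc.comp (Continuous.prodMk_right s)).continuousAt) h1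
        (Eventually.of_forall (fun y => hJ2 s y))
      have h5 : (((ContinuousLinearEquiv.ofUnit u : X ≃L[ℝ] X).symm : X ≃L[ℝ] X) : X →L[ℝ] X) =
          Ring.inverse (_root_.fderiv ℝ (F s) (J s w)) := by
        rw [← hu, Ring.inverse_unit]
        rfl
      rw [h5] at h4
      exact h4
    · have h1 : PC k (fun s => _root_.fderiv ℝ (F s)) univ := (hF (k + 1)).fderiv isOpen_univ
      have h2 : PC k (fun s w => _root_.fderiv ℝ (F s) (J s w)) univ :=
        h1.comp ih (fun _ _ => mem_univ _)
      exact (pc_ringInverse (S := S)).comp h2 (fun p _ => hU _ _)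

end Inverse

end Pool.Agent.H496R3
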