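import Pool.Agent.H496R3.Fam

/-!
# Local diffeomorphisms which are the identity off a compact set are bijective
-/

namespace Pool.Agent.H496R3

open Set Filter Topology

variable {X : Type} [NormedAddCommGroup X] [NormedSpace ℝ X] [FiniteDimensional ℝ X]

/-- A `C^1` self map of a finite dimensional space which is the identity off a compact set and
whose derivative is everywhere invertible is bijective. -/
lemma bijective_of_isUnit_fderiv {f : X → X} {K : Set X} (hK : IsCompact K)
    (hf : ContDiff ℝ 1 f) (hfK : ∀ z ∉ K, f z = z) (hU : ∀ z, IsUnit (_root_.fderiv ℝ f z)) :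
    Function.Bijective f := by
  classical
  have : CompleteSpace X := FiniteDimensional.complete ℝ X
  have hcont : Continuous f := hf.continuous
  rcases subsingleton_or_nontrivial X with hX | hX
  · exact ⟨fun a b _ => Subsingleton.elim _ _, fun y => ⟨y, Subsingleton.elim _ _⟩⟩
  have hproper : ProperSpace X := FiniteDimensional.proper ℝ X
  have hnc : NoncompactSpace X := NormedSpace.noncompactSpace ℝ X
  -- local structure
  have hloc : ∀ a, ∃ f' : X ≃L[ℝ] X, HasStrictFDerivAt f (f' : X →L[ℝ] X) a := by
    intro a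
    obtain ⟨u, hu⟩ := hU a
    refine ⟨ContinuousLinearEquiv.ofUnit u, ?_⟩
    have h2 : HasStrictFDerivAt f (_root_.fderiv ℝ f a) a :=
      (hf.contDiffAt).hasStrictFDerivAt (by simp)
    have h3 : ((ContinuousLinearEquiv.ofUnit u : X ≃L[ℝ] X) : X →L[ℝ] X) =
        _root_.fderiv ℝ f a := by
      rw [← hu]
      rfl
    rw [h3]
    exact h2
  have hopen : ∀ a, map f (𝓝 a) = 𝓝 (f a) := by
    intro a
    obtain ⟨f', hf'⟩ := hloc a
    exact hf'.map_nhds_eq_of_equiv
  have hinj : ∀ a, ∃ U ∈ 𝓝 a, InjOn f U := by
    intro a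
    obtain ⟨f', hf'⟩ := hloc a
    refine ⟨(hf'.toOpenPartialHomeomorph f).source,
      (hf'.toOpenPartialHomeomorph f).open_source.mem_nhds hf'.mem_toOpenPartialHomeomorph_source,
      ?_⟩
    have := (hf'.toOpenPartialHomeomorph f).injOn
    simpa using this
  constructor
  · -- injectivity
    set D : Set (X × X) := {p | f p.1 = f p.2 ∧ p.1 ≠ p.2} with hD
    have hDclosed : IsClosed D := by
      rw [← isOpen_compl_iff, isOpen_iff_mem_nhds]
      rintro ⟨a, b⟩ hab
      by_cases hfab : f a = f b
      · have hab' : a = b := by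
          by_contra hne
          exact hab ⟨hfab, hne⟩
        subst hab'
        obtain ⟨U, hU1, hU2⟩ := hinj a
        filter_upwards [prod_mem_nhds hU1 hU1] with p hp hpD
        exact hpD.2 (hU2 hp.1 hp.2 hpD.1)
      · have : IsOpen {p : X × X | f p.1 ≠ f p.2} :=
          isOpen_ne_fun (hcont.comp continuous_fst) (hcont.comp continuous_snd)
        filter_upwards [this.mem_nhds hfab] with p hp hpD
        exact hp hpD.1
    have hDsub : D ⊆ (K ∪ f '' K) ×ˢ (K ∪ f '' K) := by
      rintro ⟨a, b⟩ ⟨h1, h2⟩
      simp only at h1 h2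
      by_cases ha : a ∈ K <;> by_cases hb : b ∈ K
      · exact ⟨Or.inl ha, Or.inl hb⟩
      · refine ⟨Or.inl ha, Or.inr ⟨a, ha, ?_⟩⟩
        rw [h1, hfK b hb]
      · refine ⟨Or.inr ⟨b, hb, ?_⟩, Or.inl hb⟩
        rw [← h1, hfK a ha]
      · exact absurd (by rw [← hfK a ha, h1, hfK b hb]) h2
    have hDcomp : IsCompact D := by
      have h1 : IsCompact (K ∪ f '' K) := hK.union (hK.image hcont)
      exact (h1.prod h1).of_isClosed_subset hDclosed hDsub
    set T : Set X := (fun p : X × X => f p.1) '' D with hT
    have hTcomp : IsCompact T := hDcomp.image (hcont.comp continuous_fst)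
    have hTclosed : IsClosed T := hTcomp.isClosed
    have hTopen : IsOpen T := by
      rw [isOpen_iff_mem_nhds]
      rintro y ⟨⟨a, b⟩, ⟨h1, h2⟩, rfl⟩
      simp only at h1 h2 ⊢
      obtain ⟨U, V, hUo, hVo, haU, hbV, hUV⟩ := t2_separation h2
      have h3 : f '' U ∈ 𝓝 (f a) := by
        rw [← hopen a]
        exact image_mem_map (hUo.mem_nhds haU)
      have h4 : f '' V ∈ 𝓝 (f a) := by
        rw [h1, ← hopen b]
        exact image_mem_map (hVo.mem_nhds hbV)
      filter_upwards [h3, h4] with y hy1 hy2
      obtain ⟨a', ha', rfl⟩ := hy1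
      obtain ⟨b', hb', hb2⟩ := hy2
      refine ⟨(a', b'), ⟨hb2.symm, ?_⟩, rfl⟩
      rintro h5
      simp only at h5
      subst h5
      exact (Set.disjoint_left.1 hUV ha') hb'
    have hTe : T = ∅ := by
      rcases isClopen_iff.1 ⟨hTclosed, hTopen⟩ with h | h
      · exact h
      · rw [h] at hTcomp
        exact absurd hTcomp (noncompact_univ X)
    intro a b hab
    by_contra hne
    have : f a ∈ T := ⟨(a, b), ⟨hab, hne⟩, rfl⟩
    rw [hTe] at this
    exact this
  · -- surjectivity
    have hRopen : IsOpen (range f) := by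
      rw [isOpen_iff_mem_nhds]
      rintro y ⟨a, rfl⟩
      rw [← hopen a]
      exact mem_of_superset (image_mem_map univ_mem) (image_subset_range _ _)
    have hRclosed : IsClosed (range f) := by
      have h1 : range f = f '' K ∪ closure Kᶜ := by
        apply Subset.antisymm
        · rintro y ⟨a, rfl⟩
          by_cases ha : a ∈ K
          · exact Or.inl ⟨a, ha, rfl⟩
          · right
            rw [hfK a ha]
            exact subset_closure ha
        · rintro y (⟨a, _, rfl⟩ | hy)
          · exact ⟨a, rfl⟩
          · refine ⟨y, ?_⟩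
            have h2 : closure Kᶜ ⊆ {z | f z = z} :=
              closure_minimal (fun z hz => hfK z hz) (isClosed_eq hcont continuous_id)
            exact h2 hy
      rw [h1]
      exact (hK.image hcont).isClosed.union isClosed_closure
    rcases isClopen_iff.1 ⟨hRclosed, hRopen⟩ with h | h
    · exact absurd h (range_nonempty f).ne_empty
    · exact range_eq_univ.1 h

end Pool.Agent.H496R3
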