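import Pool.Agent.H496R3.Glob

/-!
# Linear maps without real eigenvalues `≤ 0`, and combinations `c • id + d • f`
-/

namespace Pool.Agent.H496R3

open Set Filter Topology
open scoped ContDiff

section

variable {X : Type} [NormedAddCommGroup X] [NormedSpace ℝ X] [FiniteDimensional ℝ X]

/-- `A` has no real eigenvalue `≤ 0`. -/
def NoNeg (A : X →L[ℝ] X) : Prop := ∀ s : ℝ, 0 ≤ s → IsUnit (A + s • (1 : X →L[ℝ] X))

omit [FiniteDimensional ℝ X] in
lemma isUnit_smul_one {c : ℝ} (hc : c ≠ 0) : IsUnit (c • (1 : X →L[ℝ] X)) := by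
  have h : c • (1 : X →L[ℝ] X) = algebraMap ℝ (X →L[ℝ] X) c := by
    rw [Algebra.algebraMap_eq_smul_one]
  rw [h]
  exact (IsUnit.mk0 c hc).map _

omit [FiniteDimensional ℝ X] in
lemma noNeg_one : NoNeg (1 : X →L[ℝ] X) := by
  intro s hs
  have h : (1 : X →L[ℝ] X) + s • (1 : X →L[ℝ] X) = (1 + s) • (1 : X →L[ℝ] X) := by
    rw [add_smul, one_smul]
  rw [h]
  exact isUnit_smul_one (by positivity)

omit [FiniteDimensional ℝ X] in
lemma isUnit_smul {c : ℝ} (hc : c ≠ 0) {A : X →L[ℝ] X} (hA : IsUnit A) : IsUnit (c • A) := by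
  have h : c • A = (c • (1 : X →L[ℝ] X)) * A := by
    rw [smul_mul_assoc, one_mul]
  rw [h]
  exact (isUnit_smul_one hc).mul hA

omit [FiniteDimensional ℝ X] in
lemma NoNeg.isUnit_comb {A : X →L[ℝ] X} (hA : NoNeg A) {c d : ℝ} (hc : 0 ≤ c) (hd : 0 ≤ d)
    (hcd : 0 < c + d) : IsUnit (c • (1 : X →L[ℝ] X) + d • A) := by
  rcases hd.eq_or_lt with h | h
  · subst h
    have hc' : c ≠ 0 := by linarith
    simpa using isUnit_smul_one (X := X) hc'
  · have h1 := isUnit_smul h.ne' (hA (c / d) (by positivity))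
    have h2 : d • (A + (c / d) • (1 : X →L[ℝ] X)) = c • (1 : X →L[ℝ] X) + d • A := by
      rw [smul_add, smul_smul, mul_div_cancel₀ _ h.ne', add_comm]
    rw [h2] at h1
    exact h1

lemma isOpen_noNeg : IsOpen {A : X →L[ℝ] X | NoNeg A} := by
  have : CompleteSpace X := FiniteDimensional.complete ℝ X
  rw [isOpen_iff_eventually]
  intro A0 hA0
  have hA0 : NoNeg A0 := hA0
  have h1 : ∀ᶠ A in 𝓝 A0, ∀ s ∈ Icc (0 : ℝ) (‖A0‖ + 2), IsUnit (A + s • (1 : X →L[ℝ] X)) := by
    refine IsCompact.eventually_forall_of_forall_eventually isCompact_Icc ?_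
    intro s hs
    have h2 : IsOpen {A : X →L[ℝ] X | IsUnit A} := Units.isOpen
    have h3 : Continuous (fun p : (X →L[ℝ] X) × ℝ => p.1 + p.2 • (1 : X →L[ℝ] X)) := by fun_prop
    have h4 := (h2.preimage h3).mem_nhds (x := (A0, s)) (hA0 s hs.1)
    exact h4
  have h5 : ∀ᶠ A in 𝓝 A0, ‖A‖ < ‖A0‖ + 1 :=
    (continuous_norm.tendsto A0).eventually (gt_mem_nhds (by linarith))
  filter_upwards [h1, h5] with A hA hA'
  intro s hs
  rcases le_or_gt s (‖A0‖ + 2) with h | h
  · exact hA s ⟨hs, h⟩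
  · by_contra hnu
    have h6 : (-s) ∈ spectrum ℝ A := by
      rw [spectrum.mem_iff]
      intro h7
      apply hnu
      have h8 : A + s • (1 : X →L[ℝ] X) = -(algebraMap ℝ (X →L[ℝ] X) (-s) - A) := by
        rw [Algebra.algebraMap_eq_smul_one]
        simp
      rw [h8]
      exact h7.neg
    have h7 := spectrum.norm_le_norm_mul_of_mem h6
    have h8 : ‖(1 : X →L[ℝ] X)‖ ≤ 1 := ContinuousLinearMap.norm_id_le
    rw [norm_neg, Real.norm_of_nonneg hs] at h7
    have h9 : ‖A‖ * ‖(1 : X →L[ℝ] X)‖ ≤ ‖A‖ * 1 :=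
      mul_le_mul_of_nonneg_left h8 (norm_nonneg _)
    linarith

/-- the map `z ↦ c z + d f z` -/
def comb (c d : ℝ) (f : X → X) (z : X) : X := c • z + d • f z

omit [FiniteDimensional ℝ X] in
lemma contDiff_comb {m : WithTop ℕ∞} {c d : ℝ} {f : X → X} (hf : ContDiff ℝ m f) :
    ContDiff ℝ m (comb c d f) :=
  (contDiff_id.const_smul c).add (hf.const_smul d)

omit [FiniteDimensional ℝ X] in
lemma hasFDerivAt_comb {c d : ℝ} {f : X → X} {z : X} {A : X →L[ℝ] X} (hf : HasFDerivAt f A z) :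
    HasFDerivAt (comb c d f) (c • (1 : X →L[ℝ] X) + d • A) z :=
  ((hasFDerivAt_id z).const_smul c).add (hf.const_smul d)

omit [FiniteDimensional ℝ X] in
lemma comb_off {c d : ℝ} (hcd : c + d = 1) {f : X → X} {z : X} (hz : f z = z) :
    comb c d f z = z := by
  rw [comb, hz, ← add_smul, hcd, one_smul]

omit [FiniteDimensional ℝ X] in
lemma pc_comb {S : Type} [TopologicalSpace S] {c d : S → ℝ} (hc : Continuous c)
    (hd : Continuous d) {F : S → X → X} {U : Set (S × X)} {k : ℕ} (hF : PC k F U) :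
    PC k (fun s z => comb (c s) (d s) (F s) z) U :=
  (PC.smul hc (PC.of_contDiff contDiff_id U)).add (PC.smul hd hF)

/-- smoothness of the inverse -/
lemma contDiff_symm_of_isUnit {f : X ≃ X} {K : Set X} (hK : IsCompact K) (hf : ContDiff ℝ ∞ f)
    (hfK : ∀ z ∉ K, f z = z) (hU : ∀ z, IsUnit (_root_.fderiv ℝ f z)) : ContDiff ℝ ∞ f.symm := by
  rw [contDiff_infty]
  intro k
  have h1 : ∀ k : ℕ, PC k (fun _ : Unit => (f : X → X)) univ := fun k =>
    PC.of_contDiff (hf.of_le (by exact_mod_cast le_top)) univ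
  have h2 := pc_inv_family (S := Unit) (F := fun _ => f) (J := fun _ => f.symm) hK h1
    (fun _ z => f.symm_apply_apply z) (fun _ z => f.apply_symm_apply z) (fun _ => hfK)
    (fun _ => hU) k
  exact (pc_univ_iff.1 h2).1 ()

end

end Pool.Agent.H496R3
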