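import Mathlib

/-!
# Parametrised `C^k` families of maps between normed spaces

`PC k F U`: the family `F s : X → Y` (`s` in a topological space `S`) is `k` times continuously
differentiable in `x` at the points `(s, x)` of `U`, with all derivatives jointly continuous in
`(s, x)` on `U`.
-/

namespace Pool.Agent.H496R3

open Set Filter Topology

/-- Parametrised `C^k` families on a subset `U` of `S × X`. -/
def PC {S X : Type} [TopologicalSpace S] [NormedAddCommGroup X] [NormedSpace ℝ X] :
    ℕ → ∀ {Y : Type} [NormedAddCommGroup Y] [NormedSpace ℝ Y],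
      (S → X → Y) → Set (S × X) → Prop
  | 0, _, _, _, F, U => ContinuousOn (fun p : S × X => F p.1 p.2) U
  | k + 1, _, _, _, F, U => ContinuousOn (fun p : S × X => F p.1 p.2) U ∧
      ∃ F' : S → X → (X →L[ℝ] _), (∀ p ∈ U, HasFDerivAt (F p.1) (F' p.1 p.2) p.2) ∧ PC k F' U

section

variable {S X Y Z : Type} [TopologicalSpace S]
  [NormedAddCommGroup X] [NormedSpace ℝ X]
  [NormedAddCommGroup Y] [NormedSpace ℝ Y]
  [NormedAddCommGroup Z] [NormedSpace ℝ Z]

lemma PC.continuousOn {k : ℕ} {F : S → X → Y} {U : Set (S × X)} (h : PC k F U) :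
    ContinuousOn (fun p : S × X => F p.1 p.2) U := by
  cases k with
  | zero => exact h
  | succ k => exact h.1

lemma PC.mono {k : ℕ} {F : S → X → Y} {U V : Set (S × X)} (h : PC k F U) (hV : V ⊆ U) :
    PC k F V := by
  induction k generalizing Y with
  | zero => exact ContinuousOn.mono h hV
  | succ k ih =>
    obtain ⟨hc, F', hF', hk⟩ := h
    exact ⟨hc.mono hV, F', fun p hp => hF' p (hV hp), ih hk⟩

lemma PC.pred {k : ℕ} {F : S → X → Y} {U : Set (S × X)} (h : PC (k + 1) F U) : PC k F U := by
  induction k generalizing Y with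
  | zero => exact h.1
  | succ k ih =>
    obtain ⟨hc, F', hF', hk⟩ := h
    exact ⟨hc, F', hF', ih hk⟩

/-- reparametrisation of the parameter space -/
lemma PC.reparam {T : Type} [TopologicalSpace T] {k : ℕ} {F : S → X → Y} {U : Set (S × X)}
    (h : PC k F U) (r : T → S) (hr : Continuous r) :
    PC k (fun t x => F (r t) x) {p : T × X | (r p.1, p.2) ∈ U} := by
  have hcont : Continuous (fun p : T × X => ((r p.1, p.2) : S × X)) := by fun_prop
  induction k generalizing Y with
  | zero =>
    have := ContinuousOn.comp (t := U) (g := fun p : S × X => F p.1 p.2) h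
      hcont.continuousOn (s := {p : T × X | (r p.1, p.2) ∈ U}) (fun p hp => hp)
    exact this
  | succ k ih =>
    obtain ⟨hc, F', hF', hk⟩ := h
    refine ⟨?_, fun t x => F' (r t) x, fun p hp => hF' (r p.1, p.2) hp, ih hk⟩
    exact ContinuousOn.comp (t := U) (g := fun p : S × X => F p.1 p.2) hc
      hcont.continuousOn (s := {p : T × X | (r p.1, p.2) ∈ U}) (fun p hp => hp)

/-- parameter-free smooth maps -/
lemma PC.of_contDiffOn {k : ℕ} {Φ : X → Y} {V : Set X} (hV : IsOpen V)
    (h : ContDiffOn ℝ k Φ V) : PC k (fun _ : S => Φ) {p : S × X | p.2 ∈ V} := by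
  induction k generalizing Y with
  | zero =>
    have : ContinuousOn Φ V := h.continuousOn
    exact ContinuousOn.comp (t := V) this continuous_snd.continuousOn (fun p hp => hp)
  | succ k ih =>
    have hc : ContinuousOn Φ V := h.continuousOn
    refine ⟨ContinuousOn.comp (t := V) hc continuous_snd.continuousOn (fun p hp => hp),
      fun _ => fderiv ℝ Φ, ?_, ?_⟩
    · intro p hp
      have hd : DifferentiableOn ℝ Φ V := h.differentiableOn (by simp)
      exact ((hd p.2 hp).differentiableAt (hV.mem_nhds hp)).hasFDerivAt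
    · apply ih
      exact ((contDiffOn_succ_iff_fderiv_of_isOpen hV).1 (by exact_mod_cast h)).2.2

lemma PC.of_contDiff {k : ℕ} {Φ : X → Y} (h : ContDiff ℝ k Φ) (U : Set (S × X)) :
    PC k (fun _ : S => Φ) U := by
  have := PC.of_contDiffOn (S := S) isOpen_univ (h.contDiffOn (s := univ))
  exact this.mono (fun p _ => mem_univ _)

/-- post-composition with a continuous linear map -/
lemma PC.clm_comp {k : ℕ} {F : S → X → Y} {U : Set (S × X)} (h : PC k F U) (L : Y →L[ℝ] Z) :
    PC k (fun s x => L (F s x)) U := by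
  induction k generalizing Y Z with
  | zero => exact L.continuous.comp_continuousOn h
  | succ k ih =>
    obtain ⟨hc, F', hF', hk⟩ := h
    refine ⟨L.continuous.comp_continuousOn hc, fun s x => L.comp (F' s x), ?_, ?_⟩
    · intro p hp
      exact L.hasFDerivAt.comp p.2 (hF' p hp)
    · exact ih hk (ContinuousLinearMap.compL ℝ X Y Z L)

/-- pairs -/
lemma PC.prodMk {k : ℕ} {F : S → X → Y} {G : S → X → Z} {U : Set (S × X)} (hF : PC k F U)
    (hG : PC k G U) : PC k (fun s x => (F s x, G s x)) U := by
  induction k generalizing Y Z with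
  | zero => exact ContinuousOn.prodMk hF hG
  | succ k ih =>
    obtain ⟨hc, F', hF', hk⟩ := hF
    obtain ⟨hc2, G', hG', hk2⟩ := hG
    refine ⟨hc.prodMk hc2, fun s x => (F' s x).prod (G' s x), ?_, ?_⟩
    · intro p hp
      exact (hF' p hp).prodMk (hG' p hp)
    · have := (ih hk hk2).clm_comp
        (ContinuousLinearMap.prodₗᵢ ℝ (E := X) (F := Y) (G := Z) (𝕜 := ℝ)).toContinuousLinearEquiv.toContinuousLinearMap
      exact this

lemma PC.comp {k : ℕ} {F : S → Y → Z} {G : S → X → Y} {U : Set (S × X)} {V : Set (S × Y)}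
    (hF : PC k F V) (hG : PC k G U) (hm : ∀ p ∈ U, (p.1, G p.1 p.2) ∈ V) :
    PC k (fun s x => F s (G s x)) U := by
  induction k generalizing Y Z with
  | zero =>
    have h1 : ContinuousOn (fun p : S × X => ((p.1, G p.1 p.2) : S × Y)) U :=
      continuous_fst.continuousOn.prodMk hG
    exact ContinuousOn.comp (t := V) (g := fun p : S × Y => F p.1 p.2) hF h1 hm
  | succ k ih =>
    have hF0 := hF.continuousOn
    have hG0 := hG.continuousOn
    have hGk := hG.pred
    obtain ⟨hc, F', hF', hk⟩ := hF
    obtain ⟨hc2, G', hG', hk2⟩ := hG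
    have h1 : ContinuousOn (fun p : S × X => ((p.1, G p.1 p.2) : S × Y)) U :=
      continuous_fst.continuousOn.prodMk hG0
    refine ⟨ContinuousOn.comp (t := V) (g := fun p : S × Y => F p.1 p.2) hF0 h1 hm,
      fun s x => (F' s (G s x)).comp (G' s x), ?_, ?_⟩
    · intro p hp
      exact (hF' _ (hm p hp)).comp p.2 (hG' p hp)
    · have h2 : PC k (fun s x => F' s (G s x)) U := ih hk hGk hm
      have h3 := h2.prodMk hk2
      have h4 : ContDiff ℝ k (fun p : (Y →L[ℝ] Z) × (X →L[ℝ] Y) => p.1.comp p.2) :=
        isBoundedBilinearMap_comp.contDiff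
      exact ih (PC.of_contDiff (S := S) h4 univ) h3 (fun _ _ => mem_univ _)

lemma PC.congr {k : ℕ} {F G : S → X → Y} {U : Set (S × X)} (hU : IsOpen U) (h : PC k F U)
    (hFG : ∀ p ∈ U, F p.1 p.2 = G p.1 p.2) : PC k G U := by
  cases k with
  | zero => exact ContinuousOn.congr h (fun p hp => (hFG p hp).symm)
  | succ k =>
    obtain ⟨hc, F', hF', hk⟩ := h
    refine ⟨hc.congr (fun p hp => (hFG p hp).symm), F', ?_, hk⟩
    intro p hp
    refine (hF' p hp).congr_of_eventuallyEq ?_
    have : {x | (p.1, x) ∈ U} ∈ 𝓝 p.2 :=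
      (hU.preimage (Continuous.prodMk_right p.1)).mem_nhds hp
    filter_upwards [this] with x hx
    exact (hFG (p.1, x) hx).symm

lemma PC.add {k : ℕ} {F G : S → X → Y} {U : Set (S × X)} (hF : PC k F U) (hG : PC k G U) :
    PC k (fun s x => F s x + G s x) U := by
  have h := (hF.prodMk hG).clm_comp
    (ContinuousLinearMap.fst ℝ Y Y + ContinuousLinearMap.snd ℝ Y Y)
  simpa using h

lemma PC.neg {k : ℕ} {F : S → X → Y} {U : Set (S × X)} (hF : PC k F U) :
    PC k (fun s x => - F s x) U := by
  have h := hF.clm_comp (-ContinuousLinearMap.id ℝ Y)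
  simpa using h

lemma PC.sub {k : ℕ} {F G : S → X → Y} {U : Set (S × X)} (hF : PC k F U) (hG : PC k G U) :
    PC k (fun s x => F s x - G s x) U := by
  have h := hF.add hG.neg
  simpa [sub_eq_add_neg] using h

lemma PC.param {k : ℕ} {c : S → Y} (hc : Continuous c) (U : Set (S × X)) :
    PC k (fun s (_ : X) => c s) U := by
  induction k generalizing Y with
  | zero => exact (hc.comp continuous_fst).continuousOn
  | succ k ih =>
    refine ⟨(hc.comp continuous_fst).continuousOn, fun _ _ => 0, ?_, ?_⟩
    · intro p _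
      exact hasFDerivAt_const _ _
    · exact ih (c := fun _ => (0 : X →L[ℝ] Y)) continuous_const

lemma PC.smul {k : ℕ} {c : S → ℝ} {F : S → X → Y} {U : Set (S × X)} (hc : Continuous c)
    (hF : PC k F U) : PC k (fun s x => c s • F s x) U := by
  have h1 : PC k (fun s (_ : X) => c s) U := PC.param hc U
  have h2 := h1.prodMk hF
  have h3 : ContDiff ℝ k (fun p : ℝ × Y => p.1 • p.2) := contDiff_fst.smul contDiff_snd
  exact (PC.of_contDiff (S := S) h3 univ).comp h2 (fun _ _ => mem_univ _)

end

end Pool.Agent.H496R3
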