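import Pool.Agent.H496R3.QuadSieve
import Pool.Agent.H505R3.Asym8
import Pool.Agent.H505R4.Obstruct

set_option autoImplicit false

namespace Pool.Agent.H496R3

open Finset Filter Pool.Agent.H505R2 Pool.Agent.H505R3

lemma exp64 : Real.exp 64 ≤ 2 ^ 93 := by
  have h1 : Real.exp 64 = Real.exp 1 ^ 64 := by
    rw [← Real.exp_nat_mul]; norm_num
  rw [h1]
  have h6 := Real.exp_one_lt_d9
  calc Real.exp 1 ^ 64 ≤ 2.7183 ^ 64 := pow_le_pow_left₀ (Real.exp_pos 1).le (by linarith) 64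
    _ ≤ 2 ^ 93 := by norm_num

lemma exp64I (I : ℕ) : (1 : ℝ) ≤ Real.exp (-64) ^ I * 2 ^ (93 * I) := by
  rw [pow_mul, ← mul_pow]
  apply one_le_pow₀
  rw [Real.exp_neg, inv_mul_eq_div, one_le_div (Real.exp_pos _)]
  exact exp64

lemma pow_big3 (I : ℕ) (hI : 10 ≤ I) : 93 * I + 2 ≤ 8 * 2 ^ I := by
  induction I, hI using Nat.le_induction with
  | base => norm_num
  | succ I hI ih =>
    rw [pow_succ]
    omega

theorem mainQ {b c : ℕ} (s : ℕ) (hb : b % 2 = 1) (hc : c % 2 = 1)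
    (h3 : ((b : ℤ) ^ 2 - 4 * c) % 3 ≠ 1) : ∃ X₀ : ℕ, ∀ E : ℕ → Prop,
    (∀ a b : ℕ, a ≠ 0 → b ≠ 0 → ¬ E a → ¬ E b → E (a * b)) → ∀ X : ℕ, X₀ ≤ X →
      (X : ℝ) ^ ((1 : ℝ) / 2) / Real.log X ^ 93 ≤
        (({n : ℕ | n + s ≤ X ∧ 0 < n ∧
          (∀ p : ℕ, p.Prime → p ∣ n ^ 2 + b * n + c → (X : ℝ) ^ ((1 : ℝ) / 3600) < p) ∧
          E (n ^ 2 + b * n + c)} : Set ℕ).ncard : ℝ) := by
  obtain ⟨B, hB⟩ : ∃ B : ℝ, B = (2 : ℝ) ^ (880 * 2 ^ 10) := ⟨_, rfl⟩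
  have hev : ∀ᶠ X : ℕ in atTop, (B + 1) * 2 ≤ (X : ℝ) ^ ((1 : ℝ) / 2) ∧
      (6 : ℝ) ≤ (X : ℝ) ^ ((1 : ℝ) / 2) ∧
      (3 : ℝ) ≤ (X : ℝ) ^ ((1 : ℝ) / 2 - 1760 / 3600) ∧ 2 ≤ X ∧
      (2 * ((b : ℝ) + 1)) ≤ (X : ℝ) ^ ((1 : ℝ) / 2) ∧ 4 * (c + s) ≤ X := by
    have e1 := ev_ge (show (0 : ℝ) < 1 / 2 by norm_num) ((B + 1) * 2)
    have e2 := ev_ge (show (0 : ℝ) < 1 / 2 by norm_num) (6 : ℝ)
    have e3 := ev_ge (show (0 : ℝ) < 1 / 2 - 1760 / 3600 by norm_num) (3 : ℝ)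
    have e4 := ev_ge (show (0 : ℝ) < 1 / 2 by norm_num) (2 * ((b : ℝ) + 1))
    filter_upwards [e1, e2, e3, eventually_ge_atTop 2, e4, eventually_ge_atTop (4 * (c + s))]
      with X h1 h2 h3 h4 h5 h6
    exact ⟨h1, h2, h3, h4, h5, h6⟩
  rw [eventually_atTop] at hev
  obtain ⟨X₀, hX₀⟩ := hev
  refine ⟨X₀, fun E hE X hX => ?_⟩
  obtain ⟨a1, a2, a3, a4, a5, a6⟩ := hX₀ X hX
  have hX0 : (0 : ℝ) < X := by exact_mod_cast (by omega : 0 < X)
  have hX1 : (1 : ℝ) < X := by exact_mod_cast (by omega : 1 < X)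
  set x : ℝ := (X : ℝ) ^ ((1 : ℝ) / 2) with hx
  have hx3 : x ^ 2 = X := by
    rw [hx, ← Real.rpow_natCast, ← Real.rpow_mul hX0.le]
    norm_num
  have hxpos : 0 < x := by positivity
  set K : ℕ := ⌊x / 2⌋₊ with hK
  have hK1 : (K : ℝ) ≤ x / 2 := Nat.floor_le (by positivity)
  have hK2 : x / 2 < K + 1 := Nat.lt_floor_add_one _
  have hK3 : x / 3 ≤ K := by
    have : x / 2 - 1 ≥ x / 3 := by linarith
    linarith
  have hKX : K ^ 2 + (b + 1) * K + c + s ≤ X := by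
    have h1 : (K : ℝ) ^ 2 ≤ (x / 2) ^ 2 := pow_le_pow_left₀ (Nat.cast_nonneg _) hK1 2
    have h2 : ((b : ℝ) + 1) * K ≤ ((b : ℝ) + 1) * (x / 2) :=
      mul_le_mul_of_nonneg_left hK1 (by positivity)
    have h3 : ((b : ℝ) + 1) * (x / 2) ≤ x * x / 4 := by nlinarith
    have h4 : ((4 * (c + s) : ℕ) : ℝ) ≤ X := by exact_mod_cast a6
    push_cast at h4
    have h5 : x * x = X := by rw [← hx3]; ring
    have h6 : ((K ^ 2 + (b + 1) * K + c + s : ℕ) : ℝ) ≤ X := by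
      push_cast
      rw [div_pow, hx3] at h1
      rw [h5] at h3
      linarith
    exact_mod_cast h6
  obtain ⟨I, hI0, hI1, hI2⟩ := exists_levelG 880 (by norm_num) (x := (K : ℝ)) 10 (by
    rw [← hB]; linarith)
  have hcount := countQ hb hc h3 E hE I (by omega) K s X hKX
  -- the sieve bound is large
  have hE1 := exp64I I
  have hP := pow_big3 I hI0
  set W : ℝ := (2 : ℝ) ^ (93 * I) with hW
  have hWpos : 0 < W := by positivity
  have hlow : (K : ℝ) / (4 * W) ≤ (K : ℝ) * (Real.exp (-64) ^ I / 2) - (2 : ℝ) ^ (872 * 2 ^ I) := by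
    have h1 : (2 : ℝ) ^ (872 * 2 ^ I) * (4 * W) ≤ K := by
      refine le_trans ?_ hI1
      rw [hW, show (4 : ℝ) = 2 ^ 2 by norm_num, ← pow_add, ← pow_add]
      apply pow_le_pow_right₀ (by norm_num)
      omega
    have h2 : (2 : ℝ) ^ (872 * 2 ^ I) ≤ K / (4 * W) := by
      rw [le_div_iff₀ (by positivity)]
      exact h1
    have h3 : (K : ℝ) / (2 * W) ≤ (K : ℝ) * (Real.exp (-64) ^ I / 2) := by
      rw [div_le_iff₀ (by positivity)]
      have : (K : ℝ) * (Real.exp (-64) ^ I / 2) * (2 * W) = K * (Real.exp (-64) ^ I * W) := by ring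
      rw [this]
      have hK0 : (0 : ℝ) ≤ K := Nat.cast_nonneg _
      nlinarith
    have h4 : (K : ℝ) / (2 * W) = K / (4 * W) + K / (4 * W) := by field_simp; ring
    linarith
  -- sifting limit
  have hz : (X : ℝ) ^ ((1 : ℝ) / 3600) < (2 : ℝ) ^ 2 ^ I := by
    have h1 : ((X : ℝ) ^ ((1 : ℝ) / 3600)) ^ (1760 : ℕ) < ((2 : ℝ) ^ 2 ^ I) ^ (1760 : ℕ) := by
      rw [← Real.rpow_natCast, ← Real.rpow_mul hX0.le, ← pow_mul]
      have e1 : (1 : ℝ) / 3600 * ((1760 : ℕ) : ℝ) = 1760 / 3600 := by push_cast; ring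
      rw [e1, mul_comm (2 ^ I) 1760]
      refine lt_of_le_of_lt ?_ hI2
      refine le_trans ?_ hK3
      rw [le_div_iff₀ (by norm_num), hx]
      have h2 : (X : ℝ) ^ ((1 : ℝ) / 2) = (X : ℝ) ^ ((1760 : ℝ) / 3600) *
          (X : ℝ) ^ ((1 : ℝ) / 2 - 1760 / 3600) := by
        rw [← Real.rpow_add hX0]
        congr 1
        ring
      rw [h2]
      exact mul_le_mul_of_nonneg_left a3 (by positivity)
    exact lt_of_pow_lt_pow_left₀ 1760 (by positivity) h1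
  -- comparison with powers of the logarithm
  have hlog : 0 < Real.log X := Real.log_pos hX1
  have hKX' : (K : ℝ) ≤ X := by
    have h1 : x ≤ x ^ 2 := le_self_pow₀ (by linarith) (by norm_num)
    rw [hx3] at h1
    linarith
  have hI3 : (2 : ℝ) ^ I * 2 ≤ Real.log X := by
    have h1 : Real.log ((2 : ℝ) ^ (880 * 2 ^ I)) ≤ Real.log X :=
      Real.log_le_log (by positivity) (hI1.trans hKX')
    rw [Real.log_pow] at h1
    push_cast at h1
    have h2 := Real.log_two_gt_d9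
    have h3 : (0 : ℝ) < 2 ^ I := by positivity
    nlinarith
  have hI4 : W * 36 ≤ Real.log X ^ 93 := by
    calc W * 36 ≤ W * 2 ^ 93 := mul_le_mul_of_nonneg_left (by norm_num) hWpos.le
      _ = ((2 : ℝ) ^ I * 2) ^ 93 := by rw [mul_pow, hW, ← pow_mul, mul_comm 93 I]
      _ ≤ Real.log X ^ 93 := pow_le_pow_left₀ (by positivity) hI3 93
  have hfin : x / Real.log X ^ 93 ≤ (K : ℝ) / (4 * W) / 3 := by
    rw [div_div, div_le_div_iff₀ (by positivity) (by positivity)]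
    have h1 : x * (4 * W * 3) ≤ (3 * K) * (4 * W * 3) :=
      mul_le_mul_of_nonneg_right (by linarith) (by positivity)
    have h2 : (3 * (K : ℝ)) * (4 * W * 3) = K * (W * 36) := by ring
    rw [h2] at h1
    exact h1.trans (mul_le_mul_of_nonneg_left hI4 (Nat.cast_nonneg _))
  refine hfin.trans ?_
  rw [div_le_iff₀ (by norm_num)]
  refine (hlow.trans hcount).trans ?_
  rw [mul_comm]
  apply mul_le_mul_of_nonneg_right _ (by norm_num)
  have hsub : ({n : ℕ | n + s ≤ X ∧ 0 < n ∧ Rough (2 ^ 2 ^ I) (n ^ 2 + b * n + c) ∧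
      E (n ^ 2 + b * n + c)} : Set ℕ) ⊆ {n : ℕ | n + s ≤ X ∧ 0 < n ∧
          (∀ p : ℕ, p.Prime → p ∣ n ^ 2 + b * n + c → (X : ℝ) ^ ((1 : ℝ) / 3600) < p) ∧
          E (n ^ 2 + b * n + c)} := by
    rintro n ⟨h1, h2, h4, h5⟩
    refine ⟨h1, h2, fun p hp hd => hz.trans ?_, h5⟩
    exact_mod_cast h4 p hp hd
  exact_mod_cast Set.ncard_le_ncard hsub ((Set.finite_Iic X).subset fun n hn => by
    have := hn.1
    simp only [Set.mem_Iic]
    omega)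

end Pool.Agent.H496R3
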