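import Pool.Agent.H505R3.SquarePlusOne
import Pool.Agent.H505R2.Core

/-!
The identity `f x * f (x + 1) = f (x + f x)` for `f x = x ^ 2 + b x + c`, and the sieve for
`f x * f (x + 1)` when `b`, `c` are odd and the discriminant is not `1` modulo `3`.
-/

set_option autoImplicit false

namespace Pool.Agent.H496R3

open Finset Filter Pool.Agent.H505R2 Pool.Agent.H505R3

/-- primes up to the sifting limit -/
def Sp (I : ℕ) : Finset ℕ := (Icc 2 (2 ^ 2 ^ I)).filter (fun p => p.Prime)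

lemma mem_Sp {I p : ℕ} : p ∈ Sp I ↔ 2 ≤ p ∧ p ≤ 2 ^ 2 ^ I ∧ p.Prime := by
  rw [Sp, mem_filter, mem_Icc, and_assoc]

/-- `p` divides `f n` or `f (n + 1)` -/
def Db (b c p n : ℕ) : Prop :=
  (p : ℤ) ∣ 1 * (n : ℤ) ^ 2 + (b : ℤ) * n + (c : ℤ) ∨
    (p : ℤ) ∣ 1 * (n : ℤ) ^ 2 + ((b : ℤ) + 2) * n + (1 + (b : ℤ) + c)

instance (b c p : ℕ) : DecidablePred (Db b c p) := fun n => by unfold Db; infer_instance

lemma Db_mod {b c p n : ℕ} (h : Db b c p n) : Db b c p (n % p) := by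
  rcases h with h | h
  · exact Or.inl ((quad_mod p _ _ _ n).2 h)
  · exact Or.inr ((quad_mod p _ _ _ n).2 h)

lemma Db_card {b c p : ℕ} (hp : p.Prime) : ((range p).filter (Db b c p)).card ≤ 4 := by
  have hne : ¬ (p : ℤ) ∣ 1 := by
    intro h
    have h1 : p ∣ 1 := by exact_mod_cast h
    have := Nat.dvd_one.1 h1
    exact hp.one_lt.ne' this
  have h1 := roots_le_two p hp 1 b c hne
  have h2 := roots_le_two p hp 1 ((b : ℤ) + 2) (1 + (b : ℤ) + c) hne
  have h4 : (range p).filter (Db b c p) ⊆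
      (range p).filter (fun r : ℕ => (p : ℤ) ∣ 1 * (r : ℤ) ^ 2 + (b : ℤ) * r + (c : ℤ)) ∪
      (range p).filter (fun r : ℕ => (p : ℤ) ∣ 1 * (r : ℤ) ^ 2 + ((b : ℤ) + 2) * r +
        (1 + (b : ℤ) + c)) := by
    intro r hr
    rw [mem_filter] at hr
    rw [mem_union, mem_filter, mem_filter]
    rcases hr.2 with h | h
    · exact Or.inl ⟨hr.1, h⟩
    · exact Or.inr ⟨hr.1, h⟩
  have h5 := (card_le_card h4).trans (card_union_le _ _)
  omega

lemma Db_two {b c : ℕ} (hb : b % 2 = 1) (hc : c % 2 = 1) (n : ℕ) : ¬ Db b c 2 n := by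
  rintro (h | h)
  · have h1 : ((1 * (n : ℤ) ^ 2 + (b : ℤ) * n + (c : ℤ)) : ℤ) % 2 = 0 := Int.emod_eq_zero_of_dvd h
    have e1 : ((b : ℤ)) % 2 = 1 := by omega
    have e2 : ((c : ℤ)) % 2 = 1 := by omega
    have e3 : (n : ℤ) % 2 = 0 ∨ (n : ℤ) % 2 = 1 := by omega
    rcases e3 with e3 | e3 <;>
      simp [Int.add_emod, Int.mul_emod, pow_two, e1, e2, e3] at h1
  · have h1 : ((1 * (n : ℤ) ^ 2 + ((b : ℤ) + 2) * n + (1 + (b : ℤ) + c)) : ℤ) % 2 = 0 :=
      Int.emod_eq_zero_of_dvd h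
    have e1 : ((b : ℤ)) % 2 = 1 := by omega
    have e2 : ((c : ℤ)) % 2 = 1 := by omega
    have e3 : (n : ℤ) % 2 = 0 ∨ (n : ℤ) % 2 = 1 := by omega
    rcases e3 with e3 | e3 <;>
      simp [Int.add_emod, Int.mul_emod, pow_two, e1, e2, e3] at h1

lemma Db_three {b c : ℕ} (h3 : ((b : ℤ) ^ 2 - 4 * c) % 3 ≠ 1) :
    ((range 3).filter (Db b c 3)).card ≤ 2 := by
  have key : ∃ r ∈ range 3, ¬ Db b c 3 r := by
    have e1 : (b : ℤ) % 3 = 0 ∨ (b : ℤ) % 3 = 1 ∨ (b : ℤ) % 3 = 2 := by omega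
    have e2 : (c : ℤ) % 3 = 0 ∨ (c : ℤ) % 3 = 1 ∨ (c : ℤ) % 3 = 2 := by omega
    have aux : ∀ r : ℕ, (1 * (r : ℤ) ^ 2 + (b : ℤ) * r + (c : ℤ)) % 3 ≠ 0 →
        (1 * (r : ℤ) ^ 2 + ((b : ℤ) + 2) * r + (1 + (b : ℤ) + c)) % 3 ≠ 0 → ¬ Db b c 3 r := by
      rintro r h1 h2 (h | h)
      · exact h1 (Int.emod_eq_zero_of_dvd h)
      · exact h2 (Int.emod_eq_zero_of_dvd h)
    rcases e1 with e1 | e1 | e1 <;> rcases e2 with e2 | e2 | e2
    · exact ⟨1, by simp, aux 1 (by push_cast; omega) (by push_cast; omega)⟩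
    · exact ⟨0, by simp, aux 0 (by push_cast; omega) (by push_cast; omega)⟩
    · exact absurd (by simp [Int.sub_emod, Int.mul_emod, pow_two, e1, e2]) h3
    · exact absurd (by simp [Int.sub_emod, Int.mul_emod, pow_two, e1, e2]) h3
    · exact ⟨2, by simp, aux 2 (by push_cast; omega) (by push_cast; omega)⟩
    · exact ⟨0, by simp, aux 0 (by push_cast; omega) (by push_cast; omega)⟩
    · exact absurd (by simp [Int.sub_emod, Int.mul_emod, pow_two, e1, e2]) h3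
    · exact ⟨0, by simp, aux 0 (by push_cast; omega) (by push_cast; omega)⟩
    · exact ⟨0, by simp, aux 0 (by push_cast; omega) (by push_cast; omega)⟩
  obtain ⟨r, hr, hn⟩ := key
  have hsub : (range 3).filter (Db b c 3) ⊆ (range 3).erase r := by
    intro x hx
    rw [mem_filter] at hx
    rw [mem_erase]
    refine ⟨?_, hx.1⟩
    rintro rfl
    exact hn hx.2
  have := card_le_card hsub
  rw [card_erase_of_mem hr, card_range] at this
  exact this

theorem siftQ {b c : ℕ} (hb : b % 2 = 1) (hc : c % 2 = 1)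
    (h3 : ((b : ℤ) ^ 2 - 4 * c) % 3 ≠ 1) (I : ℕ) (hI : 1 ≤ I) (k : ℕ) :
    (k : ℝ) * (Real.exp (-64) ^ I / 2) - (2 : ℝ) ^ (872 * 2 ^ I)
      ≤ (((Ioc 0 k).filter (fun n => ∀ p ∈ Sp I, ¬ Db b c p n)).card : ℝ) := by
  have h := sift_gen 2 (by norm_num) (Sp I) (fun p hp => (mem_Sp.1 hp).2.2) (Db b c)
    (fun p _ n h => Db_mod h) (by
      intro p hp
      obtain ⟨h2, -, hpp⟩ := mem_Sp.1 hp
      by_cases hp2 : p = 2
      · subst hp2
        have : (range 2).filter (Db b c 2) = ∅ := by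
          rw [filter_eq_empty_iff]
          intro n _
          exact Db_two hb hc n
        rw [this]
        simp
      · by_cases hp3 : p = 3
        · subst hp3
          have := Db_three h3
          omega
        · have h5 : 5 ≤ p := by
            by_contra hcon
            have h4 : p = 4 := by omega
            subst h4
            revert hpp
            norm_num
          have := Db_card (b := b) (c := c) hpp
          omega) (by
      intro p hp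
      obtain ⟨h5, -, hpp⟩ := mem_Sp.1 hp
      exact Db_card hpp) I hI (fun p hp => (mem_Sp.1 hp).2.1) k
  have e : (-(32 * ((2 : ℕ) : ℝ))) = -64 := by norm_num
  rw [e] at h
  exact h

/-- the two values are rough -/
theorem roughQ {b c I k : ℕ} (hk : ∀ p ∈ Sp I, ¬ Db b c p k) :
    Rough (2 ^ 2 ^ I) (k ^ 2 + b * k + c) ∧
      Rough (2 ^ 2 ^ I) ((k + 1) ^ 2 + b * (k + 1) + c) := by
  constructor
  · intro p hp hd
    by_contra hcon
    push Not at hcon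
    refine hk p (mem_Sp.2 ⟨hp.two_le, hcon, hp⟩) (Or.inl ?_)
    have h1 : (p : ℤ) ∣ ((k ^ 2 + b * k + c : ℕ) : ℤ) := by exact_mod_cast hd
    convert h1 using 1
    push_cast
    ring
  · intro p hp hd
    by_contra hcon
    push Not at hcon
    refine hk p (mem_Sp.2 ⟨hp.two_le, hcon, hp⟩) (Or.inr ?_)
    have h1 : (p : ℤ) ∣ (((k + 1) ^ 2 + b * (k + 1) + c : ℕ) : ℤ) := by exact_mod_cast hd
    convert h1 using 1
    push_cast
    ring

lemma identQ (b c n : ℕ) : (n ^ 2 + b * n + c) * ((n + 1) ^ 2 + b * (n + 1) + c) =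
    (n ^ 2 + (b + 1) * n + c) ^ 2 + b * (n ^ 2 + (b + 1) * n + c) + c := by ring

/-- finite version: one of three values has the right parity -/
theorem countQ {b c : ℕ} (hb : b % 2 = 1) (hc : c % 2 = 1)
    (h3 : ((b : ℤ) ^ 2 - 4 * c) % 3 ≠ 1) (E : ℕ → Prop)
    (hE : ∀ a b : ℕ, a ≠ 0 → b ≠ 0 → ¬ E a → ¬ E b → E (a * b)) (I : ℕ)
    (hI : 1 ≤ I) (k s X : ℕ) (hX : k ^ 2 + (b + 1) * k + c + s ≤ X) :
    (k : ℝ) * (Real.exp (-64) ^ I / 2) - (2 : ℝ) ^ (872 * 2 ^ I) ≤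
      3 * (({n : ℕ | n + s ≤ X ∧ 0 < n ∧ Rough (2 ^ 2 ^ I) (n ^ 2 + b * n + c) ∧
        E (n ^ 2 + b * n + c)} : Set ℕ).ncard : ℝ) := by
  classical
  refine (siftQ hb hc h3 I hI k).trans ?_
  obtain ⟨T, hT⟩ : ∃ T, T = (Ioc 0 k).filter (fun n => ∀ p ∈ Sp I, ¬ Db b c p n) := ⟨_, rfl⟩
  rw [← hT]
  set G : Set ℕ := {n : ℕ | n + s ≤ X ∧ 0 < n ∧ Rough (2 ^ 2 ^ I) (n ^ 2 + b * n + c) ∧
    E (n ^ 2 + b * n + c)} with hG
  have hGf : G.Finite := (Set.finite_Iic X).subset fun n hn => by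
    have := hn.1
    simp only [Set.mem_Iic]
    omega
  have hmem : ∀ m ∈ T, 0 < m ∧ m ≤ k ∧ Rough (2 ^ 2 ^ I) (m ^ 2 + b * m + c) ∧
      Rough (2 ^ 2 ^ I) ((m + 1) ^ 2 + b * (m + 1) + c) := by
    intro m hm
    rw [hT, mem_filter, mem_Ioc] at hm
    have := roughQ hm.2
    exact ⟨hm.1.1, hm.1.2, this.1, this.2⟩
  have hbound : ∀ m : ℕ, 0 < m → m ≤ k → m + s ≤ X ∧ m + 1 + s ≤ X ∧
      m ^ 2 + (b + 1) * m + c + s ≤ X := by
    intro m hm hmk
    have h1 : m ^ 2 ≤ k ^ 2 := Nat.pow_le_pow_left hmk 2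
    have h2 : (b + 1) * m ≤ (b + 1) * k := Nat.mul_le_mul_left _ hmk
    have h4 : m * 1 ≤ m * (b + 1) := Nat.mul_le_mul_left _ (by omega)
    have h5 : m * (b + 1) = (b + 1) * m := by ring
    have h6 : 1 ≤ m ^ 2 := Nat.one_le_pow _ _ hm
    refine ⟨by omega, by omega, by omega⟩
  obtain ⟨T1, hT1⟩ : ∃ T1, T1 = T.filter (fun m => E (m ^ 2 + b * m + c)) := ⟨_, rfl⟩
  obtain ⟨T2, hT2⟩ : ∃ T2, T2 = T.filter (fun m => E ((m + 1) ^ 2 + b * (m + 1) + c)) := ⟨_, rfl⟩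
  obtain ⟨T3, hT3⟩ : ∃ T3, T3 = T.filter (fun m => E ((m ^ 2 + (b + 1) * m + c) ^ 2 +
      b * (m ^ 2 + (b + 1) * m + c) + c)) := ⟨_, rfl⟩
  have hcover : T ⊆ T1 ∪ (T2 ∪ T3) := by
    intro m hm
    rw [mem_union, mem_union, hT1, hT2, hT3, mem_filter, mem_filter, mem_filter]
    by_cases h1 : E (m ^ 2 + b * m + c)
    · exact Or.inl ⟨hm, h1⟩
    · by_cases h2 : E ((m + 1) ^ 2 + b * (m + 1) + c)
      · exact Or.inr (Or.inl ⟨hm, h2⟩)
      · refine Or.inr (Or.inr ⟨hm, ?_⟩)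
        rw [← identQ]
        exact hE _ _ (by omega) (by omega) h1 h2
  have c1 : T1.card ≤ G.ncard := by
    rw [← Set.ncard_coe_finset]
    apply Set.ncard_le_ncard_of_injOn (fun m => m) _ _ hGf
    · intro m hm
      rw [mem_coe, hT1, mem_filter] at hm
      obtain ⟨h0, hk, r1, r2⟩ := hmem m hm.1
      exact ⟨(hbound m h0 hk).1, h0, r1, hm.2⟩
    · intro a _ b _ hab
      exact hab
  have c2 : T2.card ≤ G.ncard := by
    rw [← Set.ncard_coe_finset]
    apply Set.ncard_le_ncard_of_injOn (fun m => m + 1) _ _ hGf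
    · intro m hm
      rw [mem_coe, hT2, mem_filter] at hm
      obtain ⟨h0, hk, r1, r2⟩ := hmem m hm.1
      exact ⟨(hbound m h0 hk).2.1, by positivity, r2, hm.2⟩
    · intro a _ b _ hab
      have h0 : a + 1 = b + 1 := hab
      omega
  have c3 : T3.card ≤ G.ncard := by
    rw [← Set.ncard_coe_finset]
    apply Set.ncard_le_ncard_of_injOn (fun m => m ^ 2 + (b + 1) * m + c) _ _ hGf
    · intro m hm
      rw [mem_coe, hT3, mem_filter] at hm
      obtain ⟨h0, hk, r1, r2⟩ := hmem m hm.1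
      refine ⟨(hbound m h0 hk).2.2, by positivity, ?_, hm.2⟩
      show Rough _ ((m ^ 2 + (b + 1) * m + c) ^ 2 + b * (m ^ 2 + (b + 1) * m + c) + c)
      rw [← identQ]
      exact r1.mul r2
    · have hmono : StrictMono (fun m : ℕ => m ^ 2 + (b + 1) * m + c) := by
        intro x y hxy
        have h1 : x ^ 2 ≤ y ^ 2 := Nat.pow_le_pow_left hxy.le 2
        have h2 : (b + 1) * x < (b + 1) * y := Nat.mul_lt_mul_of_pos_left hxy (by omega)
        show x ^ 2 + (b + 1) * x + c < y ^ 2 + (b + 1) * y + c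
        omega
      exact hmono.injective.injOn
  have h1 := (card_le_card hcover).trans ((card_union_le _ _).trans
    (Nat.add_le_add_left (card_union_le _ _) _))
  have h2 : T.card ≤ 3 * G.ncard := by omega
  exact_mod_cast h2

end Pool.Agent.H496R3
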