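import Pool.Agent.H505R3.SquarePlusOne
import Pool.Agent.H505R2.Core

/-!
Five values of `t ^ 2 + d`, `d = 4 j + 1`, whose product is a square: the successive vectors
`(1, 0), (X0, 1), (X1, 2), (X2, Y2), (X3, Y3), (X4, X1)` of an even continued fraction, with the
values `1, A0, A1, A2, A3, NN ^ 2` of the form `x ^ 2 + d y ^ 2`.
-/

set_option autoImplicit false

namespace Pool.Agent.H496R3.Shift

section defs
variable {R : Type} [CommSemiring R] (j v : R)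

def X0 : R := (4 * j + 1) * v + 4 * j
def X1 : R := 2 * X0 j v + 1
def X2 : R := v * X1 j v + X0 j v
def X3 : R := 2 * X2 j v + X1 j v
def X4 : R := 2 * j * X3 j v + X2 j v
def Y2 : R := 2 * v + 1
def Y3 : R := 2 * Y2 v + 2
def A0 : R := X0 j v ^ 2 + (4 * j + 1)
def A1 : R := X1 j v ^ 2 + 4 * (4 * j + 1)
def A2 : R := X2 j v ^ 2 + (4 * j + 1) * Y2 v ^ 2
def A3 : R := X3 j v ^ 2 + (4 * j + 1) * Y3 v ^ 2
def NN : R := 2 * X0 j v ^ 2 + 2 * X0 j v + 2 * j + 1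
def B1 : R := X0 j v * X1 j v + 2 * (4 * j + 1)
def B2 : R := X1 j v * X2 j v + 2 * (4 * j + 1) * Y2 v
def B3 : R := X2 j v * X3 j v + (4 * j + 1) * (Y2 v * Y3 v)
def B4 : R := X3 j v * X4 j v + (4 * j + 1) * (Y3 v * X1 j v)
/-- the product to be sifted -/
def FF : R := A0 j v * A1 j v * A2 j v * A3 j v * NN j v

lemma id0 : X0 j v ^ 2 + (4 * j + 1) = A0 j v := rfl

lemma id1 : B1 j v ^ 2 + (4 * j + 1) = A0 j v * A1 j v := by
  unfold B1 A0 A1 X1
  ring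

lemma id2 : B2 j v ^ 2 + (4 * j + 1) = A1 j v * A2 j v := by
  unfold B2 A1 A2 X2 X1 X0 Y2
  ring

lemma id3 : B3 j v ^ 2 + (4 * j + 1) = A2 j v * A3 j v := by
  unfold B3 A2 A3 X3 X2 X1 X0 Y3 Y2
  ring

lemma id4 : B4 j v ^ 2 + (4 * j + 1) = A3 j v * NN j v ^ 2 := by
  unfold B4 A3 NN X4 X3 X2 X1 X0 Y3 Y2
  ring

end defs

lemma FF_map {R S : Type} [CommSemiring R] [CommSemiring S] (f : R →+* S) (j v : R) :
    f (FF j v) = FF (f j) (f v) := by
  simp only [FF, A0, A1, A2, A3, NN, X3, X2, X1, X0, Y3, Y2, map_mul, map_add, map_pow, map_one,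
    map_ofNat]

lemma FF_cast {R : Type} [CommSemiring R] (j v : ℕ) : ((FF j v : ℕ) : R) = FF (j : R) (v : R) :=
  FF_map (Nat.castRingHom R) j v

/-- the value modulo `p` only depends on the arguments modulo `p` -/
lemma FF_dvd {p j v j' v' : ℕ} (hj : j ≡ j' [MOD p]) (hv : v ≡ v' [MOD p]) (h : p ∣ FF j v) :
    p ∣ FF j' v' := by
  rw [← ZMod.natCast_eq_zero_iff] at h ⊢
  rw [FF_cast] at h ⊢
  rw [← (ZMod.natCast_eq_natCast_iff j j' p).2 hj, ← (ZMod.natCast_eq_natCast_iff v v' p).2 hv]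
  exact h

/-- monotonicity -/
lemma mono_all {j v w : ℕ} (h : v < w) : X0 j v < X0 j w ∧ B1 j v < B1 j w ∧ B2 j v < B2 j w ∧
    B3 j v < B3 j w ∧ B4 j v < B4 j w := by
  have h0 : X0 j v < X0 j w := by
    unfold X0
    have := Nat.mul_lt_mul_of_pos_left h (show 0 < 4 * j + 1 by omega)
    omega
  have h1 : X1 j v < X1 j w := by unfold X1; omega
  have h2 : X2 j v < X2 j w := by
    unfold X2
    have := Nat.mul_lt_mul'' h h1
    omega
  have h3 : X3 j v < X3 j w := by unfold X3; omega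
  have h4 : X4 j v < X4 j w := by
    unfold X4
    have := Nat.mul_le_mul_left (2 * j) h3.le
    omega
  have k2 : Y2 v < Y2 w := by unfold Y2; omega
  have k3 : Y3 v < Y3 w := by unfold Y3; omega
  refine ⟨h0, ?_, ?_, ?_, ?_⟩
  · unfold B1
    have := Nat.mul_lt_mul'' h0 h1
    omega
  · unfold B2
    have := Nat.mul_lt_mul'' h1 h2
    have := Nat.mul_le_mul_left (2 * (4 * j + 1)) k2.le
    omega
  · unfold B3
    have := Nat.mul_lt_mul'' h2 h3
    have := Nat.mul_le_mul_left (4 * j + 1) (Nat.mul_le_mul k2.le k3.le)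
    omega
  · unfold B4
    have := Nat.mul_lt_mul'' h3 h4
    have := Nat.mul_le_mul_left (4 * j + 1) (Nat.mul_le_mul k3.le h1.le)
    omega

/-- sizes -/
lemma size_all (j v : ℕ) : X0 j v ≤ 32 * (4 * j + 1) ^ 3 * (v + 1) ^ 4 ∧
    B1 j v ≤ 32 * (4 * j + 1) ^ 3 * (v + 1) ^ 4 ∧ B2 j v ≤ 32 * (4 * j + 1) ^ 3 * (v + 1) ^ 4 ∧
    B3 j v ≤ 32 * (4 * j + 1) ^ 3 * (v + 1) ^ 4 ∧ B4 j v ≤ 32 * (4 * j + 1) ^ 3 * (v + 1) ^ 4 := by
  obtain ⟨c, hc⟩ : ∃ c, c = 4 * j + 1 := ⟨_, rfl⟩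
  obtain ⟨u, hu⟩ : ∃ u, u = v + 1 := ⟨_, rfl⟩
  have hc1 : 1 ≤ c := by omega
  have hu1 : 1 ≤ u := by omega
  have hm : ∀ a b : ℕ, a ≤ 3 → b ≤ 4 → c ^ a * u ^ b ≤ c ^ 3 * u ^ 4 := fun a b ha hb =>
    Nat.mul_le_mul (Nat.pow_le_pow_right hc1 ha) (Nat.pow_le_pow_right hu1 hb)
  have h0 : X0 j v ≤ c * u := by
    have : c * u = X0 j v + 1 := by
      unfold X0
      rw [hc, hu]
      ring
    omega
  have h1 : X1 j v ≤ 2 * (c * u) := by
    have e : c * u = X0 j v + 1 := by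
      unfold X0
      rw [hc, hu]
      ring
    unfold X1
    omega
  have h2 : X2 j v ≤ 2 * (c * u ^ 2) := by
    have e : 2 * (c * u ^ 2) = v * (2 * (c * u)) + 2 * (c * u) := by rw [hu]; ring
    have := Nat.mul_le_mul_left v h1
    unfold X2
    omega
  have k2 : Y2 v ≤ 2 * u := by unfold Y2; omega
  have k3 : Y3 v ≤ 4 * u := by unfold Y3 Y2; omega
  have hcu : c * u ≤ c * u ^ 2 := by
    have := Nat.mul_le_mul_left c (Nat.le_self_pow (two_ne_zero) u)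
    exact this
  have h3 : X3 j v ≤ 6 * (c * u ^ 2) := by unfold X3; omega
  have h4 : X4 j v ≤ 4 * (c ^ 2 * u ^ 2) := by
    have := Nat.mul_le_mul_left (2 * j) h3
    have e : 4 * (c ^ 2 * u ^ 2) = 2 * j * (6 * (c * u ^ 2)) + (4 * j + 4) * (c * u ^ 2) := by
      have : c ^ 2 = (4 * j + 1) * c := by rw [hc]; ring
      rw [this]
      ring
    have e2 : (4 * j + 4) * (c * u ^ 2) = 4 * j * (c * u ^ 2) + 2 * (c * u ^ 2) +
        2 * (c * u ^ 2) := by ring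
    unfold X4
    rw [e, e2]
    omega
  rw [← hc, ← hu]
  have t : 32 * c ^ 3 * u ^ 4 = 32 * (c ^ 3 * u ^ 4) := by ring
  rw [t]
  have m00 := hm 1 1 (by norm_num) (by norm_num)
  have m22 := hm 2 2 (by norm_num) (by norm_num)
  have m10 := hm 1 0 (by norm_num) (by norm_num)
  have m23 := hm 2 3 (by norm_num) (by norm_num)
  have m24 := hm 2 4 (by norm_num) (by norm_num)
  have m12 := hm 1 2 (by norm_num) (by norm_num)
  rw [pow_one, pow_one] at m00
  rw [pow_one, pow_zero, mul_one] at m10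
  rw [pow_one] at m12
  refine ⟨by omega, ?_, ?_, ?_, ?_⟩
  · unfold B1
    have := Nat.mul_le_mul h0 h1
    have e : c * u * (2 * (c * u)) = 2 * (c ^ 2 * u ^ 2) := by ring
    rw [← hc]
    omega
  · unfold B2
    have := Nat.mul_le_mul h1 h2
    have e : 2 * (c * u) * (2 * (c * u ^ 2)) = 4 * (c ^ 2 * u ^ 3) := by ring
    have := Nat.mul_le_mul_left (2 * c) k2
    have e2 : 2 * c * (2 * u) = 4 * (c * u) := by ring
    rw [← hc]
    omega
  · unfold B3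
    have := Nat.mul_le_mul h2 h3
    have e : 2 * (c * u ^ 2) * (6 * (c * u ^ 2)) = 12 * (c ^ 2 * u ^ 4) := by ring
    have := Nat.mul_le_mul_left c (Nat.mul_le_mul k2 k3)
    have e2 : c * (2 * u * (4 * u)) = 8 * (c * u ^ 2) := by ring
    rw [← hc]
    omega
  · unfold B4
    have := Nat.mul_le_mul h3 h4
    have e : 6 * (c * u ^ 2) * (4 * (c ^ 2 * u ^ 2)) = 24 * (c ^ 3 * u ^ 4) := by ring
    have := Nat.mul_le_mul_left c (Nat.mul_le_mul k3 h1)
    have e2 : c * (4 * u * (2 * (c * u))) = 8 * (c ^ 2 * u ^ 2) := by ring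
    rw [← hc]
    omega

end Pool.Agent.H496R3.Shift
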