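import Pool.Agent.H496R3.ShiftSieve
import Pool.Agent.H505R3.Asym8

set_option autoImplicit false

namespace Pool.Agent.H496R3.Shift

open Finset Filter Pool.Agent.H505R2 Pool.Agent.H505R3

lemma rough_of_FF {j v z : ℕ} (h : Rough z (FF j v)) : Rough z (A0 j v) ∧ Rough z (A1 j v) ∧
    Rough z (A2 j v) ∧ Rough z (A3 j v) ∧ Rough z (NN j v) := by
  have e : FF j v = A0 j v * A1 j v * A2 j v * A3 j v * NN j v := rfl
  refine ⟨?_, ?_, ?_, ?_, ?_⟩ <;> intro p hp hd <;> apply h p hp <;> rw [e]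
  · exact (((hd.mul_right _).mul_right _).mul_right _).mul_right _
  · exact (((hd.mul_left _).mul_right _).mul_right _).mul_right _
  · exact ((hd.mul_left _).mul_right _).mul_right _
  · exact (hd.mul_left _).mul_right _
  · exact hd.mul_left _

lemma pos_all (j v : ℕ) : A0 j v ≠ 0 ∧ A1 j v ≠ 0 ∧ A2 j v ≠ 0 ∧ A3 j v ≠ 0 ∧ NN j v ≠ 0 := by
  have h2 : 0 < Y2 v := by unfold Y2; omega
  have h3 : 0 < Y3 v := by unfold Y3; omega
  refine ⟨?_, ?_, ?_, ?_, ?_⟩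
  · unfold A0; omega
  · unfold A1; omega
  · unfold A2
    have : 0 < (4 * j + 1) * Y2 v ^ 2 := by positivity
    omega
  · unfold A3
    have : 0 < (4 * j + 1) * Y3 v ^ 2 := by positivity
    omega
  · unfold NN; omega

/-- one of the five values has the sign `+1` -/
lemma one_of_five (h : ℕ → ℤ) (hmul : ∀ m n : ℕ, m ≠ 0 → n ≠ 0 → h (m * n) = h m * h n)
    (hval : ∀ m : ℕ, m ≠ 0 → h m = 1 ∨ h m = -1) (j v : ℕ) :
    h (X0 j v ^ 2 + (4 * j + 1)) = 1 ∨ h (B1 j v ^ 2 + (4 * j + 1)) = 1 ∨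
      h (B2 j v ^ 2 + (4 * j + 1)) = 1 ∨ h (B3 j v ^ 2 + (4 * j + 1)) = 1 ∨
      h (B4 j v ^ 2 + (4 * j + 1)) = 1 := by
  obtain ⟨p0, p1, p2, p3, p4⟩ := pos_all j v
  rw [id0, id1, id2, id3, id4, hmul _ _ p0 p1, hmul _ _ p1 p2, hmul _ _ p2 p3,
    hmul _ _ p3 (pow_ne_zero 2 p4), pow_two (NN j v), hmul _ _ p4 p4]
  rcases hval _ p0 with e0 | e0 <;> rcases hval _ p1 with e1 | e1 <;>
    rcases hval _ p2 with e2 | e2 <;> rcases hval _ p3 with e3 | e3 <;>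
    rcases hval _ p4 with e4 | e4 <;> rw [e0, e1, e2, e3, e4] <;> norm_num

/-- all five values are rough -/
lemma rough_five {j v z : ℕ} (h : Rough z (FF j v)) : Rough z (X0 j v ^ 2 + (4 * j + 1)) ∧
    Rough z (B1 j v ^ 2 + (4 * j + 1)) ∧ Rough z (B2 j v ^ 2 + (4 * j + 1)) ∧
    Rough z (B3 j v ^ 2 + (4 * j + 1)) ∧ Rough z (B4 j v ^ 2 + (4 * j + 1)) := by
  obtain ⟨r0, r1, r2, r3, r4⟩ := rough_of_FF h
  rw [id0, id1, id2, id3, id4, pow_two (NN j v)]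
  exact ⟨r0, r0.mul r1, r1.mul r2, r2.mul r3, r3.mul (r4.mul r4)⟩

/-- the good set -/
def GS (h : ℕ → ℤ) (j z X : ℕ) : Set ℕ :=
  {t : ℕ | t ≤ X ∧ Rough z (t ^ 2 + (4 * j + 1)) ∧ h (t ^ 2 + (4 * j + 1)) = 1}

lemma GS_fin (h : ℕ → ℤ) (j z X : ℕ) : (GS h j z X).Finite :=
  (Set.finite_Iic X).subset fun _ ht => ht.1

theorem countS {j v0 : ℕ} (hv0 : v0 < MM) (hsm : ∀ w : ℕ, w ≡ v0 [MOD MM] →
      ∀ p : ℕ, p.Prime → p < 19 → ¬ p ∣ FF j w) (h : ℕ → ℤ)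
    (hmul : ∀ m n : ℕ, m ≠ 0 → n ≠ 0 → h (m * n) = h m * h n)
    (hval : ∀ m : ℕ, m ≠ 0 → h m = 1 ∨ h m = -1) (I : ℕ) (hI : 1 ≤ I) (k X : ℕ)
    (hX : 32 * (4 * j + 1) ^ 3 * (2 * MM * k) ^ 4 ≤ X) :
    (k : ℝ) * (Real.exp (-224) ^ I / 2) - (2 : ℝ) ^ (2972 * 2 ^ I) ≤
      5 * ((GS h j (2 ^ 2 ^ I) X).ncard : ℝ) := by
  classical
  refine (siftS j v0 I hI k).trans ?_
  obtain ⟨T, hT⟩ : ∃ T, T = (Ioc 0 k).filter (fun n => ∀ p ∈ Sq I, ¬ Dv j v0 p n) := ⟨_, rfl⟩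
  rw [← hT]
  have hrough : ∀ m ∈ T, Rough (2 ^ 2 ^ I) (FF j (MM * m + v0)) := by
    intro m hm p hp hd
    rw [hT, mem_filter] at hm
    by_contra hcon
    push Not at hcon
    by_cases h19 : p < 19
    · refine hsm (MM * m + v0) ?_ p hp h19 hd
      have : MM * m + v0 ≡ 0 + v0 [MOD MM] := by
        apply Nat.ModEq.add_right
        exact (Nat.modEq_zero_iff_dvd).2 (Dvd.intro _ rfl)
      rwa [zero_add] at this
    · push Not at h19
      exact hm.2 p (mem_Sq.2 ⟨h19, hcon, hp⟩) hd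
  have hMM : 0 < MM := by unfold MM; norm_num
  have hbd : ∀ m ∈ T, 32 * (4 * j + 1) ^ 3 * ((MM * m + v0) + 1) ^ 4 ≤ X := by
    intro m hm
    rw [hT, mem_filter, mem_Ioc] at hm
    refine le_trans (Nat.mul_le_mul_left _ (Nat.pow_le_pow_left ?_ 4)) hX
    have h1 : MM * m ≤ MM * k := Nat.mul_le_mul_left _ hm.1.2
    have h2 : MM * 1 ≤ MM * m := Nat.mul_le_mul_left _ hm.1.1
    have h3 : 2 * MM * k = MM * k + MM * k := by ring
    omega
  have hinj : ∀ y : ℕ → ℕ, (∀ a b : ℕ, a < b → y a < y b) → ∀ m n : ℕ,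
      y (MM * m + v0) = y (MM * n + v0) → m = n := by
    intro y hy m n hmn
    rcases lt_trichotomy m n with hlt | heq | hlt
    · have := hy (MM * m + v0) (MM * n + v0) (by
        have := Nat.mul_lt_mul_of_pos_left hlt hMM
        omega)
      omega
    · exact heq
    · have := hy (MM * n + v0) (MM * m + v0) (by
        have := Nat.mul_lt_mul_of_pos_left hlt hMM
        omega)
      omega
  have hone : ∀ y : ℕ → ℕ, (∀ a b : ℕ, a < b → y a < y b) →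
      (∀ m ∈ T, y (MM * m + v0) ≤ X ∧ Rough (2 ^ 2 ^ I) (y (MM * m + v0) ^ 2 + (4 * j + 1))) →
      ((T.filter (fun m => h (y (MM * m + v0) ^ 2 + (4 * j + 1)) = 1)).card : ℝ) ≤
        ((GS h j (2 ^ 2 ^ I) X).ncard : ℝ) := by
    intro y hy hb
    have key := Set.ncard_le_ncard_of_injOn
      (s := ((T.filter (fun m => h (y (MM * m + v0) ^ 2 + (4 * j + 1)) = 1) : Finset ℕ) : Set ℕ))
      (t := GS h j (2 ^ 2 ^ I) X) (fun m : ℕ => y (MM * m + v0)) (by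
      intro m hm
      rw [mem_coe, mem_filter] at hm
      obtain ⟨b1, b2⟩ := hb m hm.1
      exact ⟨b1, b2, hm.2⟩) (by
      intro m _ n _ hmn
      exact hinj y hy m n hmn) (GS_fin h j _ X)
    rw [Set.ncard_coe_finset] at key
    exact_mod_cast key
  have c0 := hone (X0 j) (fun a b hab => (mono_all hab).1) (fun m hm =>
    ⟨(size_all j _).1.trans (hbd m hm), (rough_five (hrough m hm)).1⟩)
  have c1 := hone (B1 j) (fun a b hab => (mono_all hab).2.1) (fun m hm =>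
    ⟨(size_all j _).2.1.trans (hbd m hm), (rough_five (hrough m hm)).2.1⟩)
  have c2 := hone (B2 j) (fun a b hab => (mono_all hab).2.2.1) (fun m hm =>
    ⟨(size_all j _).2.2.1.trans (hbd m hm), (rough_five (hrough m hm)).2.2.1⟩)
  have c3 := hone (B3 j) (fun a b hab => (mono_all hab).2.2.2.1) (fun m hm =>
    ⟨(size_all j _).2.2.2.1.trans (hbd m hm), (rough_five (hrough m hm)).2.2.2.1⟩)
  have c4 := hone (B4 j) (fun a b hab => (mono_all hab).2.2.2.2) (fun m hm =>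
    ⟨(size_all j _).2.2.2.2.trans (hbd m hm), (rough_five (hrough m hm)).2.2.2.2⟩)
  have hcover : T ⊆ T.filter (fun m => h (X0 j (MM * m + v0) ^ 2 + (4 * j + 1)) = 1) ∪
      (T.filter (fun m => h (B1 j (MM * m + v0) ^ 2 + (4 * j + 1)) = 1) ∪
      (T.filter (fun m => h (B2 j (MM * m + v0) ^ 2 + (4 * j + 1)) = 1) ∪
      (T.filter (fun m => h (B3 j (MM * m + v0) ^ 2 + (4 * j + 1)) = 1) ∪
      T.filter (fun m => h (B4 j (MM * m + v0) ^ 2 + (4 * j + 1)) = 1)))) := by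
    intro m hm
    simp only [mem_union, mem_filter]
    rcases one_of_five h hmul hval j (MM * m + v0) with g | g | g | g | g
    · exact Or.inl ⟨hm, g⟩
    · exact Or.inr (Or.inl ⟨hm, g⟩)
    · exact Or.inr (Or.inr (Or.inl ⟨hm, g⟩))
    · exact Or.inr (Or.inr (Or.inr (Or.inl ⟨hm, g⟩)))
    · exact Or.inr (Or.inr (Or.inr (Or.inr ⟨hm, g⟩)))
  have hcard : (T.card : ℝ) ≤
      ((T.filter (fun m => h (X0 j (MM * m + v0) ^ 2 + (4 * j + 1)) = 1)).card : ℝ) +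
      (((T.filter (fun m => h (B1 j (MM * m + v0) ^ 2 + (4 * j + 1)) = 1)).card : ℝ) +
      (((T.filter (fun m => h (B2 j (MM * m + v0) ^ 2 + (4 * j + 1)) = 1)).card : ℝ) +
      (((T.filter (fun m => h (B3 j (MM * m + v0) ^ 2 + (4 * j + 1)) = 1)).card : ℝ) +
      ((T.filter (fun m => h (B4 j (MM * m + v0) ^ 2 + (4 * j + 1)) = 1)).card : ℝ)))) := by
    have := (card_le_card hcover).trans ((card_union_le _ _).trans (Nat.add_le_add_left
      ((card_union_le _ _).trans (Nat.add_le_add_left ((card_union_le _ _).trans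
        (Nat.add_le_add_left (card_union_le _ _) _)) _)) _))
    exact_mod_cast this
  linarith

lemma exp224 : Real.exp 224 ≤ 2 ^ 324 := by
  have h1 : Real.exp 224 = Real.exp 1 ^ 224 := by
    rw [← Real.exp_nat_mul]; norm_num
  rw [h1]
  have h6 := Real.exp_one_lt_d9
  have h7 : Real.exp 1 ^ 56 ≤ 2 ^ 81 :=
    calc Real.exp 1 ^ 56 ≤ 2.7183 ^ 56 := pow_le_pow_left₀ (Real.exp_pos 1).le (by linarith) 56
      _ ≤ 2 ^ 81 := by norm_num
  calc Real.exp 1 ^ 224 = (Real.exp 1 ^ 56) ^ 4 := by rw [← pow_mul]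
    _ ≤ (2 ^ 81) ^ 4 := pow_le_pow_left₀ (by positivity) h7 4
    _ = 2 ^ 324 := by rw [← pow_mul]

lemma exp224I (I : ℕ) : (1 : ℝ) ≤ Real.exp (-224) ^ I * 2 ^ (324 * I) := by
  rw [pow_mul, ← mul_pow]
  apply one_le_pow₀
  rw [Real.exp_neg, inv_mul_eq_div, one_le_div (Real.exp_pos _)]
  exact exp224

lemma pow_big4 (I : ℕ) (hI : 10 ≤ I) : 324 * I + 2 ≤ 8 * 2 ^ I := by
  induction I, hI using Nat.le_induction with
  | base => norm_num
  | succ I hI ih =>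
    rw [pow_succ]
    omega

theorem mainS {j : ℕ} (h3 : j % 3 ≠ 1) (h5 : j % 5 ≠ 0) (h5' : j % 5 ≠ 2) : ∃ Z₀ : ℕ,
    ∀ h : ℕ → ℤ, (∀ m n : ℕ, m ≠ 0 → n ≠ 0 → h (m * n) = h m * h n) →
      (∀ m : ℕ, m ≠ 0 → h m = 1 ∨ h m = -1) → ∀ X : ℕ, Z₀ ≤ X →
      (X : ℝ) ^ ((1 : ℝ) / 4) / Real.log X ^ 325 ≤
        (({t : ℕ | t ≤ X ∧
          (∀ p : ℕ, p.Prime → p ∣ t ^ 2 + (4 * j + 1) → (X : ℝ) ^ ((1 : ℝ) / 24000) < p) ∧
          h (t ^ 2 + (4 * j + 1)) = 1} : Set ℕ).ncard : ℝ) := by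
  obtain ⟨v0, hv0, hsm⟩ := small_all h3 h5 h5'
  obtain ⟨L, hL⟩ : ∃ L : ℕ, L = 32 * (4 * j + 1) ^ 3 * (2 * MM) := ⟨_, rfl⟩
  have hL1 : 1 ≤ L := by
    rw [hL]
    have : 0 < MM := by unfold MM; norm_num
    have : 0 < 32 * (4 * j + 1) ^ 3 * (2 * MM) := by positivity
    omega
  have hLr : (1 : ℝ) ≤ L := by exact_mod_cast hL1
  obtain ⟨B, hB⟩ : ∃ B : ℝ, B = (2 : ℝ) ^ (2980 * 2 ^ 10) := ⟨_, rfl⟩
  have hev : ∀ᶠ X : ℕ in atTop, (B + 1) * L ≤ (X : ℝ) ^ ((1 : ℝ) / 4) ∧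
      2 * (L : ℝ) ≤ (X : ℝ) ^ ((1 : ℝ) / 4) ∧
      2 * (L : ℝ) ≤ (X : ℝ) ^ ((1 : ℝ) / 4 - 5960 / 24000) ∧ 2 ≤ X ∧
      40 * (L : ℝ) ≤ Real.log X := by
    have e1 := ev_ge (show (0 : ℝ) < 1 / 4 by norm_num) ((B + 1) * L)
    have e2 := ev_ge (show (0 : ℝ) < 1 / 4 by norm_num) (2 * (L : ℝ))
    have e3 := ev_ge (show (0 : ℝ) < 1 / 4 - 5960 / 24000 by norm_num) (2 * (L : ℝ))
    have e4 := (Real.tendsto_log_atTop.comp tendsto_natCast_atTop_atTop).eventually_ge_atTop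
      (40 * (L : ℝ))
    filter_upwards [e1, e2, e3, eventually_ge_atTop 2, e4] with X h1 h2 h3 h4 h5
    exact ⟨h1, h2, h3, h4, h5⟩
  rw [eventually_atTop] at hev
  obtain ⟨Z₀, hZ₀⟩ := hev
  refine ⟨Z₀, fun h hmul hval X hX => ?_⟩
  obtain ⟨a1, a2, a3, a4, a5⟩ := hZ₀ X hX
  have hX0 : (0 : ℝ) < X := by exact_mod_cast (by omega : 0 < X)
  have hX1 : (1 : ℝ) < X := by exact_mod_cast (by omega : 1 < X)
  set x : ℝ := (X : ℝ) ^ ((1 : ℝ) / 4) with hx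
  have hx4 : x ^ 4 = X := by
    rw [hx, ← Real.rpow_natCast, ← Real.rpow_mul hX0.le]
    norm_num
  have hxpos : 0 < x := by positivity
  have hLpos : (0 : ℝ) < L := by linarith
  set K : ℕ := ⌊x / L⌋₊ with hK
  have hK1 : (K : ℝ) ≤ x / L := Nat.floor_le (by positivity)
  have hK2 : x / L < K + 1 := Nat.lt_floor_add_one _
  have hxL : 2 ≤ x / L := by
    rw [le_div_iff₀ hLpos]
    exact a2
  have hK3 : x ≤ 2 * L * K := by
    have h1 : x / L ≤ 2 * K := by linarith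
    rw [div_le_iff₀ hLpos] at h1
    linarith
  have hKX : 32 * (4 * j + 1) ^ 3 * (2 * MM * K) ^ 4 ≤ X := by
    have h1 : (L : ℝ) * K ≤ x := by
      rw [le_div_iff₀ hLpos] at hK1
      linarith
    have h2 : ((L * K : ℕ) : ℝ) ^ 4 ≤ x ^ 4 := by
      push_cast
      exact pow_le_pow_left₀ (by positivity) h1 4
    rw [hx4] at h2
    have h3 : (L * K) ^ 4 ≤ X := by exact_mod_cast h2
    refine le_trans ?_ h3
    have h4 : (L * K) ^ 4 = (32 * (4 * j + 1) ^ 3) ^ 4 * (2 * MM * K) ^ 4 := by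
      rw [hL]
      ring
    rw [h4]
    apply Nat.mul_le_mul_right
    exact Nat.le_self_pow (by norm_num) _
  obtain ⟨I, hI0, hI1, hI2⟩ := exists_levelG 2980 (by norm_num) (x := (K : ℝ)) 10 (by
    rw [← hB]
    have : B + 1 ≤ x / L := by
      rw [le_div_iff₀ hLpos]
      exact a1
    linarith)
  have hcount := countS hv0 hsm h hmul hval I (by omega) K X hKX
  -- the sieve bound is large
  have hE1 := exp224I I
  have hP := pow_big4 I hI0
  set W : ℝ := (2 : ℝ) ^ (324 * I) with hW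
  have hWpos : 0 < W := by positivity
  have hlow : (K : ℝ) / (4 * W) ≤
      (K : ℝ) * (Real.exp (-224) ^ I / 2) - (2 : ℝ) ^ (2972 * 2 ^ I) := by
    have h1 : (2 : ℝ) ^ (2972 * 2 ^ I) * (4 * W) ≤ K := by
      refine le_trans ?_ hI1
      rw [hW, show (4 : ℝ) = 2 ^ 2 by norm_num, ← pow_add, ← pow_add]
      apply pow_le_pow_right₀ (by norm_num)
      omega
    have h2 : (2 : ℝ) ^ (2972 * 2 ^ I) ≤ K / (4 * W) := by
      rw [le_div_iff₀ (by positivity)]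
      exact h1
    have h3 : (K : ℝ) / (2 * W) ≤ (K : ℝ) * (Real.exp (-224) ^ I / 2) := by
      rw [div_le_iff₀ (by positivity)]
      have : (K : ℝ) * (Real.exp (-224) ^ I / 2) * (2 * W) =
        K * (Real.exp (-224) ^ I * W) := by ring
      rw [this]
      have hK0 : (0 : ℝ) ≤ K := Nat.cast_nonneg _
      nlinarith
    have h4 : (K : ℝ) / (2 * W) = K / (4 * W) + K / (4 * W) := by field_simp; ring
    linarith
  -- sifting limit
  have hz : (X : ℝ) ^ ((1 : ℝ) / 24000) < (2 : ℝ) ^ 2 ^ I := by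
    have h1 : ((X : ℝ) ^ ((1 : ℝ) / 24000)) ^ (5960 : ℕ) < ((2 : ℝ) ^ 2 ^ I) ^ (5960 : ℕ) := by
      rw [← Real.rpow_natCast, ← Real.rpow_mul hX0.le, ← pow_mul]
      have e1 : (1 : ℝ) / 24000 * ((5960 : ℕ) : ℝ) = 5960 / 24000 := by push_cast; ring
      rw [e1, mul_comm (2 ^ I) 5960]
      refine lt_of_le_of_lt ?_ hI2
      have h2 : x = (X : ℝ) ^ ((5960 : ℝ) / 24000) *
          (X : ℝ) ^ ((1 : ℝ) / 4 - 5960 / 24000) := by
        rw [hx, ← Real.rpow_add hX0]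
        congr 1
        ring
      have h3 : (X : ℝ) ^ ((5960 : ℝ) / 24000) * (2 * (L : ℝ)) ≤ 2 * L * K := by
        refine le_trans ?_ hK3
        rw [h2]
        exact mul_le_mul_of_nonneg_left a3 (by positivity)
      have h4 : (X : ℝ) ^ ((5960 : ℝ) / 24000) * (2 * (L : ℝ)) ≤ K * (2 * L) := by linarith
      exact le_of_mul_le_mul_right h4 (by positivity)
    exact lt_of_pow_lt_pow_left₀ 5960 (by positivity) h1
  -- comparison with powers of the logarithm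
  have hlog : 0 < Real.log X := Real.log_pos hX1
  have hKX' : (K : ℝ) ≤ X := by
    have h0 : (K : ℝ) ≤ x := by
      refine hK1.trans ?_
      exact div_le_self hxpos.le hLr
    have h1 : x ≤ x ^ 4 := le_self_pow₀ (by linarith) (by norm_num)
    rw [hx4] at h1
    linarith
  have hI3 : (2 : ℝ) ^ I ≤ Real.log X := by
    have h1 : Real.log ((2 : ℝ) ^ (2980 * 2 ^ I)) ≤ Real.log X :=
      Real.log_le_log (by positivity) (hI1.trans hKX')
    rw [Real.log_pow] at h1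
    push_cast at h1
    have h2 := Real.log_two_gt_d9
    have h3 : (0 : ℝ) < 2 ^ I := by positivity
    nlinarith
  have hI4 : W ≤ Real.log X ^ 324 := by
    calc W = ((2 : ℝ) ^ I) ^ 324 := by rw [hW, ← pow_mul, mul_comm 324 I]
      _ ≤ Real.log X ^ 324 := pow_le_pow_left₀ (by positivity) hI3 324
  have hI5 : W * (40 * L) ≤ Real.log X ^ 325 := by
    rw [pow_succ]
    exact mul_le_mul hI4 a5 (by positivity) (by positivity)
  have hfin : x / Real.log X ^ 325 ≤ (K : ℝ) / (4 * W) / 5 := by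
    rw [div_div, div_le_div_iff₀ (by positivity) (by positivity)]
    have h1 : x * (4 * W * 5) ≤ (2 * L * K) * (4 * W * 5) :=
      mul_le_mul_of_nonneg_right hK3 (by positivity)
    have h2 : (2 * L * (K : ℝ)) * (4 * W * 5) = K * (W * (40 * L)) := by ring
    rw [h2] at h1
    exact h1.trans (mul_le_mul_of_nonneg_left hI5 (Nat.cast_nonneg _))
  refine hfin.trans ?_
  rw [div_le_iff₀ (by norm_num)]
  refine (hlow.trans hcount).trans ?_
  rw [mul_comm]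
  apply mul_le_mul_of_nonneg_right _ (by norm_num)
  have hsub : GS h j (2 ^ 2 ^ I) X ⊆ {t : ℕ | t ≤ X ∧
          (∀ p : ℕ, p.Prime → p ∣ t ^ 2 + (4 * j + 1) → (X : ℝ) ^ ((1 : ℝ) / 24000) < p) ∧
          h (t ^ 2 + (4 * j + 1)) = 1} := by
    rintro n ⟨h1, h2, h4⟩
    refine ⟨h1, fun p hp hd => hz.trans ?_, h4⟩
    exact_mod_cast h2 p hp hd
  exact_mod_cast Set.ncard_le_ncard hsub ((Set.finite_Iic X).subset fun n hn => hn.1)

end Pool.Agent.H496R3.Shift
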