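import Pool.Agent.H496R3.ShiftAlg

set_option autoImplicit false

namespace Pool.Agent.H496R3.Shift

open Finset Filter Polynomial Pool.Agent.H505R2 Pool.Agent.H505R3

/-! ### small primes -/

set_option maxRecDepth 100000 in
lemma small2 : ∀ j < 2, ¬ 2 ∣ FF j 0 := by decide +kernel

set_option maxRecDepth 100000 in
lemma small3 : ∀ j < 3, j ≠ 1 → ∃ v < 3, ¬ 3 ∣ FF j v := by decide +kernel

set_option maxRecDepth 100000 in
lemma small5 : ∀ j < 5, j ≠ 0 → j ≠ 2 → ∃ v < 5, ¬ 5 ∣ FF j v := by decide +kernel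

set_option maxRecDepth 100000 in
lemma small7 : ∀ j < 7, ∃ v < 7, ¬ 7 ∣ FF j v := by decide +kernel

set_option maxRecDepth 100000 in
lemma small11 : ∀ j < 11, ∃ v < 11, ¬ 11 ∣ FF j v := by decide +kernel

set_option maxRecDepth 100000 in
lemma small13 : ∀ j < 13, ∃ v < 13, ¬ 13 ∣ FF j v := by decide +kernel

set_option maxRecDepth 100000 in
lemma small17 : ∀ j < 17, ∃ v < 17, ¬ 17 ∣ FF j v := by decide +kernel

/-- the modulus -/
def MM : ℕ := 510510

lemma small_all {j : ℕ} (h3 : j % 3 ≠ 1) (h5 : j % 5 ≠ 0) (h5' : j % 5 ≠ 2) :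
    ∃ v : ℕ, v < MM ∧ ∀ w : ℕ, w ≡ v [MOD MM] →
      ∀ p : ℕ, p.Prime → p < 19 → ¬ p ∣ FF j w := by
  obtain ⟨c3, -, a3⟩ := small3 (j % 3) (Nat.mod_lt _ (by norm_num)) h3
  obtain ⟨c5, -, a5⟩ := small5 (j % 5) (Nat.mod_lt _ (by norm_num)) h5 h5'
  obtain ⟨c7, -, a7⟩ := small7 (j % 7) (Nat.mod_lt _ (by norm_num))
  obtain ⟨c11, -, a11⟩ := small11 (j % 11) (Nat.mod_lt _ (by norm_num))
  obtain ⟨c13, -, a13⟩ := small13 (j % 13) (Nat.mod_lt _ (by norm_num))
  obtain ⟨c17, -, a17⟩ := small17 (j % 17) (Nat.mod_lt _ (by norm_num))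
  have a2 := small2 (j % 2) (Nat.mod_lt _ (by norm_num))
  obtain ⟨v1, e1, f1⟩ := Nat.chineseRemainder (show Nat.Coprime 2 3 by norm_num) 0 c3
  obtain ⟨v2, e2, f2⟩ := Nat.chineseRemainder (show Nat.Coprime 6 5 by norm_num) v1 c5
  obtain ⟨v3, e3, f3⟩ := Nat.chineseRemainder (show Nat.Coprime 30 7 by norm_num) v2 c7
  obtain ⟨v4, e4, f4⟩ := Nat.chineseRemainder (show Nat.Coprime 210 11 by norm_num) v3 c11
  obtain ⟨v5, e5, f5⟩ := Nat.chineseRemainder (show Nat.Coprime 2310 13 by norm_num) v4 c13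
  obtain ⟨v6, e6, f6⟩ := Nat.chineseRemainder (show Nat.Coprime 30030 17 by norm_num) v5 c17
  refine ⟨v6 % MM, Nat.mod_lt _ (by unfold MM; norm_num), fun w hw p hp hp19 hd => ?_⟩
  have hw' : w ≡ v6 [MOD MM] := hw.trans (Nat.mod_modEq _ _)
  have g : ∀ q : ℕ, q ∣ MM → w ≡ v6 [MOD q] := fun q hq => hw'.of_dvd hq
  have g17 : w ≡ c17 [MOD 17] := (g 17 (by unfold MM; norm_num)).trans f6
  have g13 : w ≡ c13 [MOD 13] := ((g 13 (by unfold MM; norm_num)).trans
    (e6.of_dvd (by norm_num))).trans f5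
  have g11 : w ≡ c11 [MOD 11] := (((g 11 (by unfold MM; norm_num)).trans
    (e6.of_dvd (by norm_num))).trans (e5.of_dvd (by norm_num))).trans f4
  have g7 : w ≡ c7 [MOD 7] := ((((g 7 (by unfold MM; norm_num)).trans
    (e6.of_dvd (by norm_num))).trans (e5.of_dvd (by norm_num))).trans
    (e4.of_dvd (by norm_num))).trans f3
  have g5 : w ≡ c5 [MOD 5] := (((((g 5 (by unfold MM; norm_num)).trans
    (e6.of_dvd (by norm_num))).trans (e5.of_dvd (by norm_num))).trans
    (e4.of_dvd (by norm_num))).trans (e3.of_dvd (by norm_num))).trans f2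
  have g3 : w ≡ c3 [MOD 3] := ((((((g 3 (by unfold MM; norm_num)).trans
    (e6.of_dvd (by norm_num))).trans (e5.of_dvd (by norm_num))).trans
    (e4.of_dvd (by norm_num))).trans (e3.of_dvd (by norm_num))).trans
    (e2.of_dvd (by norm_num))).trans f1
  have g2 : w ≡ 0 [MOD 2] := ((((((g 2 (by unfold MM; norm_num)).trans
    (e6.of_dvd (by norm_num))).trans (e5.of_dvd (by norm_num))).trans
    (e4.of_dvd (by norm_num))).trans (e3.of_dvd (by norm_num))).trans
    (e2.of_dvd (by norm_num))).trans e1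
  have hj : ∀ q : ℕ, j ≡ j % q [MOD q] := fun q => (Nat.mod_modEq _ _).symm
  have hc : p = 2 ∨ p = 3 ∨ p = 5 ∨ p = 7 ∨ p = 11 ∨ p = 13 ∨ p = 17 := by
    interval_cases p <;> first | omega | (exfalso; revert hp; norm_num)
  rcases hc with rfl | rfl | rfl | rfl | rfl | rfl | rfl
  · exact a2 (FF_dvd (hj 2) g2 hd)
  · exact a3 (FF_dvd (hj 3) g3 hd)
  · exact a5 (FF_dvd (hj 5) g5 hd)
  · exact a7 (FF_dvd (hj 7) g7 hd)
  · exact a11 (FF_dvd (hj 11) g11 hd)
  · exact a13 (FF_dvd (hj 13) g13 hd)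
  · exact a17 (FF_dvd (hj 17) g17 hd)

/-! ### counting the excluded classes -/

section
variable {p : ℕ} [hp : Fact p.Prime]

lemma num_ne {p : ℕ} (h19 : 19 ≤ p) [Fact p.Prime] (m : ℕ) (h0 : 0 < m) (hm : m < 19) :
    (m : ZMod p) ≠ 0 := by
  intro h
  rw [ZMod.natCast_eq_zero_iff] at h
  have := Nat.le_of_dvd h0 h
  omega

lemma deg_FF (a : ZMod p) : (FF (C a) (X : (ZMod p)[X])).natDegree ≤ 14 := by
  have h0 : (A0 (C a) (X : (ZMod p)[X])).natDegree ≤ 2 := by
    unfold A0 X0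
    compute_degree
  have h1 : (A1 (C a) (X : (ZMod p)[X])).natDegree ≤ 2 := by
    unfold A1 X1 X0
    compute_degree
  have h2 : (A2 (C a) (X : (ZMod p)[X])).natDegree ≤ 4 := by
    unfold A2 X2 X1 X0 Y2
    compute_degree
  have h3 : (A3 (C a) (X : (ZMod p)[X])).natDegree ≤ 4 := by
    unfold A3 X3 X2 X1 X0 Y3 Y2
    compute_degree
  have h4 : (NN (C a) (X : (ZMod p)[X])).natDegree ≤ 2 := by
    unfold NN X0
    compute_degree
  unfold FF
  refine (natDegree_mul_le_of_le (natDegree_mul_le_of_le (natDegree_mul_le_of_le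
    (natDegree_mul_le_of_le h0 h1) h2) h3) h4).trans (by norm_num)

lemma ne_FF (h19 : 19 ≤ p) (a : ZMod p) : FF (C a) (X : (ZMod p)[X]) ≠ 0 := by
  have n2 : (2 : ZMod p) ≠ 0 := by exact_mod_cast num_ne h19 2 (by norm_num) (by norm_num)
  have n3 : (3 : ZMod p) ≠ 0 := by exact_mod_cast num_ne h19 3 (by norm_num) (by norm_num)
  have n4 : (4 : ZMod p) ≠ 0 := by exact_mod_cast num_ne h19 4 (by norm_num) (by norm_num)
  have n5 : (5 : ZMod p) ≠ 0 := by exact_mod_cast num_ne h19 5 (by norm_num) (by norm_num)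
  have h0 : A0 (C a) (X : (ZMod p)[X]) ≠ 0 := by
    intro h
    have e1 := congrArg (eval (-1)) h
    have e2 := congrArg (eval 0) h
    simp only [A0, X0, eval_add, eval_mul, eval_pow, eval_C, eval_X, eval_one, eval_ofNat,
      eval_zero] at e1 e2
    apply n3
    linear_combination e2 - (4 * a - 1) * e1
  have h1 : A1 (C a) (X : (ZMod p)[X]) ≠ 0 := by
    intro h
    have e1 := congrArg (eval (-1)) h
    have e2 := congrArg (eval 0) h
    simp only [A1, X1, X0, eval_add, eval_mul, eval_pow, eval_C, eval_X, eval_one, eval_ofNat,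
      eval_zero] at e1 e2
    apply n5
    linear_combination 4 * e2 - (16 * a + 3) * e1
  have h2 : A2 (C a) (X : (ZMod p)[X]) ≠ 0 := by
    intro h
    have e1 := congrArg (eval (-1)) h
    have e2 := congrArg (eval 0) h
    simp only [A2, X2, X1, X0, Y2, eval_add, eval_mul, eval_pow, eval_C, eval_X, eval_one,
      eval_ofNat, eval_zero] at e1 e2
    apply one_ne_zero (α := ZMod p)
    linear_combination e2 - (4 * a) * e1
  have h3 : A3 (C a) (X : (ZMod p)[X]) ≠ 0 := by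
    intro h
    have e1 := congrArg (eval (-1)) h
    simp only [A3, X3, X2, X1, X0, Y3, Y2, eval_add, eval_mul, eval_pow, eval_C, eval_X, eval_one,
      eval_ofNat, eval_zero] at e1
    apply one_ne_zero (α := ZMod p)
    linear_combination e1
  have h4 : NN (C a) (X : (ZMod p)[X]) ≠ 0 := by
    intro h
    have e1 := congrArg (eval (-1)) h
    have e2 := congrArg (eval 0) h
    simp only [NN, X0, eval_add, eval_mul, eval_pow, eval_C, eval_X, eval_one, eval_ofNat,
      eval_zero] at e1 e2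
    apply n4
    linear_combination e2 - (16 * a - 3) * e1
  unfold FF
  exact mul_ne_zero (mul_ne_zero (mul_ne_zero (mul_ne_zero h0 h1) h2) h3) h4

end

/-- `p` divides the product at `v = MM k + v0` -/
def Dv (j v0 p k : ℕ) : Prop := p ∣ FF j (MM * k + v0)

instance (j v0 p : ℕ) : DecidablePred (Dv j v0 p) := fun n => by unfold Dv; infer_instance

lemma Dv_mod {j v0 p k : ℕ} (h : Dv j v0 p k) : Dv j v0 p (k % p) := by
  refine FF_dvd (Nat.ModEq.refl j) ?_ h
  exact ((Nat.mod_modEq k p).symm.mul_left MM).add_right v0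

lemma MM_cop {p : ℕ} (hp : p.Prime) (h19 : 19 ≤ p) : ¬ p ∣ MM := by
  intro h
  have e : MM = 2 * 3 * 5 * 7 * 11 * 13 * 17 := by unfold MM; norm_num
  rw [e] at h
  have hh : ∀ q : ℕ, 0 < q → q < 19 → ¬ p ∣ q := fun q h0 h1 h2 => by
    have := Nat.le_of_dvd h0 h2
    omega
  rcases (hp.dvd_mul).1 h with h | h
  · rcases (hp.dvd_mul).1 h with h | h
    · rcases (hp.dvd_mul).1 h with h | h
      · rcases (hp.dvd_mul).1 h with h | h
        · rcases (hp.dvd_mul).1 h with h | h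
          · rcases (hp.dvd_mul).1 h with h | h
            · exact hh 2 (by norm_num) (by norm_num) h
            · exact hh 3 (by norm_num) (by norm_num) h
          · exact hh 5 (by norm_num) (by norm_num) h
        · exact hh 7 (by norm_num) (by norm_num) h
      · exact hh 11 (by norm_num) (by norm_num) h
    · exact hh 13 (by norm_num) (by norm_num) h
  · exact hh 17 (by norm_num) (by norm_num) h

lemma Dv_card {j v0 p : ℕ} (hp : p.Prime) (h19 : 19 ≤ p) :
    ((range p).filter (Dv j v0 p)).card ≤ 14 := by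
  have : Fact p.Prime := ⟨hp⟩
  obtain ⟨P, hP⟩ : ∃ P : (ZMod p)[X], P = FF (C (j : ZMod p)) X := ⟨_, rfl⟩
  have hP0 : P ≠ 0 := by rw [hP]; exact ne_FF h19 _
  have hPd : P.natDegree ≤ 14 := by rw [hP]; exact deg_FF _
  have h1 : ((range p).filter (Dv j v0 p)).card ≤ P.roots.toFinset.card := by
    apply card_le_card_of_injOn (fun k : ℕ => ((MM * k + v0 : ℕ) : ZMod p))
    · intro k hk
      rw [mem_coe, mem_filter] at hk
      have h2 : ((FF j (MM * k + v0) : ℕ) : ZMod p) = 0 := (ZMod.natCast_eq_zero_iff _ _).2 hk.2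
      rw [FF_cast] at h2
      rw [mem_coe, Multiset.mem_toFinset, mem_roots hP0, IsRoot.def, hP]
      have h3 := FF_map (evalRingHom (((MM * k + v0 : ℕ) : ZMod p))) (C (j : ZMod p)) X
      rw [coe_evalRingHom, eval_C, eval_X] at h3
      show eval ((((MM * k + v0 : ℕ) : ZMod p))) (FF (C (j : ZMod p)) X) = 0
      rw [h3]
      exact h2
    · intro k hk l hl hkl
      rw [mem_coe, mem_filter, mem_range] at hk hl
      have h2 : MM * k + v0 ≡ MM * l + v0 [MOD p] := (ZMod.natCast_eq_natCast_iff _ _ p).1 hkl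
      have h3 : MM * k ≡ MM * l [MOD p] := Nat.ModEq.add_right_cancel' v0 h2
      have h4 : Nat.Coprime p MM := (Nat.Prime.coprime_iff_not_dvd hp).2 (MM_cop hp h19)
      have h5 : k ≡ l [MOD p] := Nat.ModEq.cancel_left_of_coprime (by
        rw [Nat.coprime_iff_gcd_eq_one] at h4; exact h4) h3
      exact Nat.ModEq.eq_of_lt_of_lt h5 hk.1 hl.1
  exact h1.trans ((Multiset.toFinset_card_le _).trans ((card_roots' P).trans hPd))

/-- primes from `19` up to the sifting limit -/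
def Sq (I : ℕ) : Finset ℕ := (Icc 19 (2 ^ 2 ^ I)).filter (fun p => p.Prime)

lemma mem_Sq {I p : ℕ} : p ∈ Sq I ↔ 19 ≤ p ∧ p ≤ 2 ^ 2 ^ I ∧ p.Prime := by
  rw [Sq, mem_filter, mem_Icc, and_assoc]

theorem siftS (j v0 I : ℕ) (hI : 1 ≤ I) (k : ℕ) :
    (k : ℝ) * (Real.exp (-224) ^ I / 2) - (2 : ℝ) ^ (2972 * 2 ^ I)
      ≤ (((Ioc 0 k).filter (fun n => ∀ p ∈ Sq I, ¬ Dv j v0 p n)).card : ℝ) := by
  have h := sift_gen 7 (by norm_num) (Sq I) (fun p hp => (mem_Sq.1 hp).2.2) (Dv j v0)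
    (fun p _ n h => Dv_mod h) (by
      intro p hp
      obtain ⟨h19, -, hpp⟩ := mem_Sq.1 hp
      have := Dv_card (j := j) (v0 := v0) hpp h19
      omega) (by
      intro p hp
      obtain ⟨h19, -, hpp⟩ := mem_Sq.1 hp
      exact Dv_card hpp h19) I hI (fun p hp => (mem_Sq.1 hp).2.1) k
  have e : (-(32 * ((7 : ℕ) : ℝ))) = -224 := by norm_num
  rw [e] at h
  exact h

end Pool.Agent.H496R3.Shift
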