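import Pool.Agent.H496R3.SympGenContr

/-!
# Right translation of the charts
-/

namespace Pool.Agent.H496R3

open Set Filter Topology
open scoped ContDiff unitInterval

variable {n : ℕ}

lemma Symp.comp_comp_inv (φ ψ : Symp n) : (φ.comp ψ).comp ψ.inv = φ := by
  apply Symp.ext
  intro z
  simp

/-- right translation is continuous for the direct limit topology -/
lemma continuous_comp_right (ψ : Symp n) : Continuous (fun φ : Symp n => φ.comp ψ) := by
  rw [continuous_symp_dom]
  intro K hK
  obtain ⟨M, hM, hMψ⟩ := ψ.compact_support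
  have h1 : ∀ φ : SympIn n K, ∀ z ∉ K ∪ M, (φ.1.comp ψ).toEquiv z = z := by
    intro φ z hz
    simp only [mem_union, not_or] at hz
    rw [Symp.comp_apply, hMψ z hz.2, φ.2 z hz.1]
  have h2 : Continuous (fun φ : SympIn n K => (⟨φ.1.comp ψ, h1 φ⟩ : SympIn n (K ∪ M))) := by
    rw [continuous_sympIn_iff]
    intro k
    refine pc_comp (f := fun φ : SympIn n K => φ.1) (g := fun _ : SympIn n K => ψ) (pc_taut k) ?_
    exact PC.of_contDiff (ψ.smooth.of_le (by exact_mod_cast le_top)) univ
  exact (continuous_incl (hK.union hM)).comp h2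

/-- right translation is a homeomorphism for the direct limit topology -/
def rightHomeo (ψ : Symp n) : Symp n ≃ₜ Symp n where
  toFun φ := φ.comp ψ.inv
  invFun φ := φ.comp ψ
  left_inv φ := Symp.comp_inv_comp φ ψ
  right_inv φ := Symp.comp_comp_inv φ ψ
  continuous_toFun := continuous_comp_right ψ.inv
  continuous_invFun := continuous_comp_right ψ

theorem chart_at {L : Phase n →L[ℝ] Phase n} (hL : IsChartMap L) (ψ : Symp n) :
    IsOpen {φ : Symp n | InChart L (φ.comp ψ.inv)} ∧ InChart L (ψ.comp ψ.inv) ∧
      ContractibleSpace {φ : Symp n // InChart L (φ.comp ψ.inv)} := by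
  refine ⟨(isOpen_inChart L).preimage (rightHomeo ψ).continuous, ?_, ?_⟩
  · apply inChart_of_eq_id
    intro z
    simp
  · have h1 := contractible_chart hL
    have e : {φ : Symp n // InChart L (φ.comp ψ.inv)} ≃ₜ {φ : Symp n // InChart L φ} :=
      (rightHomeo ψ).subtype (fun φ => Iff.rfl)
    exact e.contractibleSpace

end Pool.Agent.H496R3
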