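import Mathlib

/-!
# Compactly supported symplectomorphisms of `ℝ^{2n}` and their `C^∞` direct limit topology
-/

namespace Pool.Agent.H496R3

open scoped ContDiff

/-- `ℝ^{2n}` with coordinates `(x, y)`, `x, y ∈ ℝ^n`. -/
abbrev Phase (n : ℕ) : Type := (Fin n → ℝ) × (Fin n → ℝ)

/-- The standard symplectic form `ω_st = ∑ dx_i ∧ dy_i` on `ℝ^{2n}`. -/
def stdForm {n : ℕ} (u v : Phase n) : ℝ := ∑ i, (u.1 i * v.2 i - v.1 i * u.2 i)

/-- Compactly supported symplectomorphisms of `(ℝ^{2n}, ω_st)`: smooth bijections with smooth
inverse which preserve `ω_st` and are the identity outside some compact set. -/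
structure Symp (n : ℕ) where
  /-- the underlying bijection of `ℝ^{2n}` -/
  toEquiv : Phase n ≃ Phase n
  /-- it is smooth -/
  smooth : ContDiff ℝ ∞ toEquiv
  /-- its inverse is smooth -/
  smooth_symm : ContDiff ℝ ∞ toEquiv.symm
  /-- it preserves the standard symplectic form -/
  symplectic : ∀ z u v : Phase n,
    stdForm (fderiv ℝ toEquiv z u) (fderiv ℝ toEquiv z v) = stdForm u v
  /-- it is the identity outside some compact set -/
  compact_support : ∃ K : Set (Phase n), IsCompact K ∧ ∀ z ∉ K, toEquiv z = z

/-- The compactly supported symplectomorphisms supported in `K`, i.e. equal to the identity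
outside `K`. -/
@[ext]
structure SympIn (n : ℕ) (K : Set (Phase n)) where
  /-- the underlying compactly supported symplectomorphism -/
  val : Symp n
  /-- it is the identity outside `K` -/
  property : ∀ z ∉ K, val.toEquiv z = z

/-- All the derivatives `D^k φ`, `k ≥ 0`, of `φ`, as continuous maps on `ℝ^{2n}`. -/
noncomputable def jets {n : ℕ} (φ : Symp n) (k : ℕ) :
    C(Phase n, Phase n [×k]→L[ℝ] Phase n) :=
  ⟨iteratedFDeriv ℝ k φ.toEquiv,
    φ.smooth.continuous_iteratedFDeriv (by exact_mod_cast le_top)⟩

/-- The `C^∞` topology on the symplectomorphisms supported in `K`: uniform convergence, on compact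
sets, of all derivatives (the spaces of continuous maps carry the compact-open topology). -/
noncomputable instance cinfTopology (n : ℕ) (K : Set (Phase n)) : TopologicalSpace (SympIn n K) :=
  TopologicalSpace.induced (fun φ (k : ℕ) => jets φ.1 k) inferInstance

/-- The topology of the group of compactly supported symplectomorphisms: the direct limit, over
all compact `K`, of the `C^∞` topologies on the symplectomorphisms supported in `K`. -/
noncomputable instance limitTopology (n : ℕ) : TopologicalSpace (Symp n) :=
  ⨆ K : TopologicalSpace.Compacts (Phase n),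
    TopologicalSpace.coinduced (fun φ : SympIn n (K : Set (Phase n)) => φ.1) inferInstance

end Pool.Agent.H496R3
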