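import Pool.Agent.H496R3.SympPath

/-!
# Continuity of the contraction, openness
-/

namespace Pool.Agent.H496R3

open Set Filter Topology
open scoped ContDiff unitInterval

variable {n : ℕ}

section Families

variable {S : Type} [TopologicalSpace S]

lemma pc_inv {f : S → Symp n} {K : Set (Phase n)} (hK : IsCompact K)
    (hf : ∀ k, PC k (fun s z => (f s).toEquiv z) univ)
    (hfK : ∀ s, ∀ z ∉ K, (f s).toEquiv z = z) (k : ℕ) :
    PC k (fun s z => (f s).inv.toEquiv z) univ :=
  pc_inv_family (F := fun s z => (f s).toEquiv z) (J := fun s z => (f s).inv.toEquiv z) hK hf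
    (fun s z => (f s).toEquiv.symm_apply_apply z)
    (fun s z => (f s).toEquiv.apply_symm_apply z) hfK (fun s z => (f s).isUnit_fderiv z) k

lemma pc_comp {f g : S → Symp n} {k : ℕ}
    (hf : PC k (fun s z => (f s).toEquiv z) univ)
    (hg : PC k (fun s z => (g s).toEquiv z) univ) :
    PC k (fun s z => ((f s).comp (g s)).toEquiv z) univ :=
  hf.comp hg (fun _ _ => mem_univ _)

lemma pc_contr {f : S → Symp n} {K : Set (Phase n)} (hK : IsCompact K)
    (hf : ∀ k, PC k (fun s z => (f s).toEquiv z) univ)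
    (hfK : ∀ s, ∀ z ∉ K, (f s).toEquiv z = z) (hg : ∀ s, NoNegEig (f s)) {c d : S → ℝ}
    (hc : Continuous c) (hd : Continuous d) (hc0 : ∀ s, 0 ≤ c s) (hd0 : ∀ s, 0 ≤ d s)
    (hcd : ∀ s, c s + d s = 1) (k : ℕ) :
    PC k (fun s z => (contr (f s) (hg s) (c s) (d s) (hc0 s) (hd0 s) (hcd s)).toEquiv z) univ := by
  have h1 : ∀ k, PC k (fun s z => comb (c s) (d s) (f s).toEquiv z) univ := fun k =>
    pc_comb hc hd (hf k)
  have h2 : PC k (fun s z => comb (d s) (c s) (f s).toEquiv z) univ := pc_comb hd hc (hf k)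
  have h3 : PC k (fun s z => (combEquiv (f s) (hg s) (c s) (d s) (hc0 s) (hd0 s)
      (hcd s)).symm z) univ := by
    refine pc_inv_family (F := fun s z => comb (c s) (d s) (f s).toEquiv z) hK h1 ?_ ?_ ?_ ?_ k
    · intro s z
      exact (combEquiv (f s) (hg s) (c s) (d s) (hc0 s) (hd0 s) (hcd s)).symm_apply_apply z
    · intro s z
      exact (combEquiv (f s) (hg s) (c s) (d s) (hc0 s) (hd0 s) (hcd s)).apply_symm_apply z
    · intro s z hz
      exact comb_off (hcd s) (hfK s z hz)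
    · intro s z
      exact isUnit_fderiv_combEquiv (f s) (hg s) (c s) (d s) (hc0 s) (hd0 s) (hcd s) z
  exact h2.comp h3 (fun _ _ => mem_univ _)

end Families

/-! ### Endpoints -/

lemma contr_one (φ : Symp n) (hφ : NoNegEig φ) (c d : ℝ) (hc : 0 ≤ c) (hd : 0 ≤ d)
    (hcd : c + d = 1) (hc1 : c = 1) : contr φ hφ c d hc hd hcd = φ := by
  have hd1 : d = 0 := by linarith
  subst hc1 hd1
  apply Symp.ext
  intro z
  have h1 : (combEquiv φ hφ 1 0 hc hd hcd).symm z = z := by
    rw [Equiv.symm_apply_eq, combEquiv_apply, comb]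
    simp
  rw [contr_apply, h1, comb]
  simp

lemma contr_half (φ : Symp n) (hφ : NoNegEig φ) (c d : ℝ) (hc : 0 ≤ c) (hd : 0 ≤ d)
    (hcd : c + d = 1) (hc1 : c = 1 / 2) (z : Phase n) :
    (contr φ hφ c d hc hd hcd).toEquiv z = z := by
  have hd1 : d = 1 / 2 := by linarith
  subst hc1 hd1
  obtain ⟨w, rfl⟩ := (combEquiv φ hφ (1 / 2) (1 / 2) hc hd hcd).surjective z
  rw [contr_apply, Equiv.symm_apply_apply]
  rfl

lemma contr_id (φ : Symp n) (hφ : NoNegEig φ) (c d : ℝ) (hc : 0 ≤ c) (hd : 0 ≤ d)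
    (hcd : c + d = 1) (hid : ∀ z, φ.toEquiv z = z) (z : Phase n) :
    (contr φ hφ c d hc hd hcd).toEquiv z = z := by
  have h1 : (combEquiv φ hφ c d hc hd hcd).symm z = z := by
    rw [Equiv.symm_apply_eq, combEquiv_apply, comb_off hcd (hid z)]
  rw [contr_apply, h1, comb_off (by rw [add_comm]; exact hcd) (hid z)]

/-- the identity -/
def Symp.one (n : ℕ) : Symp n where
  toEquiv := Equiv.refl _
  smooth := contDiff_id
  smooth_symm := contDiff_id
  symplectic := by
    intro z u v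
    have h : _root_.fderiv ℝ (⇑(Equiv.refl (Phase n))) z = ContinuousLinearMap.id ℝ (Phase n) :=
      fderiv_id
    rw [h]
    rfl
  compact_support := ⟨∅, isCompact_empty, fun _ _ => rfl⟩

lemma noNegEig_of_eq_id {φ : Symp n} (hid : ∀ z, φ.toEquiv z = z) : NoNegEig φ := by
  rw [noNegEig_iff]
  intro z
  have h : _root_.fderiv ℝ φ.toEquiv z = 1 := by
    have h1 : (φ.toEquiv : Phase n → Phase n) = id := funext hid
    rw [h1]
    exact fderiv_id
  rw [h]
  exact noNeg_one

/-- openness at fixed support -/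
lemma isOpen_noNegEig_sympIn {K : Set (Phase n)} (hK : IsCompact K) :
    IsOpen {φ : SympIn n K | NoNegEig φ.1} := by
  rw [isOpen_iff_eventually]
  intro φ hφ
  have hφ : NoNegEig φ.1 := hφ
  have hD : Continuous (fun p : SympIn n K × Phase n => _root_.fderiv ℝ p.1.1.toEquiv p.2) :=
    PC.continuous_fderiv (F := fun (φ : SympIn n K) z => φ.1.toEquiv z) (pc_taut 1)
  have h1 : ∀ᶠ ψ : SympIn n K in 𝓝 φ, ∀ z ∈ K, NoNeg (_root_.fderiv ℝ ψ.1.toEquiv z) := by
    refine IsCompact.eventually_forall_of_forall_eventually hK ?_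
    intro z _
    exact (isOpen_noNeg.preimage hD).mem_nhds (x := (φ, z)) (noNegEig_iff.1 hφ z)
  filter_upwards [h1] with ψ hψ
  rw [noNegEig_iff]
  intro z
  by_cases hz : z ∈ K
  · exact hψ z hz
  · have h2 : _root_.fderiv ℝ ψ.1.toEquiv z = 1 := by
      have h3 : (ψ.1.toEquiv : Phase n → Phase n) =ᶠ[𝓝 z] id := by
        filter_upwards [hK.isClosed.isOpen_compl.mem_nhds hz] with w hw
        exact ψ.2 w hw
      rw [h3.fderiv_eq]
      exact fderiv_id
    rw [h2]
    exact noNeg_one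

lemma isOpen_noNegEig : IsOpen {φ : Symp n | NoNegEig φ} := by
  rw [isOpen_symp_iff]
  intro K hK
  exact isOpen_noNegEig_sympIn hK

end Pool.Agent.H496R3
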