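import Pool.Agent.H496R3.SympPi

/-!
# Linear generating function charts of the group of compactly supported symplectomorphisms

For a linear map `L` of `ℝ^{2n}` with `ω(Lu, v) + ω(u, Lv) = ω(u, v)` we contract the set of
symplectomorphisms `φ` for which `1 + r L (Dφ(z) - 1)` is invertible for all `z` and `r ∈ [0, 1]`.
-/

namespace Pool.Agent.H496R3

open Set Filter Topology
open scoped ContDiff unitInterval Topology.Homotopy

variable {n : ℕ}

/-- `L` is the linear projection, up to scale, of a linear generating function chart: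
`ω(L u, v) + ω(u, L v) = ω(u, v)`. Examples: `L = 1/2` and `L (x, y) = (x, 0)`. -/
def IsChartMap (L : Phase n →L[ℝ] Phase n) : Prop :=
  ∀ u v : Phase n, stdForm (L u) v + stdForm u (L v) = stdForm u v

/-- `φ` is in the domain of the chart `L`: the linear maps `1 + r L (Dφ(z) - 1)`, `z ∈ ℝ^{2n}`,
`0 ≤ r ≤ 1`, are injective. -/
def InChart (L : Phase n →L[ℝ] Phase n) (φ : Symp n) : Prop :=
  ∀ (z : Phase n) (r : ℝ), 0 ≤ r → r ≤ 1 →
    ∀ u : Phase n, u + r • L (_root_.fderiv ℝ φ.toEquiv z u - u) = 0 → u = 0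

lemma inChart_iff {L : Phase n →L[ℝ] Phase n} {φ : Symp n} :
    InChart L φ ↔ ∀ (z : Phase n) (r : ℝ), 0 ≤ r → r ≤ 1 →
      IsUnit ((1 : Phase n →L[ℝ] Phase n) + r • (L * (_root_.fderiv ℝ φ.toEquiv z - 1))) := by
  have key : ∀ (z : Phase n) (r : ℝ),
      IsUnit ((1 : Phase n →L[ℝ] Phase n) + r • (L * (_root_.fderiv ℝ φ.toEquiv z - 1))) ↔
      ∀ u : Phase n, u + r • L (_root_.fderiv ℝ φ.toEquiv z u - u) = 0 → u = 0 := by
    intro z r
    rw [ContinuousLinearMap.isUnit_iff_isUnit_toLinearMap, LinearMap.isUnit_iff_ker_eq_bot,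
        LinearMap.ker_eq_bot']
    rfl
  simp only [InChart, key]

/-- the diffeomorphism `z ↦ z + r L (f z - z)` -/
def gmap (L : Phase n →L[ℝ] Phase n) (r : ℝ) (f : Phase n → Phase n) (z : Phase n) : Phase n :=
  z + r • L (f z - z)

lemma contDiff_gmap {L : Phase n →L[ℝ] Phase n} {r : ℝ} {m : WithTop ℕ∞}
    {f : Phase n → Phase n} (hf : ContDiff ℝ m f) : ContDiff ℝ m (gmap L r f) :=
  contDiff_id.add ((L.contDiff.comp (hf.sub contDiff_id)).const_smul r)

lemma hasFDerivAt_gmap {L : Phase n →L[ℝ] Phase n} {r : ℝ} {f : Phase n → Phase n}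
    {z : Phase n} {A : Phase n →L[ℝ] Phase n} (hf : HasFDerivAt f A z) :
    HasFDerivAt (gmap L r f) ((1 : Phase n →L[ℝ] Phase n) + r • (L * (A - 1))) z :=
  (hasFDerivAt_id z).add ((L.hasFDerivAt.comp z (hf.sub (hasFDerivAt_id z))).const_smul r)

lemma gmap_off {L : Phase n →L[ℝ] Phase n} {r : ℝ} {f : Phase n → Phase n} {z : Phase n}
    (hz : f z = z) : gmap L r f z = z := by
  rw [gmap, hz, sub_self, map_zero, smul_zero, add_zero]

lemma pc_gmap {L : Phase n →L[ℝ] Phase n} {S : Type} [TopologicalSpace S] {r : S → ℝ}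
    (hr : Continuous r) {F : S → Phase n → Phase n} {U : Set (S × Phase n)} {k : ℕ}
    (hF : PC k F U) : PC k (fun s z => gmap L (r s) (F s) z) U := by
  have h1 : PC k (fun (_ : S) (z : Phase n) => z) U := PC.of_contDiff contDiff_id U
  exact h1.add (PC.smul hr ((hF.sub h1).clm_comp L))

section

variable (L : Phase n →L[ℝ] Phase n) (φ : Symp n) (hφ : InChart L φ) (r : ℝ) (hr0 : 0 ≤ r)
  (hr1 : r ≤ 1)

include hφ hr0 hr1 in
lemma isUnit_fderiv_gmap (z : Phase n) : IsUnit (_root_.fderiv ℝ (gmap L r φ.toEquiv) z) := by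
  rw [(hasFDerivAt_gmap (φ.differentiableAt z).hasFDerivAt).fderiv]
  exact inChart_iff.1 hφ z r hr0 hr1

include hφ hr0 hr1 in
lemma gmap_bijective : Function.Bijective (gmap L r φ.toEquiv) := by
  obtain ⟨K, hK, hKφ⟩ := φ.compact_support
  exact bijective_of_isUnit_fderiv hK (contDiff_gmap (φ.smooth.of_le (by simp)))
    (fun z hz => gmap_off (hKφ z hz)) (isUnit_fderiv_gmap L φ hφ r hr0 hr1)

/-- the diffeomorphism `a_r : z ↦ z + r L (φ z - z)` -/
noncomputable def gEquiv : Phase n ≃ Phase n :=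
  Equiv.ofBijective (gmap L r φ.toEquiv) (gmap_bijective L φ hφ r hr0 hr1)

@[simp] lemma gEquiv_apply (z : Phase n) :
    gEquiv L φ hφ r hr0 hr1 z = gmap L r φ.toEquiv z := rfl

lemma contDiff_gEquiv_symm : ContDiff ℝ ∞ (gEquiv L φ hφ r hr0 hr1).symm := by
  obtain ⟨K, hK, hKφ⟩ := φ.compact_support
  exact contDiff_symm_of_isUnit hK (contDiff_gmap φ.smooth)
    (fun z hz => gmap_off (hKφ z hz)) (isUnit_fderiv_gmap L φ hφ r hr0 hr1)

/-- the map `b_r = a_r + (1 - r) (φ - id)` -/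
def bmap (f : Phase n → Phase n) (z : Phase n) : Phase n := gmap L r f z + (1 - r) • (f z - z)

lemma contDiff_bmap : ContDiff ℝ ∞ (bmap L r φ.toEquiv) :=
  (contDiff_gmap φ.smooth).add ((φ.smooth.sub contDiff_id).const_smul _)

lemma hasFDerivAt_bmap (z : Phase n) :
    HasFDerivAt (bmap L r φ.toEquiv) (((1 : Phase n →L[ℝ] Phase n) +
      r • (L * (_root_.fderiv ℝ φ.toEquiv z - 1))) +
        (1 - r) • (_root_.fderiv ℝ φ.toEquiv z - 1)) z :=
  (hasFDerivAt_gmap (φ.differentiableAt z).hasFDerivAt).add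
    (((φ.differentiableAt z).hasFDerivAt.sub (hasFDerivAt_id z)).const_smul (1 - r))

end

lemma stdForm_sub_left (u u' v : Phase n) : stdForm (u - u') v = stdForm u v - stdForm u' v := by
  rw [sub_eq_add_neg, ← neg_one_smul ℝ u', stdForm_add_left, stdForm_smul_left]
  ring

lemma stdForm_sub_right (u v v' : Phase n) : stdForm u (v - v') = stdForm u v - stdForm u v' := by
  rw [sub_eq_add_neg, ← neg_one_smul ℝ v', stdForm_add_right, stdForm_smul_right]
  ring

lemma stdForm_nondeg {u : Phase n} (h : ∀ v, stdForm u v = 0) : u = 0 := by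
  ext i
  · have := h (0, Pi.single i 1)
    simpa [stdForm, Pi.single_apply] using this
  · have := h (Pi.single i 1, 0)
    simpa [stdForm, Pi.single_apply] using this

/-- the basic identity: `Db` and `Da` pull back `ω` to the same form -/
lemma stdForm_chart {L A : Phase n →L[ℝ] Phase n} (hL : IsChartMap L)
    (hA : ∀ u v, stdForm (A u) (A v) = stdForm u v) (r : ℝ) (u v : Phase n) :
    stdForm (u + r • L (A u - u) + (1 - r) • (A u - u))
      (v + r • L (A v - v) + (1 - r) • (A v - v)) =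
    stdForm (u + r • L (A u - u)) (v + r • L (A v - v)) := by
  have h1 := hL (A u - u) (A v - v)
  set e := A u - u with he
  set f := A v - v with hf
  have h2 : stdForm (u + e) (v + f) = stdForm u v := by
    rw [he, hf]
    simp only [add_sub_cancel]
    exact hA u v
  simp only [stdForm_add_left, stdForm_add_right, stdForm_smul_left, stdForm_smul_right] at h1 h2 ⊢
  linear_combination (1 - r) * h2 + (1 - r) * r * h1

section

variable (L : Phase n →L[ℝ] Phase n) (φ : Symp n) (hφ : InChart L φ) (r : ℝ) (hr0 : 0 ≤ r)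
  (hr1 : r ≤ 1)

/-- the values of the derivatives of `a` -/
lemma fderiv_gmap_apply (w u : Phase n) :
    (_root_.fderiv ℝ (gmap L r φ.toEquiv) w) u =
      u + r • L (_root_.fderiv ℝ φ.toEquiv w u - u) := by
  rw [(hasFDerivAt_gmap (φ.differentiableAt w).hasFDerivAt).fderiv]
  rfl

lemma fderiv_bmap_apply (w u : Phase n) :
    (_root_.fderiv ℝ (bmap L r φ.toEquiv) w) u =
      u + r • L (_root_.fderiv ℝ φ.toEquiv w u - u) +
        (1 - r) • (_root_.fderiv ℝ φ.toEquiv w u - u) := by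
  rw [(hasFDerivAt_bmap L φ r w).fderiv]
  rfl

include hφ hr0 hr1 in
lemma isUnit_fderiv_bmap (hL : IsChartMap L) (z : Phase n) :
    IsUnit (_root_.fderiv ℝ (bmap L r φ.toEquiv) z) := by
  rw [ContinuousLinearMap.isUnit_iff_isUnit_toLinearMap, LinearMap.isUnit_iff_ker_eq_bot,
    LinearMap.ker_eq_bot']
  intro u hu
  have hu' : (_root_.fderiv ℝ (bmap L r φ.toEquiv) z) u = 0 := hu
  rw [fderiv_bmap_apply] at hu'
  obtain ⟨U, hU⟩ := isUnit_fderiv_gmap L φ hφ r hr0 hr1 z
  refine hφ z r hr0 hr1 u ?_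
  apply stdForm_nondeg
  intro v
  -- `v = Da v'`
  obtain ⟨v', rfl⟩ : ∃ v', (_root_.fderiv ℝ (gmap L r φ.toEquiv) z) v' = v := by
    refine ⟨((U⁻¹ : (Phase n →L[ℝ] Phase n)ˣ) : Phase n →L[ℝ] Phase n) v, ?_⟩
    rw [← hU]
    exact congrArg (fun L : Phase n →L[ℝ] Phase n => L v) (Units.mul_inv U)
  rw [fderiv_gmap_apply, ← stdForm_chart hL (φ.symplectic z) r u v', hu']
  simp [stdForm]

include hφ hr0 hr1 in
lemma bmap_bijective (hL : IsChartMap L) : Function.Bijective (bmap L r φ.toEquiv) := by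
  obtain ⟨K, hK, hKφ⟩ := φ.compact_support
  refine bijective_of_isUnit_fderiv hK ((contDiff_bmap L φ r).of_le (by simp))
    (fun z hz => ?_) (isUnit_fderiv_bmap L φ hφ r hr0 hr1 hL)
  rw [bmap, gmap_off (hKφ z hz), hKφ z hz, sub_self, smul_zero, add_zero]

/-- the diffeomorphism `b_r` -/
noncomputable def bEquiv (hL : IsChartMap L) : Phase n ≃ Phase n :=
  Equiv.ofBijective (bmap L r φ.toEquiv) (bmap_bijective L φ hφ r hr0 hr1 hL)

lemma contDiff_bEquiv_symm (hL : IsChartMap L) :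
    ContDiff ℝ ∞ (bEquiv L φ hφ r hr0 hr1 hL).symm := by
  obtain ⟨K, hK, hKφ⟩ := φ.compact_support
  refine contDiff_symm_of_isUnit (f := bEquiv L φ hφ r hr0 hr1 hL) hK (contDiff_bmap L φ r)
    (fun z hz => ?_) (isUnit_fderiv_bmap L φ hφ r hr0 hr1 hL)
  change bmap L r φ.toEquiv z = z
  rw [bmap, gmap_off (hKφ z hz), hKφ z hz, sub_self, smul_zero, add_zero]

/-- the derivative of `b ∘ a⁻¹` at `a w` composed with the derivative of `a` -/
lemma fderiv_gcontr (hL : IsChartMap L) (w u : Phase n) :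
    (_root_.fderiv ℝ ((gEquiv L φ hφ r hr0 hr1).symm.trans (bEquiv L φ hφ r hr0 hr1 hL))
        (gEquiv L φ hφ r hr0 hr1 w)) (u + r • L (_root_.fderiv ℝ φ.toEquiv w u - u)) =
      u + r • L (_root_.fderiv ℝ φ.toEquiv w u - u) +
        (1 - r) • (_root_.fderiv ℝ φ.toEquiv w u - u) := by
  set a := gEquiv L φ hφ r hr0 hr1 with ha
  set b := bEquiv L φ hφ r hr0 hr1 hL with hb
  have hbs : ContDiff ℝ ∞ b := contDiff_bmap L φ r
  have h1 : ContDiff ℝ ∞ (a.symm.trans b) :=
    hbs.comp (contDiff_gEquiv_symm L φ hφ r hr0 hr1)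
  have h2 : HasFDerivAt (a.symm.trans b) (_root_.fderiv ℝ (a.symm.trans b) (a w)) (a w) :=
    (h1.differentiable (by simp) _).hasFDerivAt
  have h3 : HasFDerivAt a ((1 : Phase n →L[ℝ] Phase n) +
      r • (L * (_root_.fderiv ℝ φ.toEquiv w - 1))) w :=
    hasFDerivAt_gmap (φ.differentiableAt w).hasFDerivAt
  have h4 := hasFDerivAt_bmap L φ r w
  have h5 := h2.comp w h3
  have h6 : ((a.symm.trans b) ∘ a) = bmap L r φ.toEquiv := by
    funext z
    simp only [Function.comp_apply, Equiv.trans_apply, Equiv.symm_apply_apply]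
    rfl
  rw [h6] at h5
  exact congrArg (fun L : Phase n →L[ℝ] Phase n => L u) (h5.unique h4)

/-- The symplectomorphism `b_r ∘ a_r⁻¹`: it is `φ` for `r = 0` and the identity for `r = 1`. -/
noncomputable def gcontr (hL : IsChartMap L) : Symp n where
  toEquiv := (gEquiv L φ hφ r hr0 hr1).symm.trans (bEquiv L φ hφ r hr0 hr1 hL)
  smooth := (contDiff_bmap L φ r).comp (contDiff_gEquiv_symm L φ hφ r hr0 hr1)
  smooth_symm := (contDiff_gmap φ.smooth).comp (contDiff_bEquiv_symm L φ hφ r hr0 hr1 hL)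
  symplectic := by
    intro z u v
    obtain ⟨w, rfl⟩ := (gEquiv L φ hφ r hr0 hr1).surjective z
    obtain ⟨U, hU⟩ := inChart_iff.1 hφ w r hr0 hr1
    have hsurj : ∀ u : Phase n, ∃ u', u' + r • L (_root_.fderiv ℝ φ.toEquiv w u' - u') = u := by
      intro u
      refine ⟨((U⁻¹ : (Phase n →L[ℝ] Phase n)ˣ) : Phase n →L[ℝ] Phase n) u, ?_⟩
      have h := congrArg (fun L : Phase n →L[ℝ] Phase n => L u) (Units.mul_inv U)
      rw [hU] at h
      exact h
    obtain ⟨u', rfl⟩ := hsurj u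
    obtain ⟨v', rfl⟩ := hsurj v
    rw [fderiv_gcontr, fderiv_gcontr]
    exact stdForm_chart hL (φ.symplectic w) r u' v'
  compact_support := by
    obtain ⟨K, hK, hKφ⟩ := φ.compact_support
    refine ⟨K, hK, fun z hz => ?_⟩
    have h1 : (gEquiv L φ hφ r hr0 hr1).symm z = z := by
      rw [Equiv.symm_apply_eq, gEquiv_apply, gmap_off (hKφ z hz)]
    rw [Equiv.trans_apply, h1]
    change bmap L r φ.toEquiv z = z
    rw [bmap, gmap_off (hKφ z hz), hKφ z hz, sub_self, smul_zero, add_zero]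

lemma gcontr_apply (hL : IsChartMap L) (z : Phase n) :
    (gcontr L φ hφ r hr0 hr1 hL).toEquiv z =
      bmap L r φ.toEquiv ((gEquiv L φ hφ r hr0 hr1).symm z) := rfl

lemma gcontr_off (hL : IsChartMap L) {K : Set (Phase n)} (hK : ∀ z ∉ K, φ.toEquiv z = z) :
    ∀ z ∉ K, (gcontr L φ hφ r hr0 hr1 hL).toEquiv z = z := by
  intro z hz
  have h1 : (gEquiv L φ hφ r hr0 hr1).symm z = z := by
    rw [Equiv.symm_apply_eq, gEquiv_apply, gmap_off (hK z hz)]
  rw [gcontr_apply, h1, bmap, gmap_off (hK z hz), hK z hz, sub_self, smul_zero, add_zero]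

/-- the contraction stays in the chart -/
lemma inChart_gcontr (hL : IsChartMap L) : InChart L (gcontr L φ hφ r hr0 hr1 hL) := by
  intro z s hs0 hs1 u hu
  obtain ⟨w, rfl⟩ := (gEquiv L φ hφ r hr0 hr1).surjective z
  obtain ⟨U, hU⟩ := inChart_iff.1 hφ w r hr0 hr1
  obtain ⟨u', rfl⟩ : ∃ u', u' + r • L (_root_.fderiv ℝ φ.toEquiv w u' - u') = u := by
    refine ⟨((U⁻¹ : (Phase n →L[ℝ] Phase n)ˣ) : Phase n →L[ℝ] Phase n) u, ?_⟩
    have h := congrArg (fun L : Phase n →L[ℝ] Phase n => L u) (Units.mul_inv U)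
    rw [hU] at h
    exact h
  have h1 := fderiv_gcontr L φ hφ r hr0 hr1 hL w u'
  have h2 : u' + (r + s * (1 - r)) • L (_root_.fderiv ℝ φ.toEquiv w u' - u') = 0 := by
    have h3 : (_root_.fderiv ℝ (gcontr L φ hφ r hr0 hr1 hL).toEquiv
        (gEquiv L φ hφ r hr0 hr1 w)) (u' + r • L (_root_.fderiv ℝ φ.toEquiv w u' - u')) -
        (u' + r • L (_root_.fderiv ℝ φ.toEquiv w u' - u')) =
        (1 - r) • (_root_.fderiv ℝ φ.toEquiv w u' - u') := by
      rw [sub_eq_iff_eq_add, add_comm ((1 - r) • _)]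
      exact h1
    rw [h3, map_smul, smul_smul, add_assoc, ← add_smul] at hu
    exact hu
  have h3 : u' = 0 := by
    refine hφ w (r + s * (1 - r)) ?_ ?_ u' h2
    · have : 0 ≤ 1 - r := by linarith
      positivity
    · nlinarith
  rw [h3]
  simp

end

end Pool.Agent.H496R3
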