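import Pool.Agent.H496R3.SympGen

/-!
# The domains of the linear generating function charts are open and contractible
-/

namespace Pool.Agent.H496R3

open Set Filter Topology
open scoped ContDiff unitInterval Topology.Homotopy

variable {n : ℕ}

lemma pc_gcontr {S : Type} [TopologicalSpace S] {L : Phase n →L[ℝ] Phase n}
    (hL : IsChartMap L) {f : S → Symp n} {K : Set (Phase n)} (hK : IsCompact K)
    (hf : ∀ k, PC k (fun s z => (f s).toEquiv z) univ)
    (hfK : ∀ s, ∀ z ∉ K, (f s).toEquiv z = z) (hg : ∀ s, InChart L (f s)) {r : S → ℝ}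
    (hr : Continuous r) (hr0 : ∀ s, 0 ≤ r s) (hr1 : ∀ s, r s ≤ 1) (k : ℕ) :
    PC k (fun s z => (gcontr L (f s) (hg s) (r s) (hr0 s) (hr1 s) hL).toEquiv z) univ := by
  have h1 : ∀ k, PC k (fun s z => gmap L (r s) (f s).toEquiv z) univ := fun k =>
    pc_gmap hr (hf k)
  have h2 : PC k (fun s z => bmap L (r s) (f s).toEquiv z) univ := by
    have h3 : PC k (fun (_ : S) (z : Phase n) => z) univ := PC.of_contDiff contDiff_id univ
    exact (h1 k).add (PC.smul (continuous_const.sub hr) ((hf k).sub h3))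
  have h3 : PC k (fun s z => (gEquiv L (f s) (hg s) (r s) (hr0 s) (hr1 s)).symm z) univ := by
    refine pc_inv_family (F := fun s z => gmap L (r s) (f s).toEquiv z) hK h1 ?_ ?_ ?_ ?_ k
    · intro s z
      exact (gEquiv L (f s) (hg s) (r s) (hr0 s) (hr1 s)).symm_apply_apply z
    · intro s z
      exact (gEquiv L (f s) (hg s) (r s) (hr0 s) (hr1 s)).apply_symm_apply z
    · intro s z hz
      exact gmap_off (hfK s z hz)
    · intro s z
      exact isUnit_fderiv_gmap L (f s) (hg s) (r s) (hr0 s) (hr1 s) z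
  exact h2.comp h3 (fun _ _ => mem_univ _)

lemma gcontr_zero (L : Phase n →L[ℝ] Phase n) (φ : Symp n) (hφ : InChart L φ) (r : ℝ)
    (hr0 : 0 ≤ r) (hr1 : r ≤ 1) (hL : IsChartMap L) (hr : r = 0) :
    gcontr L φ hφ r hr0 hr1 hL = φ := by
  subst hr
  apply Symp.ext
  intro z
  have h1 : (gEquiv L φ hφ 0 hr0 hr1).symm z = z := by
    rw [Equiv.symm_apply_eq, gEquiv_apply, gmap]
    simp
  rw [gcontr_apply, h1, bmap, gmap]
  simp

lemma gcontr_one (L : Phase n →L[ℝ] Phase n) (φ : Symp n) (hφ : InChart L φ) (r : ℝ)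
    (hr0 : 0 ≤ r) (hr1 : r ≤ 1) (hL : IsChartMap L) (hr : r = 1) (z : Phase n) :
    (gcontr L φ hφ r hr0 hr1 hL).toEquiv z = z := by
  subst hr
  obtain ⟨w, rfl⟩ := (gEquiv L φ hφ 1 hr0 hr1).surjective z
  rw [gcontr_apply, Equiv.symm_apply_apply, bmap, gEquiv_apply]
  simp

lemma inChart_of_eq_id {L : Phase n →L[ℝ] Phase n} {φ : Symp n} (hid : ∀ z, φ.toEquiv z = z) :
    InChart L φ := by
  intro z r _ _ u hu
  have h : _root_.fderiv ℝ φ.toEquiv z = 1 := by
    have h1 : (φ.toEquiv : Phase n → Phase n) = id := funext hid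
    rw [h1]
    exact fderiv_id
  rw [h] at hu
  simpa using hu

lemma isOpen_chartLin (L : Phase n →L[ℝ] Phase n) :
    IsOpen {A : Phase n →L[ℝ] Phase n | ∀ r ∈ Icc (0 : ℝ) 1,
      IsUnit ((1 : Phase n →L[ℝ] Phase n) + r • (L * (A - 1)))} := by
  rw [isOpen_iff_eventually]
  intro A0 hA0
  refine IsCompact.eventually_forall_of_forall_eventually isCompact_Icc ?_
  intro s hs
  have h2 : IsOpen {A : Phase n →L[ℝ] Phase n | IsUnit A} := Units.isOpen
  have h3 : Continuous (fun p : (Phase n →L[ℝ] Phase n) × ℝ =>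
      (1 : Phase n →L[ℝ] Phase n) + p.2 • (L * (p.1 - 1))) := by fun_prop
  exact (h2.preimage h3).mem_nhds (x := (A0, s)) (hA0 s hs)

lemma isOpen_inChart_sympIn (L : Phase n →L[ℝ] Phase n) {K : Set (Phase n)} (hK : IsCompact K) :
    IsOpen {φ : SympIn n K | InChart L φ.1} := by
  rw [isOpen_iff_eventually]
  intro φ hφ
  have hφ : InChart L φ.1 := hφ
  have hD : Continuous (fun p : SympIn n K × Phase n => _root_.fderiv ℝ p.1.1.toEquiv p.2) :=
    PC.continuous_fderiv (F := fun (φ : SympIn n K) z => φ.1.toEquiv z) (pc_taut 1)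
  have h1 : ∀ᶠ ψ : SympIn n K in 𝓝 φ, ∀ z ∈ K, ∀ r ∈ Icc (0 : ℝ) 1,
      IsUnit ((1 : Phase n →L[ℝ] Phase n) + r • (L * (_root_.fderiv ℝ ψ.1.toEquiv z - 1))) := by
    refine IsCompact.eventually_forall_of_forall_eventually hK ?_
    intro z _
    exact ((isOpen_chartLin L).preimage hD).mem_nhds (x := (φ, z))
      (fun r hr => inChart_iff.1 hφ z r hr.1 hr.2)
  filter_upwards [h1] with ψ hψ
  rw [inChart_iff]
  intro z r hr0 hr1
  by_cases hz : z ∈ K
  · exact hψ z hz r ⟨hr0, hr1⟩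
  · have h2 : _root_.fderiv ℝ ψ.1.toEquiv z = 1 := by
      have h3 : (ψ.1.toEquiv : Phase n → Phase n) =ᶠ[𝓝 z] id := by
        filter_upwards [hK.isClosed.isOpen_compl.mem_nhds hz] with w hw
        exact ψ.2 w hw
      rw [h3.fderiv_eq]
      exact fderiv_id
    rw [h2]
    simp

lemma isOpen_inChart (L : Phase n →L[ℝ] Phase n) : IsOpen {φ : Symp n | InChart L φ} := by
  rw [isOpen_symp_iff]
  intro K hK
  exact isOpen_inChart_sympIn L hK

/-- the contraction as a map -/
noncomputable def gcontrMap {L : Phase n →L[ℝ] Phase n} (hL : IsChartMap L)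
    (φ : {φ : Symp n // InChart L φ}) (t : I) : {φ : Symp n // InChart L φ} :=
  ⟨gcontr L φ.1 φ.2 t t.2.1 t.2.2 hL, inChart_gcontr _ _ _ _ _ _ _⟩

/-- the restriction to a fixed support -/
def chartIncl {L : Phase n →L[ℝ] Phase n} {K : Set (Phase n)}
    (φ : {φ : SympIn n K // InChart L φ.1}) : {φ : Symp n // InChart L φ} := ⟨φ.1.1, φ.2⟩

/-- a map on the open set is continuous if it is so at fixed supports -/
lemma continuous_chart_dom {L : Phase n →L[ℝ] Phase n} {Y : Type} [TopologicalSpace Y]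
    {f : {φ : Symp n // InChart L φ} → Y}
    (h : ∀ K : Set (Phase n), IsCompact K →
      Continuous (fun φ : {φ : SympIn n K // InChart L φ.1} => f (chartIncl φ))) :
    Continuous f := by
  rw [continuous_def]
  intro V hV
  have h1 : IsOpen {φ : Symp n | ∃ h : InChart L φ, f ⟨φ, h⟩ ∈ V} := by
    rw [isOpen_symp_iff]
    intro K hK
    have h2 : IsOpen ((fun φ : {φ : SympIn n K // InChart L φ.1} => f (chartIncl φ)) ⁻¹' V) :=
      hV.preimage (h K hK)
    have h3 := (isOpen_inChart_sympIn L hK).isOpenMap_subtype_val _ h2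
    convert! h3 using 1
    ext φ
    constructor
    · rintro ⟨h4, h5⟩
      exact ⟨⟨φ, h4⟩, h5, rfl⟩
    · rintro ⟨⟨φ', h4⟩, h5, rfl⟩
      exact ⟨h4, h5⟩
  have h2 : f ⁻¹' V = Subtype.val ⁻¹' {φ : Symp n | ∃ h : InChart L φ, f ⟨φ, h⟩ ∈ V} := by
    ext ⟨φ, hφ⟩
    constructor
    · intro h3
      exact ⟨hφ, h3⟩
    · rintro ⟨_, h3⟩
      exact h3
  rw [h2]
  exact h1.preimage continuous_subtype_val

lemma gcontrMap_zero {L : Phase n →L[ℝ] Phase n} (hL : IsChartMap L)
    (φ : {φ : Symp n // InChart L φ}) : gcontrMap hL φ 0 = φ := by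
  apply Subtype.ext
  exact gcontr_zero L φ.1 φ.2 (0 : I) (0 : I).2.1 (0 : I).2.2 hL rfl

lemma gcontrMap_one {L : Phase n →L[ℝ] Phase n} (hL : IsChartMap L)
    (φ : {φ : Symp n // InChart L φ}) :
    gcontrMap hL φ 1 = ⟨Symp.one n, inChart_of_eq_id (fun _ => rfl)⟩ := by
  apply Subtype.ext
  apply Symp.ext
  intro z
  exact gcontr_one L φ.1 φ.2 (1 : I) (1 : I).2.1 (1 : I).2.2 hL rfl z

lemma continuous_gcontrMap_fixed {L : Phase n →L[ℝ] Phase n} (hL : IsChartMap L)
    {K : Set (Phase n)} (hK : IsCompact K) :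
    Continuous (fun p : {φ : SympIn n K // InChart L φ.1} × I =>
        gcontrMap hL (chartIncl p.1) p.2) := by
  refine Continuous.subtype_mk ?_ _
  have h2 : Continuous (fun p : {φ : SympIn n K // InChart L φ.1} × I =>
      (⟨gcontr L p.1.1.1 p.1.2 p.2 p.2.2.1 p.2.2.2 hL,
        gcontr_off _ _ _ _ _ _ _ p.1.1.2⟩ : SympIn n K)) := by
    rw [continuous_sympIn_iff]
    intro k
    have h3 : Continuous (fun p : {φ : SympIn n K // InChart L φ.1} × I => p.1.1) :=
      continuous_subtype_val.comp continuous_fst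
    exact pc_gcontr (S := {φ : SympIn n K // InChart L φ.1} × I) (f := fun p => p.1.1.1) hL hK
      (continuous_sympIn_iff.1 h3) (fun p => p.1.1.2) (fun p => p.1.2)
      (continuous_subtype_val.comp continuous_snd) _ _ k
  exact (continuous_incl hK).comp h2

attribute [irreducible] gcontrMap

lemma continuous_gcontrMap {L : Phase n →L[ℝ] Phase n} (hL : IsChartMap L) :
    Continuous (fun p : {φ : Symp n // InChart L φ} × I => gcontrMap hL p.1 p.2) := by
  have h3 : ∀ φ : {φ : Symp n // InChart L φ}, Continuous (gcontrMap hL φ) := by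
    intro φ
    obtain ⟨K, hK, hKφ⟩ := φ.1.compact_support
    exact (continuous_gcontrMap_fixed hL hK).comp (Continuous.prodMk_right (⟨⟨φ.1, hKφ⟩, φ.2⟩ :
      {φ : SympIn n K // InChart L φ.1}))
  have h4 : Continuous (fun φ : {φ : Symp n // InChart L φ} =>
      (⟨gcontrMap hL φ, h3 φ⟩ : C(I, {φ : Symp n // InChart L φ}))) := by
    refine continuous_chart_dom ?_
    intro K hK
    exact ContinuousMap.continuous_of_continuous_uncurry _ (continuous_gcontrMap_fixed hL hK)
  exact ContinuousMap.continuous_uncurry_of_continuous ⟨_, h4⟩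

theorem contractible_chart {L : Phase n →L[ℝ] Phase n} (hL : IsChartMap L) :
    ContractibleSpace {φ : Symp n // InChart L φ} := by
  rw [contractible_iff_id_nullhomotopic]
  exact ⟨⟨Symp.one n, inChart_of_eq_id (fun _ => rfl)⟩, ⟨{
    toFun := fun p => gcontrMap hL p.2 p.1
    continuous_toFun := (continuous_gcontrMap hL).comp continuous_swap
    map_zero_left := gcontrMap_zero hL
    map_one_left := gcontrMap_one hL }⟩⟩

end Pool.Agent.H496R3
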