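import Pool.Agent.H496R3.SympTop
import Pool.Agent.H496R3.NoNeg

/-!
# Composition, inverses and the contraction of symplectomorphisms whose differential has no
negative real eigenvalue
-/

namespace Pool.Agent.H496R3

open Set Filter Topology
open scoped ContDiff

variable {n : ℕ}

/-! ### The standard form -/

lemma stdForm_add_left (u u' v : Phase n) : stdForm (u + u') v = stdForm u v + stdForm u' v := by
  simp only [stdForm, Prod.fst_add, Prod.snd_add, Pi.add_apply, ← Finset.sum_add_distrib]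
  exact Finset.sum_congr rfl fun i _ => by ring

lemma stdForm_add_right (u v v' : Phase n) : stdForm u (v + v') = stdForm u v + stdForm u v' := by
  simp only [stdForm, Prod.fst_add, Prod.snd_add, Pi.add_apply, ← Finset.sum_add_distrib]
  exact Finset.sum_congr rfl fun i _ => by ring

lemma stdForm_smul_left (c : ℝ) (u v : Phase n) : stdForm (c • u) v = c * stdForm u v := by
  simp only [stdForm, Prod.smul_fst, Prod.smul_snd, Pi.smul_apply, smul_eq_mul, Finset.mul_sum]
  exact Finset.sum_congr rfl fun i _ => by ring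

lemma stdForm_smul_right (c : ℝ) (u v : Phase n) : stdForm u (c • v) = c * stdForm u v := by
  simp only [stdForm, Prod.smul_fst, Prod.smul_snd, Pi.smul_apply, smul_eq_mul, Finset.mul_sum]
  exact Finset.sum_congr rfl fun i _ => by ring

/-- the Cayley identity: if `D ∘ (c + d A) = d + c A` with `A` symplectic then `D` is symplectic
on the range of `c + d A` -/
lemma stdForm_comb {A : Phase n →L[ℝ] Phase n}
    (hA : ∀ u v, stdForm (A u) (A v) = stdForm u v) (c d : ℝ) (u v : Phase n) :
    stdForm (d • u + c • A u) (d • v + c • A v) = stdForm (c • u + d • A u) (c • v + d • A v) := by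
  simp only [stdForm_add_left, stdForm_add_right, stdForm_smul_left, stdForm_smul_right, hA]
  ring

/-! ### Basic facts on derivatives -/

lemma Symp.differentiableAt (φ : Symp n) (z : Phase n) : DifferentiableAt ℝ φ.toEquiv z :=
  φ.smooth.differentiable (by simp) z

lemma Symp.isUnit_fderiv (φ : Symp n) (z : Phase n) :
    IsUnit (_root_.fderiv ℝ φ.toEquiv z) := by
  have h1 : HasFDerivAt φ.toEquiv (_root_.fderiv ℝ φ.toEquiv z) z :=
    (φ.differentiableAt z).hasFDerivAt
  have h2 : HasFDerivAt φ.toEquiv.symm (_root_.fderiv ℝ φ.toEquiv.symm (φ.toEquiv z))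
      (φ.toEquiv z) :=
    (φ.smooth_symm.differentiable (by simp) _).hasFDerivAt
  have h3 := h2.comp z h1
  have h4 : (φ.toEquiv.symm ∘ φ.toEquiv) = id := by
    funext w
    simp
  rw [h4] at h3
  have h5 := h3.unique (hasFDerivAt_id z)
  have h1' : HasFDerivAt φ.toEquiv (_root_.fderiv ℝ φ.toEquiv z)
      (φ.toEquiv.symm (φ.toEquiv z)) := by
    rw [φ.toEquiv.symm_apply_apply]
    exact h1
  have h6 := h1'.comp (φ.toEquiv z) h2
  have h7 : (φ.toEquiv ∘ φ.toEquiv.symm) = id := by
    funext w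
    simp
  rw [h7] at h6
  have h8 := h6.unique (hasFDerivAt_id _)
  exact ⟨⟨_root_.fderiv ℝ φ.toEquiv z, _root_.fderiv ℝ φ.toEquiv.symm (φ.toEquiv z), h8, h5⟩, rfl⟩

/-! ### Composition and inverse -/

/-- the composite `φ ∘ ψ` -/
def Symp.comp (φ ψ : Symp n) : Symp n where
  toEquiv := ψ.toEquiv.trans φ.toEquiv
  smooth := φ.smooth.comp ψ.smooth
  smooth_symm := ψ.smooth_symm.comp φ.smooth_symm
  symplectic := by
    intro z u v
    have h : _root_.fderiv ℝ (ψ.toEquiv.trans φ.toEquiv) z =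
        (_root_.fderiv ℝ φ.toEquiv (ψ.toEquiv z)).comp (_root_.fderiv ℝ ψ.toEquiv z) :=
      fderiv_comp z (φ.differentiableAt _) (ψ.differentiableAt z)
    rw [h]
    simp only [ContinuousLinearMap.comp_apply, φ.symplectic, ψ.symplectic]
  compact_support := by
    obtain ⟨K, hK, hKφ⟩ := φ.compact_support
    obtain ⟨L, hL, hLψ⟩ := ψ.compact_support
    refine ⟨K ∪ L, hK.union hL, fun z hz => ?_⟩
    simp only [mem_union, not_or] at hz
    simp only [Equiv.trans_apply]
    rw [hLψ z hz.2, hKφ z hz.1]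

@[simp] lemma Symp.comp_apply (φ ψ : Symp n) (z : Phase n) :
    (φ.comp ψ).toEquiv z = φ.toEquiv (ψ.toEquiv z) := rfl

/-- the inverse -/
def Symp.inv (φ : Symp n) : Symp n where
  toEquiv := φ.toEquiv.symm
  smooth := φ.smooth_symm
  smooth_symm := φ.smooth
  symplectic := by
    intro z u v
    have h1 : HasFDerivAt φ.toEquiv (_root_.fderiv ℝ φ.toEquiv (φ.toEquiv.symm z))
        (φ.toEquiv.symm z) := (φ.differentiableAt _).hasFDerivAt
    have h2 : HasFDerivAt φ.toEquiv.symm (_root_.fderiv ℝ φ.toEquiv.symm z) z :=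
      (φ.smooth_symm.differentiable (by simp) _).hasFDerivAt
    have h3 := h1.comp z h2
    have h4 : (φ.toEquiv ∘ φ.toEquiv.symm) = id := by
      funext w
      simp
    rw [h4] at h3
    have h5 := h3.unique (hasFDerivAt_id z)
    rw [← φ.symplectic (φ.toEquiv.symm z)]
    have h6 : ∀ w, _root_.fderiv ℝ φ.toEquiv (φ.toEquiv.symm z)
        (_root_.fderiv ℝ φ.toEquiv.symm z w) = w := by
      intro w
      have := congrArg (fun L : Phase n →L[ℝ] Phase n => L w) h5
      simpa using this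
    rw [h6, h6]
  compact_support := by
    obtain ⟨K, hK, hKφ⟩ := φ.compact_support
    refine ⟨K, hK, fun z hz => ?_⟩
    rw [Equiv.symm_apply_eq, hKφ z hz]

@[simp] lemma Symp.inv_apply (φ : Symp n) (z : Phase n) :
    φ.inv.toEquiv z = φ.toEquiv.symm z := rfl

lemma Symp.comp_inv_comp (φ ψ : Symp n) : (φ.comp ψ.inv).comp ψ = φ := by
  apply Symp.ext
  intro z
  simp

/-! ### Symplectomorphisms whose differential has no negative real eigenvalue -/

/-- The differential of `φ` has no negative real eigenvalue, at any point. -/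
def NoNegEig (φ : Symp n) : Prop :=
  ∀ (z u : Phase n) (a : ℝ), a < 0 → _root_.fderiv ℝ φ.toEquiv z u = a • u → u = 0

lemma noNegEig_iff {φ : Symp n} : NoNegEig φ ↔ ∀ z, NoNeg (_root_.fderiv ℝ φ.toEquiv z) := by
  constructor
  · intro h z s hs
    rcases hs.eq_or_lt with h0 | h0
    · rw [← h0, zero_smul, add_zero]
      exact φ.isUnit_fderiv z
    · rw [ContinuousLinearMap.isUnit_iff_isUnit_toLinearMap, LinearMap.isUnit_iff_ker_eq_bot,
        LinearMap.ker_eq_bot']
      intro u hu
      refine h z u (-s) (by linarith) ?_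
      have h1 : _root_.fderiv ℝ φ.toEquiv z u + s • u = 0 := by simpa using hu
      rw [neg_smul]
      exact eq_neg_of_add_eq_zero_left h1
  · intro h z u a ha hu
    obtain ⟨U, hU⟩ := h z (-a) (by linarith)
    have h1 : (U : Phase n →L[ℝ] Phase n) u = 0 := by
      rw [hU]
      simp [hu]
    have h2 : ((U⁻¹ : (Phase n →L[ℝ] Phase n)ˣ) : Phase n →L[ℝ] Phase n)
        ((U : Phase n →L[ℝ] Phase n) u) = u :=
      congrArg (fun L : Phase n →L[ℝ] Phase n => L u) (Units.inv_mul U)
    rw [← h2, h1, map_zero]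

lemma comb_bijective {φ : Symp n} (hφ : NoNegEig φ) {c d : ℝ} (hc : 0 ≤ c) (hd : 0 ≤ d)
    (hcd : c + d = 1) : Function.Bijective (comb c d φ.toEquiv) := by
  obtain ⟨K, hK, hKφ⟩ := φ.compact_support
  refine bijective_of_isUnit_fderiv hK (contDiff_comb (φ.smooth.of_le (by simp)))
    (fun z hz => comb_off hcd (hKφ z hz)) (fun z => ?_)
  rw [(hasFDerivAt_comb (φ.differentiableAt z).hasFDerivAt).fderiv]
  exact (noNegEig_iff.1 hφ z).isUnit_comb hc hd (by rw [hcd]; exact one_pos)

/-- the diffeomorphism `z ↦ c z + d φ z` -/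
noncomputable def combEquiv (φ : Symp n) (hφ : NoNegEig φ) (c d : ℝ) (hc : 0 ≤ c) (hd : 0 ≤ d)
    (hcd : c + d = 1) : Phase n ≃ Phase n :=
  Equiv.ofBijective (comb c d φ.toEquiv) (comb_bijective hφ hc hd hcd)

section

variable (φ : Symp n) (hφ : NoNegEig φ) (c d : ℝ) (hc : 0 ≤ c) (hd : 0 ≤ d) (hcd : c + d = 1)

@[simp] lemma combEquiv_apply (z : Phase n) :
    combEquiv φ hφ c d hc hd hcd z = comb c d φ.toEquiv z := rfl

lemma contDiff_combEquiv : ContDiff ℝ ∞ (combEquiv φ hφ c d hc hd hcd) :=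
  contDiff_comb φ.smooth

lemma isUnit_fderiv_combEquiv (z : Phase n) :
    IsUnit (_root_.fderiv ℝ (combEquiv φ hφ c d hc hd hcd) z) := by
  have h : HasFDerivAt (combEquiv φ hφ c d hc hd hcd) _ z :=
    hasFDerivAt_comb (c := c) (d := d) (φ.differentiableAt z).hasFDerivAt
  rw [h.fderiv]
  exact (noNegEig_iff.1 hφ z).isUnit_comb hc hd (by rw [hcd]; exact one_pos)

lemma contDiff_combEquiv_symm : ContDiff ℝ ∞ (combEquiv φ hφ c d hc hd hcd).symm := by
  obtain ⟨K, hK, hKφ⟩ := φ.compact_support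
  exact contDiff_symm_of_isUnit hK (contDiff_combEquiv φ hφ c d hc hd hcd)
    (fun z hz => comb_off hcd (hKφ z hz)) (isUnit_fderiv_combEquiv φ hφ c d hc hd hcd)

/-- the derivative of `b ∘ a⁻¹`, `a = c + d φ`, `b = d + c φ` -/
lemma fderiv_contr (w : Phase n) :
    (_root_.fderiv ℝ ((combEquiv φ hφ c d hc hd hcd).symm.trans
      (combEquiv φ hφ d c hd hc (by rw [add_comm]; exact hcd)))
        (combEquiv φ hφ c d hc hd hcd w)).comp
        (c • (1 : Phase n →L[ℝ] Phase n) + d • _root_.fderiv ℝ φ.toEquiv w) =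
      d • (1 : Phase n →L[ℝ] Phase n) + c • _root_.fderiv ℝ φ.toEquiv w := by
  set a := combEquiv φ hφ c d hc hd hcd with ha
  set b := combEquiv φ hφ d c hd hc (by rw [add_comm]; exact hcd) with hb
  have h1 : ContDiff ℝ ∞ (a.symm.trans b) :=
    (contDiff_combEquiv φ hφ d c hd hc (by rw [add_comm]; exact hcd)).comp
      (contDiff_combEquiv_symm φ hφ c d hc hd hcd)
  have h2 : HasFDerivAt (a.symm.trans b) (_root_.fderiv ℝ (a.symm.trans b) (a w)) (a w) :=
    (h1.differentiable (by simp) _).hasFDerivAt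
  have h3 : HasFDerivAt a (c • (1 : Phase n →L[ℝ] Phase n) + d • _root_.fderiv ℝ φ.toEquiv w) w :=
    hasFDerivAt_comb (φ.differentiableAt w).hasFDerivAt
  have h4 : HasFDerivAt b (d • (1 : Phase n →L[ℝ] Phase n) + c • _root_.fderiv ℝ φ.toEquiv w) w :=
    hasFDerivAt_comb (φ.differentiableAt w).hasFDerivAt
  have h5 := h2.comp w h3
  have h6 : ((a.symm.trans b) ∘ a) = b := by
    funext z
    simp
  rw [h6] at h5
  exact h5.unique h4

/-- The symplectomorphism `b ∘ a⁻¹`, `a = c + d φ`, `b = d + c φ`. -/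
noncomputable def contr : Symp n where
  toEquiv := (combEquiv φ hφ c d hc hd hcd).symm.trans
    (combEquiv φ hφ d c hd hc (by rw [add_comm]; exact hcd))
  smooth := (contDiff_combEquiv φ hφ d c hd hc (by rw [add_comm]; exact hcd)).comp
    (contDiff_combEquiv_symm φ hφ c d hc hd hcd)
  smooth_symm := (contDiff_combEquiv φ hφ c d hc hd hcd).comp
    (contDiff_combEquiv_symm φ hφ d c hd hc (by rw [add_comm]; exact hcd))
  symplectic := by
    intro z u v
    obtain ⟨w, rfl⟩ := (combEquiv φ hφ c d hc hd hcd).surjective z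
    have h1 := fderiv_contr φ hφ c d hc hd hcd w
    obtain ⟨U, hU⟩ := (noNegEig_iff.1 hφ w).isUnit_comb hc hd (by rw [hcd]; exact one_pos)
    have hsurj : ∀ u : Phase n, ∃ u', (c • (1 : Phase n →L[ℝ] Phase n) +
        d • _root_.fderiv ℝ φ.toEquiv w) u' = u := by
      intro u
      refine ⟨((U⁻¹ : (Phase n →L[ℝ] Phase n)ˣ) : Phase n →L[ℝ] Phase n) u, ?_⟩
      rw [← hU]
      exact congrArg (fun L : Phase n →L[ℝ] Phase n => L u) (Units.mul_inv U)
    obtain ⟨u', rfl⟩ := hsurj u
    obtain ⟨v', rfl⟩ := hsurj v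
    have h2 : ∀ x, _root_.fderiv ℝ ((combEquiv φ hφ c d hc hd hcd).symm.trans
        (combEquiv φ hφ d c hd hc (by rw [add_comm]; exact hcd)))
        (combEquiv φ hφ c d hc hd hcd w)
        ((c • (1 : Phase n →L[ℝ] Phase n) + d • _root_.fderiv ℝ φ.toEquiv w) x) =
        d • x + c • _root_.fderiv ℝ φ.toEquiv w x := by
      intro x
      have := congrArg (fun L : Phase n →L[ℝ] Phase n => L x) h1
      simpa using this
    rw [h2, h2]
    have h3 : ∀ x, (c • (1 : Phase n →L[ℝ] Phase n) + d • _root_.fderiv ℝ φ.toEquiv w) x =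
        c • x + d • _root_.fderiv ℝ φ.toEquiv w x := by
      intro x
      simp
    rw [h3, h3]
    exact stdForm_comb (φ.symplectic w) c d u' v'
  compact_support := by
    obtain ⟨K, hK, hKφ⟩ := φ.compact_support
    refine ⟨K, hK, fun z hz => ?_⟩
    have h1 : (combEquiv φ hφ c d hc hd hcd).symm z = z := by
      rw [Equiv.symm_apply_eq, combEquiv_apply, comb_off hcd (hKφ z hz)]
    rw [Equiv.trans_apply, h1, combEquiv_apply, comb_off (by rw [add_comm]; exact hcd) (hKφ z hz)]

lemma contr_apply (z : Phase n) : (contr φ hφ c d hc hd hcd).toEquiv z =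
    comb d c φ.toEquiv ((combEquiv φ hφ c d hc hd hcd).symm z) := rfl

lemma contr_off {K : Set (Phase n)} (hK : ∀ z ∉ K, φ.toEquiv z = z) :
    ∀ z ∉ K, (contr φ hφ c d hc hd hcd).toEquiv z = z := by
  intro z hz
  have h1 : (combEquiv φ hφ c d hc hd hcd).symm z = z := by
    rw [Equiv.symm_apply_eq, combEquiv_apply, comb_off hcd (hK z hz)]
  rw [contr_apply, h1, comb_off (by rw [add_comm]; exact hcd) (hK z hz)]

/-- the contraction stays among symplectomorphisms without negative real eigenvalues -/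
lemma noNegEig_contr : NoNegEig (contr φ hφ c d hc hd hcd) := by
  rw [noNegEig_iff]
  intro z s hs
  obtain ⟨w, rfl⟩ := (combEquiv φ hφ c d hc hd hcd).surjective z
  have h1 := fderiv_contr φ hφ c d hc hd hcd w
  have hV := (noNegEig_iff.1 hφ w).isUnit_comb hc hd (by rw [hcd]; exact one_pos)
  have hW : IsUnit ((d + s * c) • (1 : Phase n →L[ℝ] Phase n) +
      (c + s * d) • _root_.fderiv ℝ φ.toEquiv w) := by
    refine (noNegEig_iff.1 hφ w).isUnit_comb (by positivity) (by positivity) ?_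
    nlinarith
  have h2 : (_root_.fderiv ℝ (contr φ hφ c d hc hd hcd).toEquiv
      (combEquiv φ hφ c d hc hd hcd w) + s • (1 : Phase n →L[ℝ] Phase n)) *
      (c • (1 : Phase n →L[ℝ] Phase n) + d • _root_.fderiv ℝ φ.toEquiv w) =
      (d + s * c) • (1 : Phase n →L[ℝ] Phase n) +
      (c + s * d) • _root_.fderiv ℝ φ.toEquiv w := by
    rw [add_mul]
    have h3 : _root_.fderiv ℝ (contr φ hφ c d hc hd hcd).toEquiv
      (combEquiv φ hφ c d hc hd hcd w) *
      (c • (1 : Phase n →L[ℝ] Phase n) + d • _root_.fderiv ℝ φ.toEquiv w) =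
      d • (1 : Phase n →L[ℝ] Phase n) + c • _root_.fderiv ℝ φ.toEquiv w := h1
    rw [h3, smul_mul_assoc, one_mul, smul_add, smul_smul, smul_smul, add_smul, add_smul]
    abel
  obtain ⟨V, hV'⟩ := hV
  have h4 : _root_.fderiv ℝ (contr φ hφ c d hc hd hcd).toEquiv
      (combEquiv φ hφ c d hc hd hcd w) + s • (1 : Phase n →L[ℝ] Phase n) =
      ((d + s * c) • (1 : Phase n →L[ℝ] Phase n) +
      (c + s * d) • _root_.fderiv ℝ φ.toEquiv w) * ((V⁻¹ : (Phase n →L[ℝ] Phase n)ˣ) :
        Phase n →L[ℝ] Phase n) := by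
    rw [← h2, ← hV', mul_assoc, Units.mul_inv, mul_one]
  rw [h4]
  exact hW.mul (Units.isUnit _)

end

end Pool.Agent.H496R3
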