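import Pool.Agent.H496R3.SympFam

/-!
# The homotopy groups of the group of compactly supported symplectomorphisms are countable
-/

namespace Pool.Agent.H496R3

open Set Filter Topology
open scoped ContDiff unitInterval Topology.Homotopy

variable {n : ℕ}

lemma countable_range_of_locally_constant {X Q : Type} [TopologicalSpace X]
    [SecondCountableTopology X] (q : X → Q) (h : ∀ x, ∀ᶠ y in 𝓝 x, q y = q x) :
    (range q).Countable := by
  obtain ⟨s, hs, hU⟩ := TopologicalSpace.countable_cover_nhds (f := fun x => {y | q y = q x}) h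
  refine (hs.image q).mono ?_
  rintro _ ⟨y, rfl⟩
  have hy : y ∈ ⋃ x ∈ s, {y | q y = q x} := by
    rw [hU]
    exact mem_univ y
  simp only [mem_iUnion] at hy
  obtain ⟨x, hx, hyx⟩ := hy
  exact ⟨x, hx, hyx.symm⟩

/-- the difference of two families at fixed support -/
def diffIn {K : Set (Phase n)} (φ ψ : SympIn n K) : SympIn n K :=
  ⟨φ.1.comp ψ.1.inv, by
    intro z hz
    rw [Symp.comp_apply, Symp.inv_apply]
    have h1 : ψ.1.toEquiv.symm z = z := by
      rw [Equiv.symm_apply_eq, ψ.2 z hz]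
    rw [h1, φ.2 z hz]⟩

lemma continuous_diffIn {S : Type} [TopologicalSpace S] {K : Set (Phase n)} (hK : IsCompact K)
    {f g : S → SympIn n K} (hf : Continuous f) (hg : Continuous g) :
    Continuous (fun s => diffIn (f s) (g s)) := by
  rw [continuous_sympIn_iff]
  intro k
  exact pc_comp (f := fun s => (f s).1) (g := fun s => (g s).1.inv)
    (continuous_sympIn_iff.1 hf k)
    (pc_inv hK (continuous_sympIn_iff.1 hg) (fun s => (g s).2) k)

/-- the path from `ψ` to `φ` when `φ ψ⁻¹` has no negative real eigenvalue -/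
noncomputable def pathIn {K : Set (Phase n)} (φ ψ : SympIn n K) (h : NoNegEig (diffIn φ ψ).1)
    (t : I) : SympIn n K :=
  ⟨(contr (diffIn φ ψ).1 h ((1 + t) / 2) ((1 - t) / 2)
    (by have := t.2.1; positivity) (by have := t.2.2; linarith) (by ring)).comp ψ.1, by
    intro z hz
    rw [Symp.comp_apply, ψ.2 z hz]
    exact contr_off _ _ _ _ _ _ _ (diffIn φ ψ).2 z hz⟩

lemma continuous_pathIn {S : Type} [TopologicalSpace S] {K : Set (Phase n)} (hK : IsCompact K)
    {f g : S → SympIn n K} (hf : Continuous f) (hg : Continuous g)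
    (h : ∀ s, NoNegEig (diffIn (f s) (g s)).1) {τ : S → I} (hτ : Continuous τ) :
    Continuous (fun s => pathIn (f s) (g s) (h s) (τ s)) := by
  rw [continuous_sympIn_iff]
  intro k
  have h1 := continuous_diffIn hK hf hg
  refine pc_comp (f := fun s => contr (diffIn (f s) (g s)).1 (h s) ((1 + (τ s : ℝ)) / 2)
    ((1 - (τ s : ℝ)) / 2) (by have := (τ s).2.1; positivity) (by have := (τ s).2.2; linarith)
    (by ring)) (g := fun s => (g s).1) ?_ (continuous_sympIn_iff.1 hg k)
  refine pc_contr (f := fun s => (diffIn (f s) (g s)).1) hK (continuous_sympIn_iff.1 h1)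
    (fun s => (diffIn (f s) (g s)).2) h ?_ ?_ _ _ _ k
  · fun_prop
  · fun_prop

lemma pathIn_zero {K : Set (Phase n)} (φ ψ : SympIn n K) (h : NoNegEig (diffIn φ ψ).1) :
    (pathIn φ ψ h 0).1 = ψ.1 := by
  apply Symp.ext
  intro z
  rw [pathIn, Symp.comp_apply]
  exact contr_half _ _ _ _ _ _ _ (by simp) _

lemma pathIn_one {K : Set (Phase n)} (φ ψ : SympIn n K) (h : NoNegEig (diffIn φ ψ).1) :
    (pathIn φ ψ h 1).1 = φ.1 := by
  have h1 : (pathIn φ ψ h 1).1 = (diffIn φ ψ).1.comp ψ.1 := by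
    rw [pathIn]
    simp only
    rw [contr_one]
    simp
  rw [h1]
  exact Symp.comp_inv_comp _ _

lemma pathIn_self {K : Set (Phase n)} (φ ψ : SympIn n K) (h : NoNegEig (diffIn φ ψ).1)
    (hφψ : φ.1 = ψ.1) (t : I) : (pathIn φ ψ h t).1 = ψ.1 := by
  apply Symp.ext
  intro z
  rw [pathIn, Symp.comp_apply]
  refine contr_id _ _ _ _ _ _ _ ?_ _
  intro w
  rw [diffIn, Symp.comp_apply, hφψ]
  simp

/-- the inclusion of the symplectomorphisms supported in `K` -/
noncomputable def inclMap {K : Set (Phase n)} (hK : IsCompact K) : C(SympIn n K, Symp n) :=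
  ⟨fun φ => φ.1, continuous_incl hK⟩

/-- pushing forward loops -/
noncomputable def pushLoop {K : Set (Phase n)} (hK : IsCompact K) {k : ℕ} {φ : Symp n}
    (hφ : ∀ z ∉ K, φ.toEquiv z = z) (g : Ω^ (Fin k) (SympIn n K) ⟨φ, hφ⟩) :
    Ω^ (Fin k) (Symp n) φ :=
  ⟨(inclMap hK).comp g.1, fun y hy => by
    have := g.2 y hy
    rw [ContinuousMap.comp_apply, this]
    rfl⟩

lemma homotopic_of_noNegEig {K : Set (Phase n)} (hK : IsCompact K) {k : ℕ} {φ : Symp n}
    (hφ : ∀ z ∉ K, φ.toEquiv z = z) (f g : Ω^ (Fin k) (SympIn n K) ⟨φ, hφ⟩)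
    (h : ∀ s, NoNegEig (diffIn (g s) (f s)).1) :
    GenLoop.Homotopic (pushLoop hK hφ f) (pushLoop hK hφ g) := by
  refine ⟨{ toFun := fun p => (pathIn (g p.2) (f p.2) (h p.2) p.1).1
            continuous_toFun := ?_
            map_zero_left := ?_
            map_one_left := ?_
            prop' := ?_ }⟩
  · refine (continuous_incl hK).comp ?_
    exact continuous_pathIn hK (g.1.continuous.comp continuous_snd)
      (f.1.continuous.comp continuous_snd) (fun p => h p.2) continuous_fst
  · intro s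
    exact pathIn_zero _ _ _
  · intro s
    exact pathIn_one _ _ _
  · intro t s hs
    have h1 : g s = f s := (g.2 s hs).trans (f.2 s hs).symm
    exact pathIn_self _ _ _ (congrArg SympIn.val h1) _

lemma eventually_noNegEig {K : Set (Phase n)} (hK : IsCompact K) {k : ℕ} {φ : Symp n}
    (hφ : ∀ z ∉ K, φ.toEquiv z = z) (f : Ω^ (Fin k) (SympIn n K) ⟨φ, hφ⟩) :
    ∀ᶠ g in 𝓝 f, ∀ s, NoNegEig (diffIn (g s) (f s)).1 := by
  have h1 : Continuous (fun p : Ω^ (Fin k) (SympIn n K) ⟨φ, hφ⟩ × (Fin k → I) =>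
      diffIn (p.1 p.2) (f p.2)) := by
    refine continuous_diffIn hK ?_ (f.1.continuous.comp continuous_snd)
    exact continuous_eval
  have h2 : ∀ᶠ g in 𝓝 f, ∀ s ∈ (univ : Set (Fin k → I)), NoNegEig (diffIn (g s) (f s)).1 := by
    refine IsCompact.eventually_forall_of_forall_eventually isCompact_univ ?_
    intro s _
    refine ((isOpen_noNegEig_sympIn hK).preimage h1).mem_nhds (x := (f, s)) ?_
    refine noNegEig_of_eq_id (fun z => ?_)
    change (f s).1.toEquiv ((f s).1.toEquiv.symm z) = z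
    simp
  exact h2.mono (fun g hg s => hg s (mem_univ _))

theorem countable_pi (k : ℕ) (φ : Symp n) : Countable (π_ k (Symp n) φ) := by
  have h1 : ∀ R : {R : ℕ // ∀ z ∉ Metric.closedBall (0 : Phase n) R, φ.toEquiv z = z},
      (range (fun g : Ω^ (Fin k) (SympIn n (Metric.closedBall (0 : Phase n) R.1)) ⟨φ, R.2⟩ =>
        (⟦pushLoop (isCompact_closedBall _ _) R.2 g⟧ : π_ k (Symp n) φ))).Countable := by
    intro R
    refine countable_range_of_locally_constant _ ?_
    intro f
    filter_upwards [eventually_noNegEig (isCompact_closedBall _ _) R.2 f] with g hg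
    exact Quotient.sound (homotopic_of_noNegEig (isCompact_closedBall _ _) R.2 f g hg).symm
  have h2 := countable_iUnion h1
  rw [← countable_univ_iff]
  refine h2.mono ?_
  intro x _
  obtain ⟨f, rfl⟩ := Quotient.exists_rep x
  obtain ⟨R, hR⟩ := exists_common_support f.1.continuous
  obtain ⟨K, hK, hKφ⟩ := φ.compact_support
  obtain ⟨r, hr⟩ := hK.isBounded.subset_closedBall (0 : Phase n)
  obtain ⟨R', hR'⟩ := exists_nat_gt r
  set Q : ℕ := max R R' with hQ
  have hφQ : ∀ z ∉ Metric.closedBall (0 : Phase n) Q, φ.toEquiv z = z := by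
    intro z hz
    refine hKφ z (fun hzK => hz ?_)
    have h3 := hr hzK
    rw [Metric.mem_closedBall] at h3 ⊢
    have h4 : (R' : ℝ) ≤ (Q : ℝ) := by exact_mod_cast le_max_right R R'
    linarith
  have hfQ : ∀ s, ∀ z ∉ Metric.closedBall (0 : Phase n) Q, (f.1 s).toEquiv z = z := by
    intro s z hz
    refine hR s z (fun hzR => hz ?_)
    rw [Metric.mem_closedBall] at hzR ⊢
    have h4 : (R : ℝ) ≤ (Q : ℝ) := by exact_mod_cast le_max_left R R'
    linarith
  rw [mem_iUnion]
  refine ⟨⟨Q, hφQ⟩, ?_⟩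
  have hcont : Continuous (fun s => (⟨f.1 s, hfQ s⟩ : SympIn n (Metric.closedBall (0 : Phase n) Q)))
      := by
    rw [continuous_sympIn_iff]
    exact pc_of_continuous f.1.continuous
  refine ⟨⟨⟨_, hcont⟩, ?_⟩, ?_⟩
  · intro y hy
    apply SympIn.ext
    exact f.2 y hy
  · rfl

end Pool.Agent.H496R3
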