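import Pool.Agent.H496R3.SympDefs
import Pool.Agent.H496R3.Fam

/-!
# Topology of the spaces of compactly supported symplectomorphisms
-/

namespace Pool.Agent.H496R3

open Set Filter Topology
open scoped ContDiff

variable {n : ℕ}

lemma Symp.ext {φ ψ : Symp n} (h : ∀ z, φ.toEquiv z = ψ.toEquiv z) : φ = ψ := by
  cases φ; cases ψ
  congr
  exact Equiv.ext h

lemma SympIn.val_injective {K : Set (Phase n)} :
    Function.Injective (fun φ : SympIn n K => φ.1) := fun _ _ h => SympIn.ext h

lemma continuous_jets_family_iff {S : Type} [TopologicalSpace S] {f : S → Symp n} :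
    Continuous (fun s (k : ℕ) => jets (f s) k) ↔ ∀ k, PC k (fun s z => (f s).toEquiv z) univ := by
  rw [continuous_pi_iff]
  have h1 : ∀ k, Continuous (fun s => jets (f s) k) ↔
      Continuous (fun p : S × Phase n => iteratedFDeriv ℝ k (f p.1).toEquiv p.2) := by
    intro k
    constructor
    · intro h
      exact ContinuousMap.continuous_uncurry_of_continuous ⟨fun s => jets (f s) k, h⟩
    · intro h
      exact ContinuousMap.continuous_of_continuous_uncurry _ h
  simp only [h1]
  constructor
  · intro h k
    exact pc_univ_iff.2 ⟨fun s => (f s).smooth.of_le (by exact_mod_cast le_top), fun j _ => h j⟩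
  · intro h k
    exact (pc_univ_iff.1 (h k)).2 k le_rfl

/-- Continuity of a map into the space of symplectomorphisms supported in `K`. -/
lemma continuous_sympIn_iff {S : Type} [TopologicalSpace S] {K : Set (Phase n)}
    {f : S → SympIn n K} :
    Continuous f ↔ ∀ k, PC k (fun s z => (f s).1.toEquiv z) univ := by
  rw [continuous_induced_rng, ← continuous_jets_family_iff (f := fun s => (f s).1)]
  rfl

lemma continuous_incl {K : Set (Phase n)} (hK : IsCompact K) :
    Continuous (fun φ : SympIn n K => φ.1) := by
  rw [continuous_iff_coinduced_le]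
  exact le_iSup (fun K : TopologicalSpace.Compacts (Phase n) =>
    TopologicalSpace.coinduced (fun φ : SympIn n (K : Set (Phase n)) => φ.1) inferInstance) ⟨K, hK⟩

lemma continuous_symp_dom {Y : Type} [TopologicalSpace Y] {f : Symp n → Y} :
    Continuous f ↔ ∀ K : Set (Phase n), IsCompact K →
      Continuous (fun φ : SympIn n K => f φ.1) := by
  rw [continuous_iSup_dom]
  constructor
  · intro h K hK
    exact continuous_coinduced_dom.1 (h ⟨K, hK⟩)
  · intro h K
    exact continuous_coinduced_dom.2 (h K K.isCompact)

lemma isOpen_symp_iff {U : Set (Symp n)} :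
    IsOpen U ↔ ∀ K : Set (Phase n), IsCompact K → IsOpen {φ : SympIn n K | φ.1 ∈ U} := by
  rw [isOpen_iSup_iff]
  constructor
  · intro h K hK
    exact isOpen_coinduced.1 (h ⟨K, hK⟩)
  · intro h K
    exact isOpen_coinduced.2 (h K K.isCompact)

lemma isClosed_symp_iff {U : Set (Symp n)} :
    IsClosed U ↔ ∀ K : Set (Phase n), IsCompact K → IsClosed {φ : SympIn n K | φ.1 ∈ U} := by
  rw [← isOpen_compl_iff, isOpen_symp_iff]
  constructor
  · intro h K hK
    rw [← isOpen_compl_iff]
    exact h K hK
  · intro h K hK
    exact (h K hK).isOpen_compl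

lemma continuous_jets : Continuous (fun (φ : Symp n) (k : ℕ) => jets φ k) := by
  rw [continuous_symp_dom]
  intro K _
  exact continuous_induced_dom

/-- a continuous family of compactly supported symplectomorphisms is a smooth family -/
lemma pc_of_continuous {S : Type} [TopologicalSpace S] {f : S → Symp n} (hf : Continuous f)
    (k : ℕ) : PC k (fun s z => (f s).toEquiv z) univ :=
  continuous_jets_family_iff.1 (continuous_jets.comp hf) k

/-- the tautological family -/
lemma pc_taut {K : Set (Phase n)} (k : ℕ) :
    PC k (fun (φ : SympIn n K) z => φ.1.toEquiv z) univ :=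
  continuous_sympIn_iff.1 continuous_id k

lemma t1Space_sympIn (K : Set (Phase n)) : T1Space (SympIn n K) := by
  refine ⟨fun φ => ?_⟩
  have h1 : {φ} = ⋂ z : Phase n, {ψ : SympIn n K | ψ.1.toEquiv z = φ.1.toEquiv z} := by
    ext ψ
    simp only [mem_singleton_iff, mem_iInter, mem_ofPred_eq]
    constructor
    · rintro rfl z
      rfl
    · intro h
      exact SympIn.ext (Symp.ext h)
  rw [h1]
  refine isClosed_iInter fun z => ?_
  have h2 : Continuous (fun ψ : SympIn n K => ψ.1.toEquiv z) := by
    have h3 : Continuous (fun p : SympIn n K × Phase n => p.1.1.toEquiv p.2) :=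
      continuousOn_univ.1 (pc_taut 0)
    exact h3.comp (Continuous.prodMk_left z)
  exact isClosed_eq h2 continuous_const

instance finiteDimensional_cmm (k : ℕ) :
    FiniteDimensional ℝ (Phase n [×k]→L[ℝ] Phase n) :=
  FiniteDimensional.of_injective
    (ContinuousMultilinearMap.toMultilinearMapLinear :
      (Phase n [×k]→L[ℝ] Phase n) →ₗ[ℝ] MultilinearMap ℝ (fun _ : Fin k => Phase n) (Phase n))
    ContinuousMultilinearMap.toMultilinearMap_injective

instance secondCountable_sympIn (K : Set (Phase n)) : SecondCountableTopology (SympIn n K) := by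
  have h1 : ∀ k : ℕ, SecondCountableTopology (Phase n [×k]→L[ℝ] Phase n) := fun k => by
    have : ProperSpace (Phase n [×k]→L[ℝ] Phase n) := FiniteDimensional.proper ℝ _
    infer_instance
  exact TopologicalSpace.secondCountableTopology_induced _ _ _

/-- A compact family of compactly supported symplectomorphisms, continuous for the direct limit
topology, has a common compact support. -/
lemma exists_common_support {S : Type} [TopologicalSpace S] [CompactSpace S] {f : S → Symp n}
    (hf : Continuous f) :
    ∃ R : ℕ, ∀ s, ∀ z ∉ Metric.closedBall (0 : Phase n) R, (f s).toEquiv z = z := by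
  by_contra hcon
  push Not at hcon
  choose s z hz hfz using hcon
  -- the sets of tails
  set C : ℕ → Set (Symp n) := fun m => (fun j => f (s j)) '' Ici m with hC
  have hfin : ∀ K : Set (Phase n), IsCompact K →
      ∃ R : ℕ, ∀ j, (∀ z ∉ K, (f (s j)).toEquiv z = z) → j < R := by
    intro K hK
    obtain ⟨r, hr⟩ := hK.isBounded.subset_closedBall (0 : Phase n)
    obtain ⟨R, hR⟩ := exists_nat_gt r
    refine ⟨R, fun j hj => ?_⟩
    by_contra hlt
    push Not at hlt
    refine hfz j (hj (z j) (fun hzK => hz j ?_))
    have h1 := hr hzK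
    rw [Metric.mem_closedBall] at h1 ⊢
    have h2 : (R : ℝ) ≤ j := by exact_mod_cast hlt
    linarith
  have hCclosed : ∀ m, IsClosed (C m) := by
    intro m
    rw [isClosed_symp_iff]
    intro K hK
    obtain ⟨R, hR⟩ := hfin K hK
    have := t1Space_sympIn (n := n) K
    refine Set.Finite.isClosed ?_
    refine Set.Finite.preimage (f := fun φ : SympIn n K => φ.1)
      (s := C m ∩ {φ | ∀ z ∉ K, φ.toEquiv z = z}) (SympIn.val_injective.injOn) ?_ |>.subset ?_
    · refine ((finite_Iio R).image (fun j => f (s j))).subset ?_
      rintro φ ⟨⟨j, _, rfl⟩, hφ⟩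
      exact ⟨j, hR j hφ, rfl⟩
    · intro φ hφ
      exact ⟨hφ, φ.2⟩
  have hne : (⋂ m, f ⁻¹' C m).Nonempty := by
    refine IsCompact.nonempty_iInter_of_sequence_nonempty_isCompact_isClosed _ ?_ ?_ ?_ ?_
    · intro m
      exact preimage_mono (image_mono (Ici_subset_Ici.2 (Nat.le_succ m)))
    · intro m
      exact ⟨s m, m, by simp, rfl⟩
    · exact ((hCclosed 0).preimage hf).isCompact
    · intro m
      exact (hCclosed m).preimage hf
  obtain ⟨t, ht⟩ := hne
  rw [mem_iInter] at ht
  obtain ⟨K, hK, hKt⟩ := (f t).compact_support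
  obtain ⟨R, hR⟩ := hfin K hK
  obtain ⟨j, hj, hjt⟩ := ht R
  have := hR j (by
    intro z hz
    simp only at hjt
    rw [hjt]
    exact hKt z hz)
  have h3 : R ≤ j := hj
  omega

end Pool.Agent.H496R3
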