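import Pool.Agent.H505R3.SquarePlusOne
import Pool.Agent.H505R2.Core
import Pool.Agent.H505R3.Asym8

/-!
Sifting a family of three values `A u`, `A u * B u`, `B u * N u ^ 2` of a function `val`, the product
of which is a square.
-/

set_option autoImplicit false

namespace Pool.Agent.H496R3.Three

open Finset Filter Polynomial Pool.Agent.H505R2 Pool.Agent.H505R3

/-- `p` divides `F` at `210 k + v0` -/
def Dv (F : ℕ → ℕ) (v0 p k : ℕ) : Prop := p ∣ F (210 * k + v0)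

instance (F : ℕ → ℕ) (v0 p : ℕ) : DecidablePred (Dv F v0 p) := fun n => by
  unfold Dv; infer_instance

/-- `F` is given by a nonzero polynomial of degree at most `8` modulo each prime from `11` on -/
def PolyMod (F : ℕ → ℕ) : Prop := ∀ p : ℕ, p.Prime → 11 ≤ p → ∃ P : (ZMod p)[X], P ≠ 0 ∧
  P.natDegree ≤ 8 ∧ ∀ u : ℕ, P.eval (u : ZMod p) = ((F u : ℕ) : ZMod p)

lemma cop210 {p : ℕ} (hp : p.Prime) (h11 : 11 ≤ p) : ¬ p ∣ 210 := by
  intro h
  have e : 210 = 2 * 3 * 5 * 7 := by norm_num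
  rw [e] at h
  have hh : ∀ q : ℕ, 0 < q → q < 11 → ¬ p ∣ q := fun q h0 h1 h2 => by
    have := Nat.le_of_dvd h0 h2
    omega
  rcases (hp.dvd_mul).1 h with h | h
  · rcases (hp.dvd_mul).1 h with h | h
    · rcases (hp.dvd_mul).1 h with h | h
      · exact hh 2 (by norm_num) (by norm_num) h
      · exact hh 3 (by norm_num) (by norm_num) h
    · exact hh 5 (by norm_num) (by norm_num) h
  · exact hh 7 (by norm_num) (by norm_num) h

lemma Dv_mod {F : ℕ → ℕ} (hF : PolyMod F) {v0 p k : ℕ} (hp : p.Prime) (h11 : 11 ≤ p)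
    (h : Dv F v0 p k) : Dv F v0 p (k % p) := by
  obtain ⟨P, -, -, hP⟩ := hF p hp h11
  unfold Dv at h ⊢
  rw [← ZMod.natCast_eq_zero_iff, ← hP] at h ⊢
  have e : ((210 * (k % p) + v0 : ℕ) : ZMod p) = ((210 * k + v0 : ℕ) : ZMod p) := by
    rw [ZMod.natCast_eq_natCast_iff]
    exact ((Nat.mod_modEq k p).mul_left 210).add_right v0
  rw [e]
  exact h

lemma Dv_card {F : ℕ → ℕ} (hF : PolyMod F) {v0 p : ℕ} (hp : p.Prime) (h11 : 11 ≤ p) :
    ((range p).filter (Dv F v0 p)).card ≤ 8 := by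
  have : Fact p.Prime := ⟨hp⟩
  obtain ⟨P, hP0, hPd, hPe⟩ := hF p hp h11
  have h1 : ((range p).filter (Dv F v0 p)).card ≤ P.roots.toFinset.card := by
    apply card_le_card_of_injOn (fun k : ℕ => ((210 * k + v0 : ℕ) : ZMod p))
    · intro k hk
      rw [mem_coe, mem_filter] at hk
      have h2 : ((F (210 * k + v0) : ℕ) : ZMod p) = 0 := (ZMod.natCast_eq_zero_iff _ _).2 hk.2
      rw [mem_coe, Multiset.mem_toFinset, mem_roots hP0, IsRoot.def]
      show eval ((((210 * k + v0 : ℕ) : ZMod p))) P = 0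
      rw [hPe]
      exact h2
    · intro k hk l hl hkl
      rw [mem_coe, mem_filter, mem_range] at hk hl
      have h2 : 210 * k + v0 ≡ 210 * l + v0 [MOD p] := (ZMod.natCast_eq_natCast_iff _ _ p).1 hkl
      have h3 : 210 * k ≡ 210 * l [MOD p] := Nat.ModEq.add_right_cancel' v0 h2
      have h4 : Nat.Coprime p 210 := (Nat.Prime.coprime_iff_not_dvd hp).2 (cop210 hp h11)
      have h5 : k ≡ l [MOD p] := Nat.ModEq.cancel_left_of_coprime (by
        rw [Nat.coprime_iff_gcd_eq_one] at h4; exact h4) h3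
      exact Nat.ModEq.eq_of_lt_of_lt h5 hk.1 hl.1
  exact h1.trans ((Multiset.toFinset_card_le _).trans ((card_roots' P).trans hPd))

/-- primes from `11` up to the sifting limit -/
def Sq (I : ℕ) : Finset ℕ := (Icc 11 (2 ^ 2 ^ I)).filter (fun p => p.Prime)

lemma mem_Sq {I p : ℕ} : p ∈ Sq I ↔ 11 ≤ p ∧ p ≤ 2 ^ 2 ^ I ∧ p.Prime := by
  rw [Sq, mem_filter, mem_Icc, and_assoc]

theorem siftS {F : ℕ → ℕ} (hF : PolyMod F) (v0 I : ℕ) (hI : 1 ≤ I) (k : ℕ) :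
    (k : ℝ) * (Real.exp (-128) ^ I / 2) - (2 : ℝ) ^ (1712 * 2 ^ I)
      ≤ (((Ioc 0 k).filter (fun n => ∀ p ∈ Sq I, ¬ Dv F v0 p n)).card : ℝ) := by
  have h := sift_gen 4 (by norm_num) (Sq I) (fun p hp => (mem_Sq.1 hp).2.2) (Dv F v0)
    (fun p hp n h => Dv_mod hF (mem_Sq.1 hp).2.2 (mem_Sq.1 hp).1 h) (by
      intro p hp
      obtain ⟨h11, -, hpp⟩ := mem_Sq.1 hp
      have := Dv_card hF (v0 := v0) hpp h11
      omega) (by
      intro p hp
      obtain ⟨h11, -, hpp⟩ := mem_Sq.1 hp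
      exact Dv_card hF hpp h11) I hI (fun p hp => (mem_Sq.1 hp).2.1) k
  have e : (-(32 * ((4 : ℕ) : ℝ))) = -128 := by norm_num
  rw [e] at h
  exact h

/-- the data of the family -/
structure Fam (val : ℕ → ℕ) where
  A : ℕ → ℕ
  B : ℕ → ℕ
  N : ℕ → ℕ
  y0 : ℕ → ℕ
  y1 : ℕ → ℕ
  y2 : ℕ → ℕ
  v0 : ℕ
  L0 : ℕ
  hL0 : 1 ≤ L0
  hP : PolyMod (fun u => A u * B u * N u)
  hsm : ∀ w, w ≡ v0 [MOD 210] → ∀ p, p.Prime → p < 11 → ¬ p ∣ A w * B w * N w
  m0 : ∀ u w, v0 ≤ u → u < w → y0 u < y0 w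
  m1 : ∀ u w, v0 ≤ u → u < w → y1 u < y1 w
  m2 : ∀ u w, v0 ≤ u → u < w → y2 u < y2 w
  b0 : ∀ u, v0 ≤ u → y0 u ≤ L0 * (u + 1) ^ 4
  b1 : ∀ u, v0 ≤ u → y1 u ≤ L0 * (u + 1) ^ 4
  b2 : ∀ u, v0 ≤ u → y2 u ≤ L0 * (u + 1) ^ 4
  i0 : ∀ u, v0 ≤ u → val (y0 u) = A u
  i1 : ∀ u, v0 ≤ u → val (y1 u) = A u * B u
  i2 : ∀ u, v0 ≤ u → val (y2 u) = B u * N u ^ 2
  pos : ∀ u, v0 ≤ u → A u ≠ 0 ∧ B u ≠ 0 ∧ N u ≠ 0

variable {val : ℕ → ℕ} (φ : Fam val)

lemma one_of_three (h : ℕ → ℤ) (hmul : ∀ m n : ℕ, m ≠ 0 → n ≠ 0 → h (m * n) = h m * h n)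
    (hval : ∀ m : ℕ, m ≠ 0 → h m = 1 ∨ h m = -1) (u : ℕ) (hu : φ.v0 ≤ u) :
    h (val (φ.y0 u)) = 1 ∨ h (val (φ.y1 u)) = 1 ∨ h (val (φ.y2 u)) = 1 := by
  obtain ⟨p0, p1, p2⟩ := φ.pos u hu
  rw [φ.i0 u hu, φ.i1 u hu, φ.i2 u hu, hmul _ _ p0 p1, hmul _ _ p1 (pow_ne_zero 2 p2),
    pow_two (φ.N u), hmul _ _ p2 p2]
  rcases hval _ p0 with e0 | e0 <;> rcases hval _ p1 with e1 | e1 <;>
    rcases hval _ p2 with e2 | e2 <;> rw [e0, e1, e2] <;> norm_num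

lemma rough_three {u z : ℕ} (hu : φ.v0 ≤ u) (h : Rough z (φ.A u * φ.B u * φ.N u)) :
    Rough z (val (φ.y0 u)) ∧ Rough z (val (φ.y1 u)) ∧ Rough z (val (φ.y2 u)) := by
  have r0 : Rough z (φ.A u) := fun p hp hd => h p hp ((hd.mul_right _).mul_right _)
  have r1 : Rough z (φ.B u) := fun p hp hd => h p hp ((hd.mul_left _).mul_right _)
  have r2 : Rough z (φ.N u) := fun p hp hd => h p hp (hd.mul_left _)
  rw [φ.i0 u hu, φ.i1 u hu, φ.i2 u hu, pow_two (φ.N u)]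
  exact ⟨r0, r0.mul r1, r1.mul (r2.mul r2)⟩

/-- the good set -/
def GS (val : ℕ → ℕ) (h : ℕ → ℤ) (z X : ℕ) : Set ℕ :=
  {t : ℕ | 1 ≤ t ∧ t ≤ X ∧ val t ≠ 0 ∧ Rough z (val t) ∧ h (val t) = 1}

lemma GS_fin (h : ℕ → ℤ) (z X : ℕ) : (GS val h z X).Finite :=
  (Set.finite_Iic X).subset fun _ ht => ht.2.1

theorem countS (h : ℕ → ℤ)
    (hmul : ∀ m n : ℕ, m ≠ 0 → n ≠ 0 → h (m * n) = h m * h n)
    (hval : ∀ m : ℕ, m ≠ 0 → h m = 1 ∨ h m = -1) (I : ℕ) (hI : 1 ≤ I) (k X : ℕ)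
    (hX : φ.L0 * ((211 + φ.v0) * k) ^ 4 ≤ X) :
    (k : ℝ) * (Real.exp (-128) ^ I / 2) - (2 : ℝ) ^ (1712 * 2 ^ I) ≤
      3 * ((GS val h (2 ^ 2 ^ I) X).ncard : ℝ) := by
  classical
  refine (siftS φ.hP φ.v0 I hI k).trans ?_
  obtain ⟨T, hT⟩ : ∃ T, T = (Ioc 0 k).filter (fun n => ∀ p ∈ Sq I,
    ¬ Dv (fun u => φ.A u * φ.B u * φ.N u) φ.v0 p n) := ⟨_, rfl⟩
  rw [← hT]
  have hrough : ∀ m ∈ T, Rough (2 ^ 2 ^ I)
      (φ.A (210 * m + φ.v0) * φ.B (210 * m + φ.v0) * φ.N (210 * m + φ.v0)) := by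
    intro m hm p hp hd
    rw [hT, mem_filter] at hm
    by_contra hcon
    push Not at hcon
    by_cases h11 : p < 11
    · refine φ.hsm (210 * m + φ.v0) ?_ p hp h11 hd
      have : 210 * m + φ.v0 ≡ 0 + φ.v0 [MOD 210] := by
        apply Nat.ModEq.add_right
        exact (Nat.modEq_zero_iff_dvd).2 (Dvd.intro _ rfl)
      rwa [zero_add] at this
    · push Not at h11
      exact hm.2 p (mem_Sq.2 ⟨h11, hcon, hp⟩) hd
  have hbd : ∀ m ∈ T, φ.L0 * ((210 * m + φ.v0) + 1) ^ 4 ≤ X := by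
    intro m hm
    rw [hT, mem_filter, mem_Ioc] at hm
    refine le_trans (Nat.mul_le_mul_left _ (Nat.pow_le_pow_left ?_ 4)) hX
    have h1 : 210 * m ≤ 210 * k := Nat.mul_le_mul_left _ hm.1.2
    have h2 : φ.v0 * 1 ≤ φ.v0 * k := Nat.mul_le_mul_left _ (by omega)
    have h3 : (211 + φ.v0) * k = 210 * k + k + φ.v0 * k := by ring
    omega
  have hinj : ∀ y : ℕ → ℕ, (∀ a b : ℕ, φ.v0 ≤ a → a < b → y a < y b) → ∀ m n : ℕ,
      y (210 * m + φ.v0) = y (210 * n + φ.v0) → m = n := by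
    intro y hy m n hmn
    rcases lt_trichotomy m n with hlt | heq | hlt
    · have := hy (210 * m + φ.v0) (210 * n + φ.v0) (by omega) (by omega)
      omega
    · exact heq
    · have := hy (210 * n + φ.v0) (210 * m + φ.v0) (by omega) (by omega)
      omega
  have hone : ∀ y : ℕ → ℕ, (∀ a b : ℕ, φ.v0 ≤ a → a < b → y a < y b) →
      (∀ m ∈ T, y (210 * m + φ.v0) ≤ X ∧ val (y (210 * m + φ.v0)) ≠ 0 ∧
        Rough (2 ^ 2 ^ I) (val (y (210 * m + φ.v0)))) →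
      ((T.filter (fun m => h (val (y (210 * m + φ.v0))) = 1)).card : ℝ) ≤
        ((GS val h (2 ^ 2 ^ I) X).ncard : ℝ) := by
    intro y hy hb
    have key := Set.ncard_le_ncard_of_injOn
      (s := ((T.filter (fun m => h (val (y (210 * m + φ.v0))) = 1) : Finset ℕ) : Set ℕ))
      (t := GS val h (2 ^ 2 ^ I) X) (fun m : ℕ => y (210 * m + φ.v0)) (by
      intro m hm
      rw [mem_coe, mem_filter] at hm
      obtain ⟨b1, b2, b3⟩ := hb m hm.1
      refine ⟨?_, b1, b2, b3, hm.2⟩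
      have hm1 := hm.1
      rw [hT, mem_filter, mem_Ioc] at hm1
      have := hy φ.v0 (210 * m + φ.v0) le_rfl (by omega)
      show 1 ≤ y (210 * m + φ.v0)
      omega) (by
      intro m _ n _ hmn
      exact hinj y hy m n hmn) (GS_fin h _ X)
    rw [Set.ncard_coe_finset] at key
    exact_mod_cast key
  have hge : ∀ m : ℕ, φ.v0 ≤ 210 * m + φ.v0 := fun m => by omega
  have c0 := hone φ.y0 φ.m0 (fun m hm =>
    ⟨(φ.b0 _ (hge m)).trans (hbd m hm), by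
      rw [φ.i0 _ (hge m)]; exact (φ.pos _ (hge m)).1, (rough_three φ (hge m) (hrough m hm)).1⟩)
  have c1 := hone φ.y1 φ.m1 (fun m hm =>
    ⟨(φ.b1 _ (hge m)).trans (hbd m hm), by
      rw [φ.i1 _ (hge m)]; exact mul_ne_zero (φ.pos _ (hge m)).1 (φ.pos _ (hge m)).2.1,
      (rough_three φ (hge m) (hrough m hm)).2.1⟩)
  have c2 := hone φ.y2 φ.m2 (fun m hm =>
    ⟨(φ.b2 _ (hge m)).trans (hbd m hm), by
      rw [φ.i2 _ (hge m)]
      exact mul_ne_zero (φ.pos _ (hge m)).2.1 (pow_ne_zero 2 (φ.pos _ (hge m)).2.2),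
      (rough_three φ (hge m) (hrough m hm)).2.2⟩)
  have hcover : T ⊆ T.filter (fun m => h (val (φ.y0 (210 * m + φ.v0))) = 1) ∪
      (T.filter (fun m => h (val (φ.y1 (210 * m + φ.v0))) = 1) ∪
      T.filter (fun m => h (val (φ.y2 (210 * m + φ.v0))) = 1)) := by
    intro m hm
    simp only [mem_union, mem_filter]
    rcases one_of_three φ h hmul hval (210 * m + φ.v0) (hge m) with g | g | g
    · exact Or.inl ⟨hm, g⟩
    · exact Or.inr (Or.inl ⟨hm, g⟩)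
    · exact Or.inr (Or.inr ⟨hm, g⟩)
  have hcard : (T.card : ℝ) ≤
      ((T.filter (fun m => h (val (φ.y0 (210 * m + φ.v0))) = 1)).card : ℝ) +
      (((T.filter (fun m => h (val (φ.y1 (210 * m + φ.v0))) = 1)).card : ℝ) +
      ((T.filter (fun m => h (val (φ.y2 (210 * m + φ.v0))) = 1)).card : ℝ)) := by
    have := (card_le_card hcover).trans ((card_union_le _ _).trans (Nat.add_le_add_left
      (card_union_le _ _) _))
    exact_mod_cast this
  linarith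

lemma exp128 : Real.exp 128 ≤ 2 ^ 185 := by
  have h1 : Real.exp 128 = Real.exp 1 ^ 128 := by
    rw [← Real.exp_nat_mul]; norm_num
  rw [h1]
  have h6 := Real.exp_one_lt_d9
  calc Real.exp 1 ^ 128 ≤ 2.7182818286 ^ 128 := pow_le_pow_left₀ (Real.exp_pos 1).le h6.le 128
      _ ≤ 2 ^ 185 := by norm_num

lemma exp128I (I : ℕ) : (1 : ℝ) ≤ Real.exp (-128) ^ I * 2 ^ (185 * I) := by
  rw [pow_mul, ← mul_pow]
  apply one_le_pow₀
  rw [Real.exp_neg, inv_mul_eq_div, one_le_div (Real.exp_pos _)]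
  exact exp128

lemma pow_big4 (I : ℕ) (hI : 10 ≤ I) : 185 * I + 2 ≤ 8 * 2 ^ I := by
  induction I, hI using Nat.le_induction with
  | base => norm_num
  | succ I hI ih =>
    rw [pow_succ]
    omega

theorem mainS (φ : Fam val) : ∃ Z₀ : ℕ,
    ∀ h : ℕ → ℤ, (∀ m n : ℕ, m ≠ 0 → n ≠ 0 → h (m * n) = h m * h n) →
      (∀ m : ℕ, m ≠ 0 → h m = 1 ∨ h m = -1) → ∀ X : ℕ, Z₀ ≤ X →
      (X : ℝ) ^ ((1 : ℝ) / 4) / Real.log X ^ 186 ≤
        (({t : ℕ | 1 ≤ t ∧ t ≤ X ∧ val t ≠ 0 ∧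
          (∀ p : ℕ, p.Prime → p ∣ val t → (X : ℝ) ^ ((1 : ℝ) / 14000) < p) ∧
          h (val t) = 1} : Set ℕ).ncard : ℝ) := by
  obtain ⟨L, hL⟩ : ∃ L : ℕ, L = φ.L0 * (211 + φ.v0) := ⟨_, rfl⟩
  have hL0 := φ.hL0
  have hL1 : 1 ≤ L := by
    rw [hL]
    exact Nat.mul_pos hL0 (by omega)
  have hLr : (1 : ℝ) ≤ L := by exact_mod_cast hL1
  obtain ⟨B, hB⟩ : ∃ B : ℝ, B = (2 : ℝ) ^ (1720 * 2 ^ 10) := ⟨_, rfl⟩
  have hev : ∀ᶠ X : ℕ in atTop, (B + 1) * L ≤ (X : ℝ) ^ ((1 : ℝ) / 4) ∧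
      2 * (L : ℝ) ≤ (X : ℝ) ^ ((1 : ℝ) / 4) ∧
      2 * (L : ℝ) ≤ (X : ℝ) ^ ((1 : ℝ) / 4 - 3440 / 14000) ∧ 2 ≤ X ∧
      24 * (L : ℝ) ≤ Real.log X := by
    have e1 := ev_ge (show (0 : ℝ) < 1 / 4 by norm_num) ((B + 1) * L)
    have e2 := ev_ge (show (0 : ℝ) < 1 / 4 by norm_num) (2 * (L : ℝ))
    have e3 := ev_ge (show (0 : ℝ) < 1 / 4 - 3440 / 14000 by norm_num) (2 * (L : ℝ))
    have e4 := (Real.tendsto_log_atTop.comp tendsto_natCast_atTop_atTop).eventually_ge_atTop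
      (24 * (L : ℝ))
    filter_upwards [e1, e2, e3, eventually_ge_atTop 2, e4] with X h1 h2 h3 h4 h5
    exact ⟨h1, h2, h3, h4, h5⟩
  rw [eventually_atTop] at hev
  obtain ⟨Z₀, hZ₀⟩ := hev
  refine ⟨Z₀, fun h hmul hval X hX => ?_⟩
  obtain ⟨a1, a2, a3, a4, a5⟩ := hZ₀ X hX
  have hX0 : (0 : ℝ) < X := by exact_mod_cast (by omega : 0 < X)
  have hX1 : (1 : ℝ) < X := by exact_mod_cast (by omega : 1 < X)
  set x : ℝ := (X : ℝ) ^ ((1 : ℝ) / 4) with hx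
  have hx4 : x ^ 4 = X := by
    rw [hx, ← Real.rpow_natCast, ← Real.rpow_mul hX0.le]
    norm_num
  have hxpos : 0 < x := by positivity
  have hLpos : (0 : ℝ) < L := by linarith
  set K : ℕ := ⌊x / L⌋₊ with hK
  have hK1 : (K : ℝ) ≤ x / L := Nat.floor_le (by positivity)
  have hK2 : x / L < K + 1 := Nat.lt_floor_add_one _
  have hxL : 2 ≤ x / L := by
    rw [le_div_iff₀ hLpos]
    exact a2
  have hK3 : x ≤ 2 * L * K := by
    have h1 : x / L ≤ 2 * K := by linarith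
    rw [div_le_iff₀ hLpos] at h1
    linarith
  have hKX : φ.L0 * ((211 + φ.v0) * K) ^ 4 ≤ X := by
    have h1 : (L : ℝ) * K ≤ x := by
      rw [le_div_iff₀ hLpos] at hK1
      linarith
    have h2 : ((L * K : ℕ) : ℝ) ^ 4 ≤ x ^ 4 := by
      push_cast
      exact pow_le_pow_left₀ (by positivity) h1 4
    rw [hx4] at h2
    have h3 : (L * K) ^ 4 ≤ X := by exact_mod_cast h2
    refine le_trans ?_ h3
    have h4 : (L * K) ^ 4 = φ.L0 ^ 4 * ((211 + φ.v0) * K) ^ 4 := by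
      rw [hL]
      ring
    rw [h4]
    apply Nat.mul_le_mul_right
    exact Nat.le_self_pow (by norm_num) _
  obtain ⟨I, hI0, hI1, hI2⟩ := exists_levelG 1720 (by norm_num) (x := (K : ℝ)) 10 (by
    rw [← hB]
    have : B + 1 ≤ x / L := by
      rw [le_div_iff₀ hLpos]
      exact a1
    linarith)
  have hcount := countS φ h hmul hval I (by omega) K X hKX
  -- the sieve bound is large
  have hE1 := exp128I I
  have hP := pow_big4 I hI0
  set W : ℝ := (2 : ℝ) ^ (185 * I) with hW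
  have hWpos : 0 < W := by positivity
  have hlow : (K : ℝ) / (4 * W) ≤
      (K : ℝ) * (Real.exp (-128) ^ I / 2) - (2 : ℝ) ^ (1712 * 2 ^ I) := by
    have h1 : (2 : ℝ) ^ (1712 * 2 ^ I) * (4 * W) ≤ K := by
      refine le_trans ?_ hI1
      rw [hW, show (4 : ℝ) = 2 ^ 2 by norm_num, ← pow_add, ← pow_add]
      apply pow_le_pow_right₀ (by norm_num)
      omega
    have h2 : (2 : ℝ) ^ (1712 * 2 ^ I) ≤ K / (4 * W) := by
      rw [le_div_iff₀ (by positivity)]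
      exact h1
    have h3 : (K : ℝ) / (2 * W) ≤ (K : ℝ) * (Real.exp (-128) ^ I / 2) := by
      rw [div_le_iff₀ (by positivity)]
      have : (K : ℝ) * (Real.exp (-128) ^ I / 2) * (2 * W) =
        K * (Real.exp (-128) ^ I * W) := by ring
      rw [this]
      have hK0 : (0 : ℝ) ≤ K := Nat.cast_nonneg _
      nlinarith
    have h4 : (K : ℝ) / (2 * W) = K / (4 * W) + K / (4 * W) := by field_simp; ring
    linarith
  -- sifting limit
  have hz : (X : ℝ) ^ ((1 : ℝ) / 14000) < (2 : ℝ) ^ 2 ^ I := by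
    have h1 : ((X : ℝ) ^ ((1 : ℝ) / 14000)) ^ (3440 : ℕ) < ((2 : ℝ) ^ 2 ^ I) ^ (3440 : ℕ) := by
      rw [← Real.rpow_natCast, ← Real.rpow_mul hX0.le, ← pow_mul]
      have e1 : (1 : ℝ) / 14000 * ((3440 : ℕ) : ℝ) = 3440 / 14000 := by push_cast; ring
      rw [e1, mul_comm (2 ^ I) 3440]
      refine lt_of_le_of_lt ?_ hI2
      have h2 : x = (X : ℝ) ^ ((3440 : ℝ) / 14000) *
          (X : ℝ) ^ ((1 : ℝ) / 4 - 3440 / 14000) := by
        rw [hx, ← Real.rpow_add hX0]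
        congr 1
        ring
      have h3 : (X : ℝ) ^ ((3440 : ℝ) / 14000) * (2 * (L : ℝ)) ≤ 2 * L * K := by
        refine le_trans ?_ hK3
        rw [h2]
        exact mul_le_mul_of_nonneg_left a3 (by positivity)
      have h4 : (X : ℝ) ^ ((3440 : ℝ) / 14000) * (2 * (L : ℝ)) ≤ K * (2 * L) := by linarith
      exact le_of_mul_le_mul_right h4 (by positivity)
    exact lt_of_pow_lt_pow_left₀ 3440 (by positivity) h1
  -- comparison with powers of the logarithm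
  have hlog : 0 < Real.log X := Real.log_pos hX1
  have hKX' : (K : ℝ) ≤ X := by
    have h0 : (K : ℝ) ≤ x := by
      refine hK1.trans ?_
      exact div_le_self hxpos.le hLr
    have h1 : x ≤ x ^ 4 := le_self_pow₀ (by linarith) (by norm_num)
    rw [hx4] at h1
    linarith
  have hI3 : (2 : ℝ) ^ I ≤ Real.log X := by
    have h1 : Real.log ((2 : ℝ) ^ (1720 * 2 ^ I)) ≤ Real.log X :=
      Real.log_le_log (by positivity) (hI1.trans hKX')
    rw [Real.log_pow] at h1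
    push_cast at h1
    have h2 := Real.log_two_gt_d9
    have h3 : (0 : ℝ) < 2 ^ I := by positivity
    nlinarith
  have hI4 : W ≤ Real.log X ^ 185 := by
    calc W = ((2 : ℝ) ^ I) ^ 185 := by rw [hW, ← pow_mul, mul_comm 185 I]
      _ ≤ Real.log X ^ 185 := pow_le_pow_left₀ (by positivity) hI3 185
  have hI5 : W * (24 * L) ≤ Real.log X ^ 186 := by
    rw [pow_succ]
    exact mul_le_mul hI4 a5 (by positivity) (by positivity)
  have hfin : x / Real.log X ^ 186 ≤ (K : ℝ) / (4 * W) / 3 := by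
    rw [div_div, div_le_div_iff₀ (by positivity) (by positivity)]
    have h1 : x * (4 * W * 3) ≤ (2 * L * K) * (4 * W * 3) :=
      mul_le_mul_of_nonneg_right hK3 (by positivity)
    have h2 : (2 * L * (K : ℝ)) * (4 * W * 3) = K * (W * (24 * L)) := by ring
    rw [h2] at h1
    exact h1.trans (mul_le_mul_of_nonneg_left hI5 (Nat.cast_nonneg _))
  refine hfin.trans ?_
  rw [div_le_iff₀ (by norm_num)]
  refine (hlow.trans hcount).trans ?_
  rw [mul_comm]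
  apply mul_le_mul_of_nonneg_right _ (by norm_num)
  have hsub : GS val h (2 ^ 2 ^ I) X ⊆ {t : ℕ | 1 ≤ t ∧ t ≤ X ∧ val t ≠ 0 ∧
          (∀ p : ℕ, p.Prime → p ∣ val t → (X : ℝ) ^ ((1 : ℝ) / 14000) < p) ∧
          h (val t) = 1} := by
    rintro n ⟨h0, h1, h1', h2, h4⟩
    refine ⟨h0, h1, h1', fun p hp hd => hz.trans ?_, h4⟩
    exact_mod_cast h2 p hp hd
  exact_mod_cast Set.ncard_le_ncard hsub ((Set.finite_Iic X).subset fun n hn => hn.2.1)

end Pool.Agent.H496R3.Three
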